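import Pool.Agent.OddLin.Defs

/-! # MP_f155e9_co, odd diameter, linear range: counting sets with a rich prefix -/

set_option autoImplicit false

namespace Pool.Agent.OddLin

open Finset

theorem card_superset_le {α : Type*} [Fintype α] [DecidableEq α] {k : ℕ} (T : Finset α)
    (hT : T.card ≤ k) :
    ((powersetCard k (univ : Finset α)).filter (fun X => T ⊆ X)).card ≤
      (Fintype.card α - T.card).choose (k - T.card) := by
  have h1 : ((powersetCard (k - T.card) (Tᶜ : Finset α))).card =
      (Fintype.card α - T.card).choose (k - T.card) := by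
    rw [card_powersetCard, card_compl]
  rw [← h1]
  apply card_le_card_of_injOn (fun X => X \ T)
  · intro X hX
    simp only [coe_filter, mem_powersetCard, subset_univ, true_and, Set.mem_ofPred_eq] at hX
    obtain ⟨hX1, hX2⟩ := hX
    simp only [mem_coe, mem_powersetCard]
    refine ⟨?_, ?_⟩
    · intro x hx
      rw [mem_sdiff] at hx
      rw [mem_compl]
      exact hx.2
    · rw [card_sdiff_of_subset hX2, hX1]
  · intro X hX Y hY h
    simp only [coe_filter, mem_powersetCard, subset_univ, true_and, Set.mem_ofPred_eq] at hX hY
    simp only at h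
    rw [← sdiff_union_of_subset hX.2, ← sdiff_union_of_subset hY.2, h]

/-- Package C -/
theorem card_pre_ge {n k q t : ℕ} (hq : q ≤ n) :
    ((powersetCard k (univ : Finset (Fin n))).filter (fun X => t ≤ pre q X)).card ≤
      q.choose t * (n - t).choose (k - t) := by
  by_cases htk : t ≤ k
  swap
  · rw [card_eq_zero.2]
    · exact Nat.zero_le _
    · rw [filter_eq_empty_iff]
      intro X hX h
      rw [mem_powersetCard] at hX
      have : pre q X ≤ X.card := card_filter_le _ _
      omega
  set Q : Finset (Fin n) := univ.filter (fun i => i.val < q) with hQ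
  have hQc : Q.card = q := by
    rw [hQ, Fin.card_filter_val_lt, min_eq_right hq]
  have hsub : (powersetCard k (univ : Finset (Fin n))).filter (fun X => t ≤ pre q X) ⊆
      (powersetCard t Q).biUnion
        (fun T => (powersetCard k (univ : Finset (Fin n))).filter (fun X => T ⊆ X)) := by
    intro X hX
    rw [mem_filter] at hX
    obtain ⟨hX1, hX2⟩ := hX
    obtain ⟨T, hT, hTc⟩ := exists_subset_card_eq hX2
    rw [mem_biUnion]
    refine ⟨T, ?_, ?_⟩
    · rw [mem_powersetCard]
      refine ⟨?_, hTc⟩
      intro x hx
      have := hT hx
      rw [mem_filter] at this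
      rw [hQ, mem_filter]
      exact ⟨mem_univ _, this.2⟩
    · rw [mem_filter]
      exact ⟨hX1, fun x hx => (mem_filter.1 (hT hx)).1⟩
  refine (card_le_card hsub).trans (card_biUnion_le.trans ?_)
  have : ∀ T ∈ powersetCard t Q,
      ((powersetCard k (univ : Finset (Fin n))).filter (fun X => T ⊆ X)).card ≤
        (n - t).choose (k - t) := by
    intro T hT
    rw [mem_powersetCard] at hT
    have h := card_superset_le (k := k) T (by omega)
    rw [Fintype.card_fin, hT.2] at h
    exact h
  refine (sum_le_sum this).trans ?_
  rw [sum_const, card_powersetCard, hQc, smul_eq_mul]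

end Pool.Agent.OddLin
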