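import Pool.Agent.OddLin.Final
import Pool.Agent.OddDiam.Final
import Pool.Agent.DiamEven.Main

/-! # MP_f155e9_co: the bound of Q1 for both parities, `n - k` at most a constant times `n` -/

set_option autoImplicit false

namespace Pool.Agent.OddLin

open Finset Pool.Agent.OddDiam

variable {n : ℕ}

private lemma vpair_of_diam' {d k : ℕ} (hn : n = d + k) (F G : Finset (Finset (Fin n)))
    (hF : IsAntichain (· ⊆ ·) (F : Set (Finset (Fin n))))
    (hG : IsAntichain (· ⊆ ·) (G : Set (Finset (Fin n))))
    (hd : ∀ A ∈ F, ∀ B ∈ G, (symmDiff A B).card ≤ d) :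
    DiamEven.VPair k (univ : Finset (Fin n)) F (G.image compl) := by
  refine ⟨hF, ?_, fun A _ => subset_univ A, fun A _ => subset_univ A, ?_⟩
  · intro X hX Y hY hne hsub
    simp only [coe_image, Set.mem_image, mem_coe] at hX hY
    obtain ⟨A, hA, rfl⟩ := hX
    obtain ⟨B, hB, rfl⟩ := hY
    have hne' : B ≠ A := fun h => hne (by rw [h])
    exact hG hB hA hne' (compl_subset_compl.1 hsub)
  · intro A hA X hX
    rw [mem_image] at hX
    obtain ⟨B, hB, rfl⟩ := hX
    have h1 := hd A hA B hB
    rw [symm_card] at h1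
    have e1 : A \ Bᶜ = A ∩ B := by ext x; simp
    have e2 : Bᶜ \ A = (A ∪ B)ᶜ := by ext x; simp [and_comm]
    rw [e1, e2, card_compl, Fintype.card_fin]
    have h3 : (A \ B).card + (A ∩ B).card = A.card := card_sdiff_add_card_inter A B
    have h4 : (B \ A).card + (B ∩ A).card = B.card := card_sdiff_add_card_inter B A
    have h5 := card_union_add_card_inter A B
    rw [inter_comm B A] at h4
    have h6 : (A ∪ B).card ≤ n := by simpa using card_le_univ (A ∪ B)
    omega

/-- the case `n - k` even, `3 k ≥ n + 2` -/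
private theorem even_linear (n k : ℕ) (hkn : k ≤ n) (he : (n - k) % 2 = 0)
    (h3 : n + 2 ≤ 3 * k) (F : Finset (Finset (Fin n)))
    (hF : IsAntichain (· ⊆ ·) (F : Set (Finset (Fin n))))
    (hd : ∀ A ∈ F, ∀ B ∈ F, (symmDiff A B).card ≤ n - k) :
    F.card ≤ n.choose ((n - k) / 2) := by
  obtain ⟨s, hs⟩ : ∃ s, n = 2 * s + k := ⟨(n - k) / 2, by omega⟩
  have h4 : (n - k) / 2 = s := by omega
  rw [h4]
  rcases le_or_gt F.card (n.choose s) with h | h
  · exact h
  · have hV := vpair_of_diam' (d := s + s) (k := k) (by omega) F F hF hF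
      (fun A hA B hB => (hd A hA B hB).trans (by omega))
    have hall := DiamEven.all_D (α := Fin n) (c := k - 1) (k := k) (by omega) (s + s)
    have := hall.2 s s rfl (by omega) (by omega) univ F (F.image compl)
      (by rw [card_univ, Fintype.card_fin]; omega) hV
      (by rw [card_univ, Fintype.card_fin]; exact h.le)
    rwa [card_image_of_injective _ compl_injective, card_univ, Fintype.card_fin] at this

theorem final_linear (n k : ℕ) (hkn : k ≤ n)
    (hd : 490 * (n - k) ≤ n ∨ (25000 ≤ n ∧ 100 * (n - k) ≤ n)) (F : Finset (Finset (Fin n)))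
    (hanti : IsAntichain (· ⊆ ·) (F : Set (Finset (Fin n))))
    (hdiam : ∀ A ∈ F, ∀ B ∈ F, (symmDiff A B).card ≤ n - k) :
    F.card ≤ n.choose ((n + k + 1) / 2) := by
  by_cases hsm : 10 * (n - k) ^ 2 ≤ n
  · exact final_small n k hkn hsm F hanti hdiam
  have hpos : 0 < n - k := by
    rcases Nat.eq_zero_or_pos (n - k) with h | h
    · rw [h] at hsm
      simp at hsm
    · exact h
  have h49 : 49 < n - k := by
    by_contra hle
    apply hsm
    have h1 : (n - k) ^ 2 ≤ 49 * (n - k) := by
      rw [pow_two]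
      exact Nat.mul_le_mul_right _ (by omega)
    have h2 : 49 * (n - k) ≤ 49 * 49 := Nat.mul_le_mul_left _ (by omega)
    omega
  rw [choose_eq hkn]
  rcases Nat.mod_two_eq_zero_or_one (n - k) with he | ho
  · exact even_linear n k hkn he (by omega) F hanti hdiam
  · exact odd_linear (by omega) (by omega) hanti
      (fun A hA B hB => (hdiam A hA B hB).trans (by omega))

end Pool.Agent.OddLin
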