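import Pool.Agent.OddLin.Defs
import Pool.Agent.OddLin.CardPre

/-! # MP_f155e9_co, odd diameter, linear range: counting lemmas -/

set_option autoImplicit false

namespace Pool.Agent.OddLin

open Finset

theorem pre_zero_iff {n q : ℕ} {X : Finset (Fin n)} : pre q X = 0 ↔ ∀ x ∈ X, q ≤ x.val := by
  rw [pre, card_eq_zero, filter_eq_empty_iff]
  constructor
  · intro h x hx
    exact not_lt.1 (h hx)
  · intro h x hx
    exact not_lt.2 (h x hx)

theorem pre_le_card {n q : ℕ} (X : Finset (Fin n)) : pre q X ≤ X.card := card_filter_le _ _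

theorem pre_le {n q : ℕ} (X : Finset (Fin n)) : pre q X ≤ q := by
  rcases le_or_gt q n with h | h
  · have h1 : (X.filter (fun i => i.val < q)) ⊆ (univ : Finset (Fin n)).filter (fun i => i.val < q) :=
      filter_subset_filter _ (subset_univ _)
    have h2 := card_le_card h1
    rw [Fin.card_filter_val_lt, min_eq_right h] at h2
    exact h2
  · have := pre_le_card (q := q) X
    have h2 := card_le_univ X
    rw [Fintype.card_fin] at h2
    omega

theorem pre_mono {n q q' : ℕ} (h : q ≤ q') (X : Finset (Fin n)) : pre q X ≤ pre q' X := by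
  apply card_le_card
  intro x hx
  rw [mem_filter] at hx ⊢
  exact ⟨hx.1, by omega⟩

theorem pre_sub_mono {n q : ℕ} {X Y : Finset (Fin n)} (h : X ⊆ Y) : pre q X ≤ pre q Y :=
  card_le_card (filter_subset_filter _ h)

/-- the number of sets avoiding the first `L` elements -/
theorem card_pre_zero {n L s : ℕ} (hL : L ≤ n) :
    ((powersetCard s (univ : Finset (Fin n))).filter (fun X => pre L X = 0)).card =
      (n - L).choose s := by
  have h1 : (powersetCard s (univ : Finset (Fin n))).filter (fun X => pre L X = 0) =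
      powersetCard s ((univ : Finset (Fin n)).filter (fun i => i.val < L))ᶜ := by
    ext X
    simp only [mem_filter, mem_powersetCard, subset_univ, true_and, pre_zero_iff]
    constructor
    · rintro ⟨h1, h2⟩
      refine ⟨?_, h1⟩
      intro x hx
      simp only [mem_compl, mem_filter, mem_univ, true_and, not_lt]
      exact h2 x hx
    · rintro ⟨h1, h2⟩
      refine ⟨h2, ?_⟩
      intro x hx
      have := h1 hx
      simpa using this
  rw [h1, card_powersetCard, card_compl, Fintype.card_fin, Fin.card_filter_val_lt,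
    min_eq_right hL]

/-- the number of `k`-sets avoiding the first `L` elements, with `t` of the first `q` elements -/
theorem card_pre_ge' {n k q t L : ℕ} (hq : q ≤ n) (htk : t ≤ k) :
    ((powersetCard k (univ : Finset (Fin n))).filter
      (fun X => pre L X = 0 ∧ t ≤ pre q X)).card ≤
      (q - L).choose t * (n - L - t).choose (k - t) := by
  rcases Nat.lt_or_ge n L with hnL | hnL
  · rcases Nat.eq_zero_or_pos t with rfl | ht
    · rcases Nat.eq_zero_or_pos k with rfl | hk
      · rw [powersetCard_zero]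
        refine (card_filter_le _ _).trans ?_
        simp
      · rw [card_eq_zero.2]
        · exact Nat.zero_le _
        · rw [filter_eq_empty_iff]
          rintro X hX ⟨h1, -⟩
          rw [mem_powersetCard] at hX
          have hne : X.Nonempty := by rw [← card_pos]; omega
          obtain ⟨x, hx⟩ := hne
          have := pre_zero_iff.1 h1 x hx
          omega
    · rw [card_eq_zero.2]
      · exact Nat.zero_le _
      · rw [filter_eq_empty_iff]
        rintro X hX ⟨h1, -⟩
        rw [mem_powersetCard] at hX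
        have hne : X.Nonempty := by rw [← card_pos]; omega
        obtain ⟨x, hx⟩ := hne
        have := pre_zero_iff.1 h1 x hx
        omega
  set Lo : Finset (Fin n) := univ.filter (fun i => i.val < L) with hLo
  have hLoc : Lo.card = L := by rw [hLo, Fin.card_filter_val_lt, min_eq_right hnL]
  set U : Finset (Fin n) := Loᶜ with hU
  have hUc : U.card = n - L := by rw [hU, card_compl, Fintype.card_fin, hLoc]
  have hUm : ∀ x : Fin n, x ∈ U ↔ L ≤ x.val := by
    intro x
    rw [hU, mem_compl, hLo, mem_filter]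
    simp
  set Q : Finset (Fin n) := (univ.filter (fun i => i.val < q)) \ Lo with hQ
  have hQc : Q.card = q - L := by
    rcases le_total L q with h | h
    · rw [hQ, card_sdiff_of_subset, hLoc, Fin.card_filter_val_lt, min_eq_right hq]
      intro x hx
      rw [hLo, mem_filter] at hx
      rw [mem_filter]
      exact ⟨mem_univ _, by omega⟩
    · have : Q = ∅ := by
        rw [eq_empty_iff_forall_notMem]
        intro x hx
        rw [hQ, mem_sdiff, hLo, mem_filter, mem_filter] at hx
        apply hx.2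
        exact ⟨mem_univ _, by omega⟩
      rw [this, card_empty]
      omega
  have hQU : Q ⊆ U := by
    intro x hx
    rw [hUm]
    rw [hQ, mem_sdiff, hLo, mem_filter, mem_filter] at hx
    by_contra h
    exact hx.2 ⟨mem_univ _, by omega⟩
  have hsub : (powersetCard k (univ : Finset (Fin n))).filter
      (fun X => pre L X = 0 ∧ t ≤ pre q X) ⊆
      (powersetCard t Q).biUnion (fun T => (powersetCard k U).filter (fun X => T ⊆ X)) := by
    intro X hX
    rw [mem_filter, mem_powersetCard] at hX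
    obtain ⟨⟨-, hX1⟩, hX3, hX2⟩ := hX
    rw [pre_zero_iff] at hX3
    obtain ⟨T, hT, hTc⟩ := exists_subset_card_eq hX2
    rw [mem_biUnion]
    refine ⟨T, ?_, ?_⟩
    · rw [mem_powersetCard]
      refine ⟨?_, hTc⟩
      intro x hx
      have h1 := hT hx
      rw [mem_filter] at h1
      have h2 := hX3 x h1.1
      rw [hQ, mem_sdiff, mem_filter, hLo, mem_filter]
      exact ⟨⟨mem_univ _, h1.2⟩, fun h => by omega⟩
    · rw [mem_filter, mem_powersetCard]
      refine ⟨⟨?_, hX1⟩, fun x hx => (mem_filter.1 (hT hx)).1⟩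
      intro x hx
      rw [hUm]
      exact hX3 x hx
  refine (card_le_card hsub).trans (card_biUnion_le.trans ?_)
  have : ∀ T ∈ powersetCard t Q,
      ((powersetCard k U).filter (fun X => T ⊆ X)).card ≤ (n - L - t).choose (k - t) := by
    intro T hT
    rw [mem_powersetCard] at hT
    have h1 : ((powersetCard (k - T.card) (U \ T))).card = (n - L - t).choose (k - t) := by
      rw [card_powersetCard, card_sdiff_of_subset (hT.1.trans hQU), hUc, hT.2]
    rw [← h1]
    apply card_le_card_of_injOn (fun X => X \ T)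
    · intro X hX
      simp only [coe_filter, mem_powersetCard, Set.mem_ofPred_eq] at hX
      obtain ⟨⟨hX0, hX1⟩, hX2⟩ := hX
      simp only [mem_coe, mem_powersetCard]
      refine ⟨sdiff_subset_sdiff hX0 subset_rfl, ?_⟩
      rw [card_sdiff_of_subset hX2, hX1]
    · intro X hX Y hY h
      simp only [coe_filter, mem_powersetCard, Set.mem_ofPred_eq] at hX hY
      simp only at h
      rw [← sdiff_union_of_subset hX.2, ← sdiff_union_of_subset hY.2, h]
  refine (sum_le_sum this).trans ?_
  rw [sum_const, card_powersetCard, hQc, smul_eq_mul]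

theorem choose_diag {p : ℝ} (hp0 : 0 ≤ p) (hp1 : p ≤ 1) {m k t : ℕ} (hk : (k : ℝ) ≤ p * m)
    (ht : t ≤ k) : ((m - t).choose (k - t) : ℝ) ≤ p ^ t * m.choose k := by
  induction t with
  | zero => simp
  | succ t ih =>
    have ih' := ih (by omega)
    have hkm : k ≤ m := by
      have h0 : p * (m : ℝ) ≤ 1 * m := mul_le_mul_of_nonneg_right hp1 (Nat.cast_nonneg _)
      rw [one_mul] at h0
      exact_mod_cast hk.trans h0
    have h1 := Nat.add_one_mul_choose_eq (m - (t + 1)) (k - (t + 1))
    have e1 : m - (t + 1) + 1 = m - t := by omega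
    have e2 : k - (t + 1) + 1 = k - t := by omega
    rw [e1, e2] at h1
    have h2 : ((m - t : ℕ) : ℝ) * ((m - (t + 1)).choose (k - (t + 1)) : ℝ) =
        (m - t).choose (k - t) * ((k - t : ℕ) : ℝ) := by exact_mod_cast h1
    have hm : (0 : ℝ) < ((m - t : ℕ) : ℝ) := by exact_mod_cast (by omega : 0 < m - t)
    have h3 : ((k - t : ℕ) : ℝ) ≤ p * ((m - t : ℕ) : ℝ) := by
      rw [Nat.cast_sub (by omega), Nat.cast_sub (by omega)]
      have : (0 : ℝ) ≤ (1 - p) * t := mul_nonneg (by linarith) (Nat.cast_nonneg _)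
      nlinarith
    have h4 : ((m - t : ℕ) : ℝ) * ((m - (t + 1)).choose (k - (t + 1)) : ℝ) ≤
        ((m - t : ℕ) : ℝ) * (p ^ (t + 1) * m.choose k) := by
      rw [h2]
      calc ((m - t).choose (k - t) : ℝ) * ((k - t : ℕ) : ℝ)
          ≤ (p ^ t * m.choose k) * (p * ((m - t : ℕ) : ℝ)) :=
            mul_le_mul ih' h3 (Nat.cast_nonneg _) (by positivity)
        _ = _ := by ring
    exact le_of_mul_le_mul_left h4 hm

/-- sum over `q` of `2^(q-c) 5^(-q)` -/
theorem sum_pow5 {c Q : ℕ} (hc : c ≤ Q) (N : ℕ) :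
    ∑ q ∈ Ico Q N, (2 : ℝ) ^ (q - c) * (1 / 5) ^ q ≤ (1 / 2) ^ c * ((5 / 3) * (2 / 5) ^ Q) := by
  have h1 : ∀ q ∈ Ico Q N, (2 : ℝ) ^ (q - c) * (1 / 5) ^ q = (1 / 2) ^ c * (2 / 5) ^ q := by
    intro q hq
    rw [mem_Ico] at hq
    have h2 : (2 : ℝ) ^ q = 2 ^ (q - c) * 2 ^ c := by
      rw [← pow_add]
      congr 1
      omega
    have h3 : (2 / 5 : ℝ) ^ q = 2 ^ q * (1 / 5) ^ q := by
      rw [← mul_pow]; norm_num
    have h4 : (1 / 2 : ℝ) ^ c * 2 ^ c = 1 := by
      rw [← mul_pow]; norm_num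
    rw [h3, h2]
    calc (2 : ℝ) ^ (q - c) * (1 / 5) ^ q = 2 ^ (q - c) * (1 / 5) ^ q * 1 := by ring
      _ = 2 ^ (q - c) * (1 / 5) ^ q * ((1 / 2 : ℝ) ^ c * 2 ^ c) := by rw [h4]
      _ = _ := by ring
  rw [sum_congr rfl h1, ← mul_sum]
  apply mul_le_mul_of_nonneg_left _ (by positivity)
  have h5 := geom_sum_Ico_le_of_lt_one (x := (2 / 5 : ℝ)) (m := Q) (n := N) (by norm_num)
    (by norm_num)
  refine h5.trans (le_of_eq ?_)
  rw [div_eq_iff (by norm_num)]
  ring

/-- sum over `q` of `2^q p^(q/3)` -/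
theorem sum_pow2 {p : ℝ} (hp0 : 0 ≤ p) (hp : p ≤ 1 / 200) (Q N : ℕ) :
    ∑ q ∈ Ico Q N, (2 : ℝ) ^ q * p ^ (q / 3) ≤ 15 / 2 * (8 * p) ^ (Q / 3) := by
  have key : ∀ m : ℕ, ∑ q ∈ Ico (3 * (Q / 3)) (3 * (Q / 3 + m)), (2 : ℝ) ^ q * p ^ (q / 3) =
      7 * ∑ u ∈ Ico (Q / 3) (Q / 3 + m), (8 * p) ^ u := by
    intro m
    induction m with
    | zero => simp
    | succ m ih =>
      have e1 : 3 * (Q / 3 + (m + 1)) = 3 * (Q / 3 + m) + 1 + 1 + 1 := by ring
      rw [e1, sum_Ico_succ_top (by omega), sum_Ico_succ_top (by omega),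
        sum_Ico_succ_top (by omega), ih, ← add_assoc, sum_Ico_succ_top (by omega)]
      have e2 : 3 * (Q / 3 + m) / 3 = Q / 3 + m := by omega
      have e3 : (3 * (Q / 3 + m) + 1) / 3 = Q / 3 + m := by omega
      have e4 : (3 * (Q / 3 + m) + 1 + 1) / 3 = Q / 3 + m := by omega
      have e5 : (2 : ℝ) ^ (3 * (Q / 3 + m)) = 8 ^ (Q / 3 + m) := by
        rw [pow_mul]; norm_num
      rw [e2, e3, e4, pow_succ _ (3 * (Q / 3 + m) + 1), pow_succ _ (3 * (Q / 3 + m)), e5, mul_pow]
      ring
  have hsub : Ico Q N ⊆ Ico (3 * (Q / 3)) (3 * (Q / 3 + N)) := by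
    intro q hq
    rw [mem_Ico] at hq ⊢
    omega
  have h1 : ∑ q ∈ Ico Q N, (2 : ℝ) ^ q * p ^ (q / 3) ≤
      ∑ q ∈ Ico (3 * (Q / 3)) (3 * (Q / 3 + N)), (2 : ℝ) ^ q * p ^ (q / 3) :=
    sum_le_sum_of_subset_of_nonneg hsub (fun q _ _ => by positivity)
  rw [key] at h1
  have h8 : 8 * p ≤ 1 / 25 := by linarith
  have h2 := geom_sum_Ico_le_of_lt_one (x := 8 * p) (m := Q / 3) (n := Q / 3 + N) (by positivity)
    (by linarith)
  have h3 : (8 * p) ^ (Q / 3) / (1 - 8 * p) ≤ (15 / 14) * (8 * p) ^ (Q / 3) := by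
    rw [div_le_iff₀ (by linarith)]
    have h0 : (0 : ℝ) ≤ (8 * p) ^ (Q / 3) := by positivity
    nlinarith
  linarith

end Pool.Agent.OddLin
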