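import Mathlib
import Pool.Agent.OddDiam.General

/-! # MP_f155e9_co, odd diameter, linear range: definitions -/

set_option autoImplicit false

namespace Pool.Agent.OddLin

open Finset

/-- the number of elements of `X` among the first `q` elements of `Fin n` -/
def pre {n : ℕ} (q : ℕ) (X : Finset (Fin n)) : ℕ := (X.filter (fun i => i.val < q)).card

/-- left-shifted families -/
def Shifted {n : ℕ} (𝒜 : Finset (Finset (Fin n))) : Prop :=
  ∀ A ∈ 𝒜, ∀ i j : Fin n, i < j → j ∈ A → i ∉ A → insert i (A.erase j) ∈ 𝒜

end Pool.Agent.OddLin
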