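import Pool.Agent.OddLin.Defs

/-! # MP_f155e9_co, odd diameter, linear range: prefixes of cross-intersecting shifted families -/

set_option autoImplicit false

namespace Pool.Agent.OddLin

open Finset

variable {n : ℕ}

/-- the invariant of the pushing process -/
private def Inv (e : ℕ) (B X : Finset (Fin n)) : Prop :=
  ∀ x ∈ X ∩ B, ((X ∩ B).filter (fun i => i ≤ x)).card + 1 ≤
    (((X ∪ B)ᶜ).filter (fun i => i ≤ x)).card + e

private theorem inv_start {e : ℕ} {A B : Finset (Fin n)}
    (h : ∀ q, 1 ≤ q → q ≤ n → pre q A + pre q B < q + e) : Inv e B A := by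
  intro x hx
  have h1 := h (x.val + 1) (by omega) (by omega)
  unfold pre at h1
  have e1 : ∀ X : Finset (Fin n), X.filter (fun i => i.val < x.val + 1) =
      X.filter (fun i => i ≤ x) := by
    intro X
    refine Finset.filter_congr (fun i _ => ?_)
    rw [Fin.le_def]
    omega
  rw [e1, e1] at h1
  have h2 : (A.filter (fun i => i ≤ x)).card + (B.filter (fun i => i ≤ x)).card =
      ((A ∪ B).filter (fun i => i ≤ x)).card + ((A ∩ B).filter (fun i => i ≤ x)).card := by
    rw [Finset.filter_union, Finset.filter_inter_distrib, Finset.card_union_add_card_inter]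
  have h3 : ((A ∪ B).filter (fun i => i ≤ x)).card + (((A ∪ B)ᶜ).filter (fun i => i ≤ x)).card =
      x.val + 1 := by
    rw [← Finset.card_union_of_disjoint, ← Finset.filter_union, Finset.union_compl]
    · have : (univ : Finset (Fin n)).filter (fun i => i ≤ x) = Finset.Iic x := by
        ext i
        simp
      rw [this, Fin.card_Iic]
    · exact Finset.disjoint_filter_filter disjoint_compl_right
  omega

private theorem exists_eth {X : Finset (Fin n)} : ∀ {e : ℕ}, 1 ≤ e → e ≤ X.card →
    ∃ x ∈ X, (X.filter (fun i => i ≤ x)).card = e := by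
  intro e he heX
  have hlt : e - 1 < X.card := by omega
  refine ⟨X.orderEmbOfFin rfl ⟨e - 1, hlt⟩, Finset.orderEmbOfFin_mem _ _ _, ?_⟩
  have h1 : X.filter (fun i => i ≤ X.orderEmbOfFin rfl ⟨e - 1, hlt⟩) =
      (Finset.Iic (⟨e - 1, hlt⟩ : Fin X.card)).map (X.orderEmbOfFin rfl).toEmbedding := by
    ext i
    simp only [Finset.mem_filter, Finset.mem_map, Finset.mem_Iic, RelEmbedding.coe_toEmbedding]
    constructor
    · rintro ⟨hi, hle⟩
      have : i ∈ Set.range (X.orderEmbOfFin rfl) := by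
        rw [Finset.range_orderEmbOfFin]
        exact hi
      obtain ⟨k, rfl⟩ := this
      exact ⟨k, (X.orderEmbOfFin rfl).le_iff_le.1 hle, rfl⟩
    · rintro ⟨k, hk, rfl⟩
      exact ⟨Finset.orderEmbOfFin_mem _ _ _, (X.orderEmbOfFin rfl).le_iff_le.2 hk⟩
  rw [h1, Finset.card_map, Fin.card_Iic]
  simp only
  omega

private theorem step {e : ℕ} (he : 1 ≤ e) {𝒜 : Finset (Finset (Fin n))} (hs : Shifted 𝒜)
    {B : Finset (Fin n)} (hB : ∀ A ∈ 𝒜, e ≤ (A ∩ B).card) {X : Finset (Fin n)} (hX : X ∈ 𝒜)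
    (hI : Inv e B X) : ∃ X' ∈ 𝒜, Inv e B X' ∧ (X' ∩ B).card < (X ∩ B).card := by
  obtain ⟨x, hx, hxe⟩ := exists_eth he (hB X hX)
  have h1 := hI x hx
  rw [hxe] at h1
  have h2 : 0 < (((X ∪ B)ᶜ).filter (fun i => i ≤ x)).card := by omega
  obtain ⟨y, hy⟩ := Finset.card_pos.1 h2
  rw [Finset.mem_filter, Finset.mem_compl, Finset.mem_union, not_or] at hy
  obtain ⟨⟨hyX, hyB⟩, hyx⟩ := hy
  rw [Finset.mem_inter] at hx
  have hne : y ≠ x := fun h => hyX (h ▸ hx.1)
  have hlt : y < x := lt_of_le_of_ne hyx hne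
  have hmem : insert y (X.erase x) ∈ 𝒜 := hs X hX y x hlt hx.1 hyX
  have hinter : insert y (X.erase x) ∩ B = (X ∩ B).erase x := by
    ext i
    simp only [Finset.mem_inter, Finset.mem_insert, Finset.mem_erase]
    constructor
    · rintro ⟨h | h, h'⟩
      · exact absurd (h ▸ h') hyB
      · exact ⟨h.1, h.2, h'⟩
    · rintro ⟨h, h', h''⟩
      exact ⟨Or.inr ⟨h, h'⟩, h''⟩
  have hunion : (insert y (X.erase x) ∪ B)ᶜ = ((X ∪ B)ᶜ).erase y := by
    ext i
    simp only [Finset.mem_compl, Finset.mem_union, Finset.mem_insert, Finset.mem_erase, not_or]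
    constructor
    · rintro ⟨⟨h, h'⟩, h''⟩
      refine ⟨h, fun hiX => ?_, h''⟩
      by_cases hix : i = x
      · exact h'' (hix ▸ hx.2)
      · exact h' ⟨hix, hiX⟩
    · rintro ⟨h, h', h''⟩
      exact ⟨⟨h, fun h3 => h' h3.2⟩, h''⟩
  refine ⟨_, hmem, ?_, ?_⟩
  · intro z hz
    rw [hinter] at hz ⊢
    rw [hunion]
    rw [Finset.mem_erase] at hz
    have h3 := hI z hz.2
    rcases lt_or_gt_of_ne hz.1 with hzx | hzx
    · -- z < x
      have h4 : (((X ∩ B).erase x).filter (fun i => i ≤ z)).card + 1 ≤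
          ((X ∩ B).filter (fun i => i ≤ x)).card := by
        have hsub : insert x (((X ∩ B).erase x).filter (fun i => i ≤ z)) ⊆
            (X ∩ B).filter (fun i => i ≤ x) := by
          intro i hi
          rw [Finset.mem_insert] at hi
          rcases hi with rfl | hi
          · exact Finset.mem_filter.2 ⟨Finset.mem_inter.2 hx, le_refl _⟩
          · rw [Finset.mem_filter, Finset.mem_erase] at hi
            exact Finset.mem_filter.2 ⟨hi.1.2, le_trans hi.2 hzx.le⟩
        have := Finset.card_le_card hsub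
        rw [Finset.card_insert_of_notMem] at this
        · exact this
        · simp
      omega
    · -- x < z
      have h4 : (((X ∩ B).erase x).filter (fun i => i ≤ z)).card + 1 =
          ((X ∩ B).filter (fun i => i ≤ z)).card := by
        rw [Finset.filter_erase]
        exact Finset.card_erase_add_one (Finset.mem_filter.2 ⟨Finset.mem_inter.2 hx, hzx.le⟩)
      have h5 : ((((X ∪ B)ᶜ).erase y).filter (fun i => i ≤ z)).card + 1 =
          (((X ∪ B)ᶜ).filter (fun i => i ≤ z)).card := by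
        rw [Finset.filter_erase]
        refine Finset.card_erase_add_one (Finset.mem_filter.2 ⟨?_, (hlt.trans hzx).le⟩)
        rw [Finset.mem_compl, Finset.mem_union, not_or]
        exact ⟨hyX, hyB⟩
      omega
  · rw [hinter]
    exact Finset.card_erase_lt_of_mem (Finset.mem_inter.2 hx)

/-- Package B -/
theorem pair_prefix {n e : ℕ} (he : 1 ≤ e) {𝒜 : Finset (Finset (Fin n))} (hs : Shifted 𝒜)
    {B : Finset (Fin n)} (hB : ∀ A ∈ 𝒜, e ≤ (A ∩ B).card) {A : Finset (Fin n)} (hA : A ∈ 𝒜) :
    ∃ q, 1 ≤ q ∧ q ≤ n ∧ q + e ≤ pre q A + pre q B := by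
  by_contra hcon
  have h0 : Inv e B A := by
    refine inv_start (fun q h1 h2 => ?_)
    by_contra h3
    exact hcon ⟨q, h1, h2, not_lt.1 h3⟩
  have key : ∀ m : ℕ, ∀ X ∈ 𝒜, Inv e B X → (X ∩ B).card ≤ m → False := by
    intro m
    induction m with
    | zero =>
      intro X hX _ hm
      have := hB X hX
      omega
    | succ m ih =>
      intro X hX hI hm
      obtain ⟨X', hX', hI', hlt⟩ := step he hs hB hX hI
      exact ih X' hX' hI' (by omega)
  exact key _ A hA h0 le_rfl

end Pool.Agent.OddLin
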