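import Pool.Agent.OddLin.Shift
import Pool.Agent.OddLin.Prefix
import Pool.Agent.OddLin.Count

/-! # MP_f155e9_co, odd diameter, linear range: bound for the levels above `s + 1` -/

set_option autoImplicit false

namespace Pool.Agent.OddLin

open Finset Pool.Agent.OddDiam

/-- `(1/125)^⌈q/3⌉ ≤ (1/5)^q` -/
theorem pow_ceil (q : ℕ) : (1 / 125 : ℝ) ^ ((q + 2) / 3) ≤ (1 / 5) ^ q := by
  have h1 : (1 / 125 : ℝ) = (1 / 5) ^ 3 := by norm_num
  rw [h1, ← pow_mul]
  exact pow_le_pow_of_le_one (by norm_num) (by norm_num) (by omega)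

/-- the number of `k`-sets that avoid the first `L` elements and are rich at `q` -/
theorem rich_le {n k L q : ℕ} (hL : 125 * k ≤ n - L) (hq : q ≤ n) :
    (((powersetCard k (univ : Finset (Fin n))).filter
      (fun X => pre L X = 0 ∧ (q + 2) / 3 ≤ pre q X)).card : ℝ) ≤
      ((2 : ℝ) ^ (q - L) * (1 / 5) ^ q) * (n - L).choose k := by
  by_cases htk : (q + 2) / 3 ≤ k
  · have h1 := card_pre_ge' (L := L) hq htk
    have h2 : (((q - L).choose ((q + 2) / 3) * (n - L - (q + 2) / 3).choose (k - (q + 2) / 3) : ℕ) :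
        ℝ) ≤ (2 ^ (q - L) : ℝ) * ((1 / 125) ^ ((q + 2) / 3) * (n - L).choose k) := by
      push_cast
      apply mul_le_mul
      · exact_mod_cast Nat.choose_le_two_pow _ _
      · refine choose_diag (by norm_num) (by norm_num) ?_ htk
        have : (125 * k : ℝ) ≤ ((n - L : ℕ) : ℝ) := by exact_mod_cast hL
        linarith
      · positivity
      · positivity
    have h3 := pow_ceil q
    calc _ ≤ (((q - L).choose ((q + 2) / 3) * (n - L - (q + 2) / 3).choose (k - (q + 2) / 3) : ℕ) :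
        ℝ) := by exact_mod_cast h1
      _ ≤ _ := h2
      _ ≤ (2 ^ (q - L) : ℝ) * ((1 / 5) ^ q * (n - L).choose k) := by
        apply mul_le_mul_of_nonneg_left _ (by positivity)
        exact mul_le_mul_of_nonneg_right h3 (by positivity)
      _ = _ := by ring
  · rw [card_eq_zero.2]
    · simp only [Nat.cast_zero]
      positivity
    · rw [filter_eq_empty_iff]
      rintro X hX ⟨-, h⟩
      rw [mem_powersetCard] at hX
      have := pre_le_card (q := q) X
      omega

theorem exists_good {n s L : ℕ} (hL1 : 1 ≤ L) (hLn : L ≤ n) (hL : 125 * s ≤ n - L)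
    {𝒜 : Finset (Finset (Fin n))} (hA : ∀ A ∈ 𝒜, A.card = s)
    (h2 : 2 * (n.choose s - 𝒜.card) < (n - L).choose s) :
    ∃ A ∈ 𝒜, pre L A = 0 ∧ ∀ q, 1 ≤ q → q ≤ n → 3 * pre q A < q := by
  by_contra hcon
  push Not at hcon
  set 𝒮 := (powersetCard s (univ : Finset (Fin n))).filter (fun X => pre L X = 0) with hS
  have hSc : 𝒮.card = (n - L).choose s := card_pre_zero hLn
  have hA' : 𝒜 ⊆ powersetCard s univ := fun A h => by
    rw [mem_powersetCard]; exact ⟨subset_univ _, hA A h⟩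
  have h3 : (𝒮 \ 𝒜).card ≤ n.choose s - 𝒜.card := by
    have : 𝒮 \ 𝒜 ⊆ powersetCard s univ \ 𝒜 := sdiff_subset_sdiff (filter_subset _ _) subset_rfl
    refine (card_le_card this).trans ?_
    rw [card_sdiff_of_subset hA', card_powersetCard, card_univ, Fintype.card_fin]
  have h4 : 𝒮 ∩ 𝒜 ⊆ (Ico (L + 1) (n + 1)).biUnion (fun q =>
      (powersetCard s (univ : Finset (Fin n))).filter
        (fun X => pre L X = 0 ∧ (q + 2) / 3 ≤ pre q X)) := by
    intro X hX
    rw [mem_inter, hS, mem_filter] at hX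
    obtain ⟨q, hq1, hq2, hq3⟩ := hcon X hX.2 hX.1.2
    rw [mem_biUnion]
    refine ⟨q, ?_, ?_⟩
    · rw [mem_Ico]
      refine ⟨?_, by omega⟩
      by_contra hlt
      have := pre_mono (show q ≤ L by omega) X
      have := hX.1.2
      omega
    · rw [mem_filter]
      exact ⟨hX.1.1, hX.1.2, by omega⟩
  have h5 : ((𝒮 ∩ 𝒜).card : ℝ) ≤ ∑ q ∈ Ico (L + 1) (n + 1),
      ((2 : ℝ) ^ (q - L) * (1 / 5) ^ q) * (n - L).choose s := by
    refine le_trans ?_ (sum_le_sum (fun q hq => rich_le (k := s) hL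
      (by rw [mem_Ico] at hq; omega)))
    have := (card_le_card h4).trans card_biUnion_le
    exact_mod_cast this
  rw [← sum_mul] at h5
  have h6 := sum_pow5 (c := L) (Q := L + 1) (by omega) (n + 1)
  have h7 : (1 / 2 : ℝ) ^ L * ((5 / 3) * (2 / 5) ^ (L + 1)) ≤ 1 / 2 := by
    obtain ⟨m, rfl⟩ : ∃ m, L = m + 1 := ⟨L - 1, by omega⟩
    have a1 : (1 / 2 : ℝ) ^ (m + 1) ≤ 1 := pow_le_one₀ (by norm_num) (by norm_num)
    have a2 : (2 / 5 : ℝ) ^ m ≤ 1 := pow_le_one₀ (by norm_num) (by norm_num)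
    have a3 : (2 / 5 : ℝ) ^ (m + 1 + 1) ≤ 4 / 25 := by
      rw [pow_succ, pow_succ]
      linarith
    calc (1 / 2 : ℝ) ^ (m + 1) * ((5 / 3) * (2 / 5) ^ (m + 1 + 1))
        ≤ 1 * ((5 / 3) * (4 / 25)) := by
          apply mul_le_mul a1 _ (by positivity) (by norm_num)
          linarith
      _ ≤ 1 / 2 := by norm_num
  have h8 : ((𝒮 ∩ 𝒜).card : ℝ) ≤ 1 / 2 * (n - L).choose s :=
    h5.trans (mul_le_mul_of_nonneg_right (h6.trans h7) (by positivity))
  have h9 : (𝒮 ∩ 𝒜).card + (𝒮 \ 𝒜).card = 𝒮.card := card_inter_add_card_sdiff _ _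
  have h10 : 2 * (𝒮 ∩ 𝒜).card ≤ (n - L).choose s := by
    have : (2 : ℝ) * (𝒮 ∩ 𝒜).card ≤ (n - L).choose s := by linarith
    exact_mod_cast this
  omega

/-- Package D -/
theorem cross_level {n s l L : ℕ} (hs : 1 ≤ s) (hn : 200 * s ≤ n) (hl : 2 ≤ l) (hL1 : 1 ≤ L)
    (hL : 125 * s ≤ n - L) {𝒜 ℬ : Finset (Finset (Fin n))}
    (hA : ∀ A ∈ 𝒜, A.card = s) (hB : ∀ B ∈ ℬ, B.card = s + l)
    (hc : ∀ A ∈ 𝒜, ∀ B ∈ ℬ, l / 2 ≤ (A ∩ B).card)
    (h2 : 2 * (n.choose s - 𝒜.card) < (n - L).choose s) :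
    (ℬ.card : ℝ) ≤ 15 / 2 * (8 * s / n : ℝ) ^ (max ((L + 1) / 3) (l / 2)) * n.choose s := by
  obtain ⟨𝒜', ℬ', hAc, hBc, hA', hB', hc', hsA, hsB⟩ := exists_shifted_pair 𝒜 ℬ hA hB hc
  rw [← hAc] at h2
  rw [← hBc]
  obtain ⟨A, hAm, hA0, hAq⟩ := exists_good hL1 (by omega) hL hA' h2
  set e := l / 2 with he
  set Q := max L (3 * e) + 1 with hQ
  have hsR : (0 : ℝ) < s := by exact_mod_cast hs
  have hnR : (200 : ℝ) * s ≤ n := by exact_mod_cast hn
  have hn0 : (0 : ℝ) < n := by linarith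
  set p : ℝ := s / n with hp
  have hp0 : 0 ≤ p := by positivity
  have hp1 : p ≤ 1 / 200 := by
    rw [hp, div_le_iff₀ hn0]; linarith
  have hsp : (s : ℝ) ≤ p * n := by
    rw [hp, div_mul_cancel₀ _ hn0.ne']
  have hcov : ℬ' ⊆ (Ico Q (n + 1)).biUnion (fun q =>
      (powersetCard (s + l) (univ : Finset (Fin n))).filter
        (fun X => pre 0 X = 0 ∧ q + e - (q - 1) / 3 ≤ pre q X)) := by
    intro B hBm
    obtain ⟨q, hq1, hq2, hq3⟩ := pair_prefix (e := e) (by omega) hsA
      (fun A hA => hc' A hA B hBm) hAm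
    have h3 := hAq q hq1 hq2
    have h4 := pre_le (q := q) B
    rw [mem_biUnion]
    refine ⟨q, ?_, ?_⟩
    · rw [mem_Ico]
      refine ⟨?_, by omega⟩
      have h5 : L < q := by
        by_contra hlt
        have := pre_mono (show q ≤ L by omega) A
        omega
      omega
    · rw [mem_filter, mem_powersetCard]
      refine ⟨⟨subset_univ _, hB' B hBm⟩, ?_, by omega⟩
      rw [pre_zero_iff]
      intro x _
      omega
  have hterm : ∀ q ∈ Ico Q (n + 1), (((powersetCard (s + l) (univ : Finset (Fin n))).filter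
        (fun X => pre 0 X = 0 ∧ q + e - (q - 1) / 3 ≤ pre q X)).card : ℝ) ≤
        ((2 : ℝ) ^ q * p ^ (q / 3)) * n.choose s := by
    intro q hq
    rw [mem_Ico] at hq
    set t := q + e - (q - 1) / 3 with ht
    by_cases htk : t ≤ s + l
    · have h1 := card_pre_ge' (L := 0) (show q ≤ n by omega) htk
      simp only [Nat.sub_zero] at h1
      have hqe : 3 * e < q := by omega
      have hu : q / 3 + l ≤ t := by omega
      have h3 : (n - t).choose (s + l - t) ≤ (n - (t - l)).choose (s - (t - l)) := by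
        have : s + l - t = s - (t - l) := by omega
        rw [this]
        exact Nat.choose_le_choose _ (by omega)
      have h4 : ((n - (t - l)).choose (s - (t - l)) : ℝ) ≤ p ^ (t - l) * n.choose s :=
        choose_diag hp0 (by linarith) hsp (by omega)
      have h5 : p ^ (t - l) ≤ p ^ (q / 3) :=
        pow_le_pow_of_le_one hp0 (by linarith) (by omega)
      calc _ ≤ ((q.choose t * (n - t).choose (s + l - t) : ℕ) : ℝ) := by exact_mod_cast h1
        _ = (q.choose t : ℝ) * ((n - t).choose (s + l - t) : ℝ) := by push_cast; ring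
        _ ≤ 2 ^ q * (p ^ (q / 3) * n.choose s) := by
          apply mul_le_mul
          · exact_mod_cast Nat.choose_le_two_pow _ _
          · calc ((n - t).choose (s + l - t) : ℝ) ≤ ((n - (t - l)).choose (s - (t - l)) : ℝ) := by
                  exact_mod_cast h3
              _ ≤ p ^ (t - l) * n.choose s := h4
              _ ≤ _ := mul_le_mul_of_nonneg_right h5 (by positivity)
          · positivity
          · positivity
        _ = _ := by ring
    · rw [card_eq_zero.2]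
      · simp only [Nat.cast_zero]
        positivity
      · rw [filter_eq_empty_iff]
        rintro X hX ⟨-, h⟩
        rw [mem_powersetCard] at hX
        have := pre_le_card (q := q) X
        omega
  have hsum : (ℬ'.card : ℝ) ≤ ∑ q ∈ Ico Q (n + 1), ((2 : ℝ) ^ q * p ^ (q / 3)) * n.choose s := by
    refine le_trans ?_ (sum_le_sum hterm)
    exact_mod_cast (card_le_card hcov).trans card_biUnion_le
  rw [← sum_mul] at hsum
  have h6 := sum_pow2 hp0 hp1 Q (n + 1)
  have h7 : Q / 3 = max ((L + 1) / 3) e := by omega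
  rw [h7] at h6
  have h8 : 8 * (s : ℝ) / n = 8 * p := by rw [hp]; ring
  rw [h8]
  exact hsum.trans (mul_le_mul_of_nonneg_right h6 (by positivity))

end Pool.Agent.OddLin
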