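import Pool.Agent.OddLin.GainShift
import Pool.Agent.OddLin.Level

/-! # MP_f155e9_co, odd diameter, linear range: the gain in Katona's theorem -/

set_option autoImplicit false

namespace Pool.Agent.OddLin

open Finset Pool.Agent.OddDiam

theorem choose_diag_ge {n s t : ℕ} (hsn : s ≤ n) (ht : 2 * t ≤ s) :
    (s / (2 * n) : ℝ) ^ t * n.choose s ≤ ((n - t).choose (s - t) : ℝ) := by
  induction t with
  | zero => simp
  | succ t ih =>
    have ih' := ih (by omega)
    have h1 := Nat.add_one_mul_choose_eq (n - (t + 1)) (s - (t + 1))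
    have e1 : n - (t + 1) + 1 = n - t := by omega
    have e2 : s - (t + 1) + 1 = s - t := by omega
    rw [e1, e2] at h1
    have h2 : ((n - t : ℕ) : ℝ) * ((n - (t + 1)).choose (s - (t + 1)) : ℝ) =
        (n - t).choose (s - t) * ((s - t : ℕ) : ℝ) := by exact_mod_cast h1
    have hm : (0 : ℝ) < ((n - t : ℕ) : ℝ) := by exact_mod_cast (by omega : 0 < n - t)
    have hn0 : (0 : ℝ) < n := by exact_mod_cast (by omega : 0 < n)
    have h3 : (s / (2 * n) : ℝ) * ((n - t : ℕ) : ℝ) ≤ ((s - t : ℕ) : ℝ) := by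
      have a1 : ((n - t : ℕ) : ℝ) ≤ n := by exact_mod_cast (by omega : n - t ≤ n)
      have a2 : (s : ℝ) ≤ 2 * ((s - t : ℕ) : ℝ) := by exact_mod_cast (by omega : s ≤ 2 * (s - t))
      calc (s / (2 * n) : ℝ) * ((n - t : ℕ) : ℝ) ≤ (s / (2 * n) : ℝ) * n :=
            mul_le_mul_of_nonneg_left a1 (by positivity)
        _ = s / 2 := by field_simp
        _ ≤ _ := by linarith
    have h4 : ((n - t : ℕ) : ℝ) * ((s / (2 * n) : ℝ) ^ (t + 1) * n.choose s) ≤
        ((n - t : ℕ) : ℝ) * ((n - (t + 1)).choose (s - (t + 1)) : ℝ) := by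
      rw [h2]
      calc ((n - t : ℕ) : ℝ) * ((s / (2 * n) : ℝ) ^ (t + 1) * n.choose s)
          = ((s / (2 * n) : ℝ) ^ t * n.choose s) * ((s / (2 * n) : ℝ) * ((n - t : ℕ) : ℝ)) := by
            ring
        _ ≤ ((n - t).choose (s - t) : ℝ) * ((s - t : ℕ) : ℝ) :=
            mul_le_mul ih' h3 (by positivity) (by positivity)
    exact le_of_mul_le_mul_left h4 hm

/-- a member of a large `(s + 1)`-uniform family is poor at all `q ≥ q0` -/
theorem exists_poor {n s q0 : ℕ} (hn : 200 * s ≤ n) (hs : 1 ≤ s) (hq : 1 ≤ q0)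
    {ℬ : Finset (Finset (Fin n))} (hB : ∀ A ∈ ℬ, A.card = s + 1)
    (h3 : 15 * (8 * s / n : ℝ) ^ ((q0 - 1) / 3) * n.choose s < ℬ.card) :
    ∃ A ∈ ℬ, ∀ q, q0 ≤ q → q ≤ n → 3 * pre q A < q := by
  by_contra hcon
  push Not at hcon
  have hsR : (0 : ℝ) < s := by exact_mod_cast hs
  have hnR : (200 : ℝ) * s ≤ n := by exact_mod_cast hn
  have hn0 : (0 : ℝ) < n := by linarith
  set p : ℝ := s / n with hp
  have hp0 : 0 ≤ p := by positivity
  have hp1 : p ≤ 1 / 200 := by
    rw [hp, div_le_iff₀ hn0]; linarith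
  have hsp : (s : ℝ) ≤ p * n := by
    rw [hp, div_mul_cancel₀ _ hn0.ne']
  have hcov : ℬ ⊆ (Ico (q0 - 1) n).biUnion (fun q =>
      (powersetCard (s + 1) (univ : Finset (Fin n))).filter
        (fun X => pre 0 X = 0 ∧ q / 3 + 1 ≤ pre (q + 1) X)) := by
    intro X hX
    obtain ⟨q, hq1, hq2, hq3⟩ := hcon X hX
    rw [mem_biUnion]
    refine ⟨q - 1, ?_, ?_⟩
    · rw [mem_Ico]
      omega
    · rw [mem_filter, mem_powersetCard]
      refine ⟨⟨subset_univ _, hB X hX⟩, ?_, ?_⟩
      · rw [pre_zero_iff]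
        intro x _
        omega
      · rw [Nat.sub_add_cancel (by omega)]
        omega
  have hterm : ∀ q ∈ Ico (q0 - 1) n, (((powersetCard (s + 1) (univ : Finset (Fin n))).filter
        (fun X => pre 0 X = 0 ∧ q / 3 + 1 ≤ pre (q + 1) X)).card : ℝ) ≤
        ((2 : ℝ) ^ q * p ^ (q / 3)) * (2 * n.choose s) := by
    intro q hq
    rw [mem_Ico] at hq
    by_cases htk : q / 3 + 1 ≤ s + 1
    · have h1 := card_pre_ge' (L := 0) (show q + 1 ≤ n by omega) htk
      simp only [Nat.sub_zero] at h1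
      have h3 : (n - (q / 3 + 1)).choose (s + 1 - (q / 3 + 1)) ≤
          (n - (q / 3)).choose (s - (q / 3)) := by
        have : s + 1 - (q / 3 + 1) = s - q / 3 := by omega
        rw [this]
        exact Nat.choose_le_choose _ (by omega)
      have h4 : ((n - (q / 3)).choose (s - (q / 3)) : ℝ) ≤ p ^ (q / 3) * n.choose s :=
        choose_diag hp0 (by linarith) hsp (by omega)
      calc _ ≤ (((q + 1).choose (q / 3 + 1) * (n - (q / 3 + 1)).choose (s + 1 - (q / 3 + 1)) : ℕ) :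
            ℝ) := by exact_mod_cast h1
        _ = ((q + 1).choose (q / 3 + 1) : ℝ) *
            ((n - (q / 3 + 1)).choose (s + 1 - (q / 3 + 1)) : ℝ) := by push_cast; ring
        _ ≤ 2 ^ (q + 1) * (p ^ (q / 3) * n.choose s) := by
          apply mul_le_mul
          · exact_mod_cast Nat.choose_le_two_pow _ _
          · exact le_trans (by exact_mod_cast h3) h4
          · positivity
          · positivity
        _ = _ := by ring
    · rw [card_eq_zero.2]
      · simp only [Nat.cast_zero]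
        positivity
      · rw [filter_eq_empty_iff]
        rintro X hX ⟨-, h⟩
        rw [mem_powersetCard] at hX
        have := pre_le_card (q := q + 1) X
        omega
  have hsum : (ℬ.card : ℝ) ≤ ∑ q ∈ Ico (q0 - 1) n,
      ((2 : ℝ) ^ q * p ^ (q / 3)) * (2 * n.choose s) := by
    refine le_trans ?_ (sum_le_sum hterm)
    exact_mod_cast (card_le_card hcov).trans card_biUnion_le
  rw [← sum_mul] at hsum
  have h6 := sum_pow2 hp0 hp1 (q0 - 1) n
  have h8 : 8 * (s : ℝ) / n = 8 * p := by rw [hp]; ring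
  rw [h8] at h3
  have h9 := mul_le_mul_of_nonneg_right h6 (by positivity : (0 : ℝ) ≤ 2 * n.choose s)
  have h10 : 15 / 2 * (8 * p) ^ ((q0 - 1) / 3) * (2 * (n.choose s : ℝ)) =
      15 * (8 * p) ^ ((q0 - 1) / 3) * n.choose s := by ring
  linarith

/-- Package G -/
theorem katona_gain {n s q0 : ℕ} (hn : 200 * s ≤ n) (hq : 1 ≤ q0) (h2 : 2 * q0 ≤ s)
    {𝒜 : Finset (Finset (Fin n))} (hA : ∀ A ∈ 𝒜, A.card = s + 1)
    (hint : ∀ A ∈ 𝒜, ∀ B ∈ 𝒜, (A ∩ B).Nonempty)
    (h3 : 15 * (8 * s / n : ℝ) ^ ((q0 - 1) / 3) * n.choose s < 𝒜.card)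
    (h4 : 4 * (4 / 125 : ℝ) ^ q0 * n.choose s ≤ 𝒜.card) :
    (𝒜.card : ℝ) + 𝒜.card / 8 * (s / (2 * n) : ℝ) ^ q0 ≤ (sh s 𝒜).card := by
  obtain ⟨ℬ, hBc, hB, hBi, hBs, hBsh⟩ := exists_shifted_one 𝒜 hA hint
  rw [← hBc] at h3 h4 ⊢
  have hs : 1 ≤ s := by omega
  obtain ⟨A, hAm, hAq⟩ := exists_poor hn hs hq hB h3
  have hg := gain_shifted (n := n) (s := s) (J := q0 - 1) (by omega) (by omega) hB hBi hBs
  have e1 : n - 1 - (q0 - 1) = n - q0 := by omega
  have e2 : s - 1 - (q0 - 1) = s - q0 := by omega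
  have e3 : q0 - 1 + 1 = q0 := by omega
  rw [e1, e2, e3] at hg
  set E := sh (s - q0) (ℬ.filter (fun A => pre q0 A = 0)) with hE
  have hcov : E ⊆ (Ico (3 * q0 + 4) (n + 1)).biUnion (fun q =>
      (powersetCard (s - q0) (univ : Finset (Fin n))).filter
        (fun X => pre q0 X = 0 ∧ (q + 2) / 3 ≤ pre q X)) := by
    intro X hX
    rw [hE, sh, mem_filter, mem_powersetCard] at hX
    obtain ⟨⟨-, hXc⟩, A', hA', hXA⟩ := hX
    rw [mem_filter] at hA'
    obtain ⟨q, hq1, hq2, hq3⟩ := pair_prefix (e := 1) le_rfl hBs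
      (fun C hC => (hBi C hC A' hA'.1).card_pos) hAm
    have hpA := pre_le (q := q) A
    have hlt : q0 < q := by
      by_contra hle
      have := pre_mono (show q ≤ q0 by omega) A'
      have := hA'.2
      omega
    have h5 := hAq q (by omega) hq2
    -- pre q A' ≤ q - q0
    have h6 : pre q A' ≤ q - q0 := by
      have a1 : (A'.filter (fun i => i.val < q)) ⊆
          ((univ : Finset (Fin n)).filter (fun i => i.val < q)) \
            ((univ : Finset (Fin n)).filter (fun i => i.val < q0)) := by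
        intro x hx
        rw [mem_filter] at hx
        have := pre_zero_iff.1 hA'.2 x hx.1
        rw [mem_sdiff, mem_filter, mem_filter]
        exact ⟨⟨mem_univ _, hx.2⟩, fun h => by omega⟩
      have a2 := card_le_card a1
      rw [card_sdiff_of_subset, Fin.card_filter_val_lt, Fin.card_filter_val_lt,
        min_eq_right hq2, min_eq_right (by omega)] at a2
      · exact a2
      · intro x hx
        rw [mem_filter] at hx ⊢
        exact ⟨mem_univ _, by omega⟩
    -- pre q X ≥ pre q A' - (q0 + 1)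
    have h7 : pre q A' ≤ pre q X + (q0 + 1) := by
      have a1 : A'.filter (fun i => i.val < q) ⊆ X.filter (fun i => i.val < q) ∪ (A' \ X) := by
        intro x hx
        rw [mem_filter] at hx
        rw [mem_union, mem_filter, mem_sdiff]
        by_cases hxX : x ∈ X
        · exact Or.inl ⟨hxX, hx.2⟩
        · exact Or.inr ⟨hx.1, hxX⟩
      have a2 := (card_le_card a1).trans (card_union_le _ _)
      rw [card_sdiff_of_subset hXA, hB A' hA'.1, hXc] at a2
      have a3 : s + 1 - (s - q0) = q0 + 1 := by omega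
      rw [a3] at a2
      exact a2
    rw [mem_biUnion]
    refine ⟨q, ?_, ?_⟩
    · rw [mem_Ico]
      omega
    · rw [mem_filter, mem_powersetCard]
      refine ⟨⟨subset_univ _, hXc⟩, ?_, ?_⟩
      · have := pre_sub_mono (q := q0) hXA
        have := hA'.2
        omega
      · omega
  have hsum : (E.card : ℝ) ≤ ∑ q ∈ Ico (3 * q0 + 4) (n + 1),
      ((2 : ℝ) ^ (q - q0) * (1 / 5) ^ q) * (n - q0).choose (s - q0) := by
    refine le_trans ?_ (sum_le_sum (fun q hq => rich_le (k := s - q0) (L := q0) (by omega)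
      (by rw [mem_Ico] at hq; omega)))
    have := (card_le_card hcov).trans card_biUnion_le
    exact_mod_cast this
  rw [← sum_mul] at hsum
  have h6 := sum_pow5 (c := q0) (Q := 3 * q0 + 4) (by omega) (n + 1)
  have h7 : (1 / 2 : ℝ) ^ q0 * ((5 / 3) * (2 / 5) ^ (3 * q0 + 4)) ≤ (4 / 125) ^ q0 := by
    have a1 : (2 / 5 : ℝ) ^ (3 * q0 + 4) = (8 / 125) ^ q0 * (16 / 625) := by
      rw [pow_add, pow_mul]
      norm_num
    have a2 : (4 / 125 : ℝ) ^ q0 = (1 / 2) ^ q0 * (8 / 125) ^ q0 := by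
      rw [← mul_pow]; norm_num
    rw [a1, a2]
    have a3 : (0 : ℝ) ≤ (1 / 2) ^ q0 * (8 / 125) ^ q0 := by positivity
    nlinarith
  set W : ℝ := ((n - q0).choose (s - q0) : ℝ) with hW
  have hW0 : 0 ≤ W := by positivity
  have hN : (0 : ℝ) < n.choose s := by exact_mod_cast Nat.choose_pos (by omega)
  have h8 : (E.card : ℝ) ≤ (4 / 125) ^ q0 * W :=
    hsum.trans (mul_le_mul_of_nonneg_right (h6.trans h7) hW0)
  have h9 : (4 / 125 : ℝ) ^ q0 ≤ ℬ.card / (4 * n.choose s) := by
    rw [le_div_iff₀ (by positivity)]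
    linarith
  have h10 : (E.card : ℝ) ≤ ℬ.card / (4 * n.choose s) * W :=
    h8.trans (mul_le_mul_of_nonneg_right h9 hW0)
  have h11 := choose_diag_ge (n := n) (s := s) (t := q0) (by omega) h2
  rw [← hW] at h11
  have h12 : (ℬ.card : ℝ) / 8 * (s / (2 * n) : ℝ) ^ q0 ≤ W * (ℬ.card / (8 * n.choose s)) := by
    calc (ℬ.card : ℝ) / 8 * (s / (2 * n) : ℝ) ^ q0
        = ((s / (2 * n) : ℝ) ^ q0 * n.choose s) * (ℬ.card / (8 * n.choose s)) := by
          field_simp
      _ ≤ _ := mul_le_mul_of_nonneg_right h11 (by positivity)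
  have h13 : W * ((ℬ.card : ℝ) / (2 * n.choose s)) = 4 * (W * (ℬ.card / (8 * n.choose s))) := by
    field_simp
    ring
  have h14 : (ℬ.card : ℝ) / (4 * n.choose s) * W = 2 * (W * (ℬ.card / (8 * n.choose s))) := by
    field_simp
    ring
  rw [h13] at hg
  rw [h14] at h10
  have h15 : ((sh s ℬ).card : ℝ) ≤ (sh s 𝒜).card := by exact_mod_cast hBsh
  linarith

end Pool.Agent.OddLin
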