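import Pool.Agent.OddLin.Defs

/-! # MP_f155e9_co, odd diameter, linear range: Katona's theorem for `t`-intersecting families -/

set_option autoImplicit false

namespace Pool.Agent.OddLin

open Finset Pool.Agent.OddDiam

variable {α : Type*} [Fintype α] [DecidableEq α]

/-- Sum of `g` over the members of `𝒜` containing `U`. -/
private def ksum (𝒜 : Finset (Finset α)) (g : Finset α → ℚ) (U : Finset α) : ℚ :=
  ∑ A ∈ 𝒜 with U ⊆ A, g A

omit [Fintype α] in
private theorem card_between {U A : Finset α} (h : U ⊆ A) {r : ℕ} (hr : U.card ≤ r) :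
    ((A.powersetCard r).filter (U ⊆ ·)).card = (A.card - U.card).choose (r - U.card) := by
  rw [← card_sdiff_of_subset h, ← card_powersetCard]
  refine card_bij' (fun T _ => T \ U) (fun T _ => T ∪ U) ?_ ?_ ?_ ?_
  · intro T hT
    obtain ⟨hT1, hT2⟩ := mem_filter.1 hT
    obtain ⟨hTA, hTc⟩ := mem_powersetCard.1 hT1
    exact mem_powersetCard.2 ⟨sdiff_subset_sdiff hTA subset_rfl, by
      rw [card_sdiff_of_subset hT2, hTc]⟩
  · intro T hT
    obtain ⟨hTA, hTc⟩ := mem_powersetCard.1 hT
    refine mem_filter.2 ⟨mem_powersetCard.2 ⟨union_subset (hTA.trans sdiff_subset) h, ?_⟩,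
      subset_union_right⟩
    rw [card_union_of_disjoint, hTc]
    · omega
    · exact disjoint_left.2 fun x hx hxU => (mem_sdiff.1 (hTA hx)).2 hxU
  · intro T hT
    obtain ⟨hT1, hT2⟩ := mem_filter.1 hT
    exact sdiff_union_of_subset hT2
  · intro T hT
    obtain ⟨hTA, hTc⟩ := mem_powersetCard.1 hT
    rw [union_sdiff_right]
    refine sdiff_eq_self_of_disjoint ?_
    exact disjoint_left.2 fun x hx hxU => (mem_sdiff.1 (hTA hx)).2 hxU

omit [Fintype α] in
private theorem ksum_down {k r : ℕ} (hrk : r ≤ k) {𝒜 : Finset (Finset α)}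
    (hA : ∀ A ∈ 𝒜, A.card = k)
    {g : Finset α → ℚ} (h0 : ∀ T : Finset α, T.card = r → ksum 𝒜 g T = 0) (S : Finset α)
    (hS : ∀ A ∈ 𝒜, A ⊆ S) (U : Finset α) (hU : U.card ≤ r) : ksum 𝒜 g U = 0 := by
  have h1 : ∑ T ∈ S.powersetCard r with U ⊆ T, ksum 𝒜 g T = 0 :=
    sum_eq_zero fun T hT => h0 T (mem_powersetCard.1 (mem_filter.1 hT).1).2
  have h2 : ∑ T ∈ S.powersetCard r with U ⊆ T, ksum 𝒜 g T
      = (((k - U.card).choose (r - U.card) : ℕ) : ℚ) * ksum 𝒜 g U := by
    unfold ksum
    rw [mul_sum]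
    rw [sum_comm' (t' := 𝒜.filter (U ⊆ ·))
      (s' := fun A => (A.powersetCard r).filter (U ⊆ ·))]
    · refine sum_congr rfl fun A hAm => ?_
      obtain ⟨hAm, hUA⟩ := mem_filter.1 hAm
      rw [sum_const, nsmul_eq_mul, card_between hUA hU, hA A hAm]
    · intro T A
      simp only [mem_filter, mem_powersetCard]
      constructor
      · rintro ⟨⟨⟨hTS, hTc⟩, hUT⟩, hAm, hTA⟩
        exact ⟨⟨⟨hTA, hTc⟩, hUT⟩, hAm, hUT.trans hTA⟩
      · rintro ⟨⟨⟨hTA, hTc⟩, hUT⟩, hAm, _⟩
        exact ⟨⟨⟨hTA.trans (hS A hAm), hTc⟩, hUT⟩, hAm, hTA⟩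
  rw [h2] at h1
  rcases mul_eq_zero.1 h1 with h | h
  · have h3 : 0 < (k - U.card).choose (r - U.card) := Nat.choose_pos (by omega)
    have h4 : (k - U.card).choose (r - U.card) = 0 := by exact_mod_cast h
    omega
  · exact h

/-- Katona's shadow theorem for `t`-intersecting families, one level -/
theorem kat {k t : ℕ} (_ht : 1 ≤ t) (htk : t ≤ k)
    {ℬ : Finset (Finset α)} (hB : ∀ A ∈ ℬ, A.card = k)
    (hint : ∀ A ∈ ℬ, ∀ B ∈ ℬ, t ≤ (A ∩ B).card) : ℬ.card ≤ (sh (k - t) ℬ).card := by
  classical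
  have li : LinearIndependent ℚ
      (fun A : ℬ => (fun T : (sh (k - t) ℬ : Finset (Finset α)) =>
        if (T : Finset α) ⊆ A then (1 : ℚ) else 0)) := by
    rw [Fintype.linearIndependent_iff]
    intro g hg
    set G : Finset α → ℚ := fun A => if h : A ∈ ℬ then g ⟨A, h⟩ else 0 with hG
    have hGA : ∀ A : ℬ, G A = g A := fun A => by simp [hG]
    have h0 : ∀ T : Finset α, T.card = k - t → ksum ℬ G T = 0 := by
      intro T hT
      by_cases hTs : T ∈ sh (k - t) ℬ
      · have := congrFun hg ⟨T, hTs⟩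
        simp only [Finset.sum_apply, Pi.smul_apply, smul_eq_mul, Pi.zero_apply, mul_ite, mul_one,
          mul_zero] at this
        unfold ksum
        rw [sum_filter]
        rw [← Finset.sum_coe_sort ℬ (fun A => if T ⊆ A then G A else 0)]
        refine Eq.trans (sum_congr rfl fun A _ => ?_) this
        rw [hGA]
      · unfold ksum
        apply sum_eq_zero
        intro A hAm
        obtain ⟨hAm, hTA⟩ := mem_filter.1 hAm
        exfalso
        apply hTs
        exact mem_filter.2 ⟨mem_powersetCard.2 ⟨subset_univ _, hT⟩, A, hAm, hTA⟩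
    have hz : ∀ U : Finset α, U.card ≤ k - t → ksum ℬ G U = 0 :=
      fun U hU => ksum_down (Nat.sub_le k t) hB h0 univ (fun A _ => subset_univ A) U hU
    intro B
    rw [← hGA]
    have key : G B = ∑ A ∈ ℬ, G A * ∑ T ∈ ((A : Finset α) \ B).powerset, (-1 : ℚ) ^ T.card := by
      rw [sum_eq_single (B : Finset α)]
      · simp
      · intro A hAm hne
        have hne' : (A \ (B : Finset α)) ≠ ∅ := by
          intro h
          rw [sdiff_eq_empty_iff_subset] at h
          exact hne (eq_of_subset_of_card_le h (by rw [hB A hAm, hB B B.2]))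
        have := Finset.sum_powerset_neg_one_pow_card (x := A \ (B : Finset α))
        rw [if_neg hne'] at this
        have h2 : (∑ T ∈ (A \ (B : Finset α)).powerset, (-1 : ℚ) ^ T.card) = 0 := by
          exact_mod_cast this
        rw [h2, mul_zero]
      · intro h
        exact absurd B.2 h
    rw [key]
    have swap : ∑ A ∈ ℬ, G A * ∑ T ∈ ((A : Finset α) \ B).powerset, (-1 : ℚ) ^ T.card
        = ∑ T ∈ (univ \ (B : Finset α)).powerset with T.card ≤ k - t,
          (-1 : ℚ) ^ T.card * ksum ℬ G T := by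
      unfold ksum
      simp_rw [mul_sum, mul_comm (G _)]
      refine sum_comm' fun A T => ?_
      simp only [mem_filter, mem_powerset]
      constructor
      · rintro ⟨hAm, hT⟩
        have hTA : T ⊆ A := hT.trans sdiff_subset
        refine ⟨⟨hAm, hTA⟩, hT.trans (sdiff_subset_sdiff (subset_univ _) subset_rfl), ?_⟩
        have h1 := card_le_card hT
        have h2 := card_sdiff_add_card_inter A (B : Finset α)
        have h3 := hint A hAm B B.2
        have h4 := hB A hAm
        omega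
      · rintro ⟨⟨hAm, hTA⟩, hTB, _⟩
        refine ⟨hAm, fun x hx => mem_sdiff.2 ⟨hTA hx, (mem_sdiff.1 (hTB hx)).2⟩⟩
    rw [swap]
    apply sum_eq_zero
    intro T hT
    rw [hz T (mem_filter.1 hT).2, mul_zero]
  have := li.fintype_card_le_finrank
  simpa using this

end Pool.Agent.OddLin
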