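import Pool.Agent.OddLin.Defs
import Pool.Agent.OddDiam.Lym

/-! # MP_f155e9_co, odd diameter, linear range: the LYM inequality -/

set_option autoImplicit false

namespace Pool.Agent.OddLin

open Finset Pool.Agent.OddDiam

private theorem lo_choose {n r t : ℕ} (hrt : r ≤ t) (ht : 2 * t ≤ n) :
    n.choose r ≤ n.choose t := by
  induction t, hrt using Nat.le_induction with
  | base => exact le_rfl
  | succ t hrt ih =>
    exact (ih (by omega)).trans (Nat.choose_le_succ_of_lt_half_left (by omega))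

/-- Package J -/
theorem lym_one {n s : ℕ} (hs : 1 ≤ s) (hn : 2 * s ≤ n) {F : Finset (Finset (Fin n))}
    (hanti : IsAntichain (· ⊆ ·) (F : Set (Finset (Fin n)))) :
    s * (F.filter (fun A => A.card = s)).card + s * (sh s (F.filter (fun A => s < A.card))).card +
      (n + 1 - s) * (F.filter (fun A => A.card < s)).card ≤ s * n.choose s := by
  set Fs := F.filter (fun A => A.card = s) with hFs
  set Sg := sh s (F.filter (fun A => s < A.card)) with hSg
  set Fl := F.filter (fun A => A.card < s) with hFl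
  have hsh : ∀ T ∈ Sg, T.card = s ∧ ∃ B ∈ F, s < B.card ∧ T ⊆ B := by
    intro T hT
    rw [hSg, sh, Finset.mem_filter, Finset.mem_powersetCard] at hT
    obtain ⟨⟨-, hc⟩, B, hB, hTB⟩ := hT
    rw [Finset.mem_filter] at hB
    exact ⟨hc, B, hB.1, hB.2, hTB⟩
  have hlow : ∀ A ∈ F, A.card ≤ s → ∀ B ∈ F, s < B.card → ¬ A ⊆ B := by
    intro A hA hAs B hB hBs hle
    by_cases h : A = B
    · rw [h] at hAs
      omega
    · exact hanti hA hB h hle
  have hd1 : Disjoint Fs Sg := by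
    rw [Finset.disjoint_left]
    intro A hA hA'
    rw [hFs, Finset.mem_filter] at hA
    obtain ⟨-, C, hC, hCs, hAC⟩ := hsh A hA'
    exact hlow A hA.1 hA.2.le C hC hCs hAC
  have hd2 : Disjoint (Fs ∪ Sg) Fl := by
    rw [Finset.disjoint_left]
    intro A hA hA'
    rw [hFl, Finset.mem_filter] at hA'
    rw [Finset.mem_union] at hA
    rcases hA with hA | hA
    · rw [hFs, Finset.mem_filter] at hA
      omega
    · have := (hsh A hA).1
      omega
  have hH : IsAntichain (· ⊆ ·) (((Fs ∪ Sg) ∪ Fl : Finset (Finset (Fin n))) : Set (Finset (Fin n))) := by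
    intro A hA B hB hne hle
    rw [Finset.mem_coe, Finset.mem_union, Finset.mem_union, hFs, hFl, Finset.mem_filter,
      Finset.mem_filter] at hA hB
    have hAcase : (A ∈ F ∧ A.card ≤ s) ∨ A ∈ Sg := by
      rcases hA with (hA | hA) | hA
      · exact Or.inl ⟨hA.1, hA.2.le⟩
      · exact Or.inr hA
      · exact Or.inl ⟨hA.1, hA.2.le⟩
    have hBcase : (B ∈ F ∧ B.card ≤ s) ∨ B ∈ Sg := by
      rcases hB with (hB | hB) | hB
      · exact Or.inl ⟨hB.1, hB.2.le⟩
      · exact Or.inr hB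
      · exact Or.inl ⟨hB.1, hB.2.le⟩
    rcases hAcase with hA | hA
    · rcases hBcase with hB | hB
      · exact hanti hA.1 hB.1 hne hle
      · obtain ⟨-, C, hC, hCs, hBC⟩ := hsh B hB
        exact hlow A hA.1 hA.2 C hC hCs (hle.trans hBC)
    · obtain ⟨hAc, C, hC, hCs, hAC⟩ := hsh A hA
      have hBc : B.card ≤ s := by
        rcases hBcase with hB | hB
        · exact hB.2
        · exact (hsh B hB).1.le
      exact hne (Finset.eq_of_subset_of_card_le hle (by rw [hAc]; exact hBc))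
  have hlym := Finset.lubell_yamamoto_meshalkin_inequality_sum_inv_choose (𝕜 := ℚ) hH
  rw [sum_union hd2, sum_union hd1, Fintype.card_fin] at hlym
  have hx : (0 : ℚ) < n.choose s := Nat.cast_pos.2 (Nat.choose_pos (by omega))
  have hy : (0 : ℚ) < n.choose (s - 1) := Nat.cast_pos.2 (Nat.choose_pos (by omega))
  have hxy : (s : ℚ) * n.choose s = (n + 1 - s) * n.choose (s - 1) := by
    have h := Nat.choose_succ_right_eq n (s - 1)
    rw [Nat.sub_add_cancel hs] at h
    have h2 : ((n - (s - 1) : ℕ) : ℚ) = n + 1 - s := by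
      have : n - (s - 1) + s = n + 1 := by omega
      have h3 : ((n - (s - 1) : ℕ) : ℚ) + s = n + 1 := by exact_mod_cast this
      linarith
    have h4 : ((n.choose s : ℕ) : ℚ) * s = n.choose (s - 1) * ((n - (s - 1) : ℕ) : ℚ) := by
      exact_mod_cast h
    rw [h2] at h4
    linarith
  have e1 : ∑ A ∈ Fs, ((n.choose A.card : ℕ) : ℚ)⁻¹ = Fs.card * ((n.choose s : ℕ) : ℚ)⁻¹ := by
    rw [← nsmul_eq_mul]
    refine sum_eq_card_nsmul ?_
    intro A hA
    rw [(mem_filter.1 hA).2]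
  have e2 : ∑ A ∈ Sg, ((n.choose A.card : ℕ) : ℚ)⁻¹ = Sg.card * ((n.choose s : ℕ) : ℚ)⁻¹ := by
    rw [← nsmul_eq_mul]
    refine sum_eq_card_nsmul ?_
    intro A hA
    rw [(hsh A hA).1]
  have e3 : Fl.card * ((n.choose (s - 1) : ℕ) : ℚ)⁻¹ ≤ ∑ A ∈ Fl, ((n.choose A.card : ℕ) : ℚ)⁻¹ := by
    rw [← nsmul_eq_mul]
    refine card_nsmul_le_sum _ _ _ ?_
    intro A hA
    have hc := (mem_filter.1 hA).2
    apply inv_anti₀
    · exact_mod_cast Nat.choose_pos (by omega)
    · exact_mod_cast lo_choose (by omega) (by omega)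
  rw [e1, e2] at hlym
  have h5 : (Fs.card : ℚ) * ((n.choose s : ℕ) : ℚ)⁻¹ + Sg.card * ((n.choose s : ℕ) : ℚ)⁻¹ +
      Fl.card * ((n.choose (s - 1) : ℕ) : ℚ)⁻¹ ≤ 1 := le_trans (by linarith) hlym
  have h6 : (s : ℚ) * Fs.card + s * Sg.card + (n + 1 - s) * Fl.card ≤ s * n.choose s := by
    have h7 := mul_le_mul_of_nonneg_left h5 (by positivity : (0 : ℚ) ≤ s * n.choose s)
    have h8 : (s : ℚ) * n.choose s * (Fs.card * ((n.choose s : ℕ) : ℚ)⁻¹ +
        Sg.card * ((n.choose s : ℕ) : ℚ)⁻¹ + Fl.card * ((n.choose (s - 1) : ℕ) : ℚ)⁻¹) =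
        (s : ℚ) * Fs.card + s * Sg.card + (n + 1 - s) * Fl.card := by
      rw [mul_add, mul_add, hxy]
      have a1 : (n + 1 - s : ℚ) * n.choose (s - 1) * (Fl.card * ((n.choose (s - 1) : ℕ) : ℚ)⁻¹) =
          (n + 1 - s) * Fl.card := by
        field_simp
      rw [a1, ← hxy]
      have a2 : (s : ℚ) * n.choose s * (Fs.card * ((n.choose s : ℕ) : ℚ)⁻¹) = s * Fs.card := by
        field_simp
      have a3 : (s : ℚ) * n.choose s * (Sg.card * ((n.choose s : ℕ) : ℚ)⁻¹) = s * Sg.card := by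
        field_simp
      rw [a2, a3]
    rw [h8, mul_one] at h7
    exact h7
  have h9 : ((n + 1 - s : ℕ) : ℚ) = n + 1 - s := by
    rw [Nat.cast_sub (by omega)]
    push_cast
    ring
  have h10 : ((s * Fs.card + s * Sg.card + (n + 1 - s) * Fl.card : ℕ) : ℚ) ≤
      ((s * n.choose s : ℕ) : ℚ) := by
    push_cast [h9]
    exact h6
  exact_mod_cast h10

end Pool.Agent.OddLin
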