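import Mathlib

/-! # MP_f155e9_co, odd diameter, linear range: numerical inequalities -/

set_option autoImplicit false

namespace Pool.Agent.OddLin

open Finset

theorem pow20 : (9 / 10 : ℝ) ≤ (197 / 198 : ℝ) ^ 20 := by norm_num

/-- `(197/198)^(L+1) ≥ (9/10)^(b+1)`, `b = L / 20` -/
theorem pow_ge (L : ℕ) : (9 / 10 : ℝ) ^ (L / 20 + 1) ≤ (197 / 198 : ℝ) ^ (L + 1) := by
  have h1 : (9 / 10 : ℝ) ^ (L / 20 + 1) ≤ ((197 / 198 : ℝ) ^ 20) ^ (L / 20 + 1) :=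
    pow_le_pow_left₀ (by norm_num) pow20 _
  refine h1.trans ?_
  rw [← pow_mul]
  exact pow_le_pow_of_le_one (by norm_num) (by norm_num) (by omega)

theorem num5 {L : ℕ} (hL : 200 ≤ L) {x : ℝ} (hx0 : 0 ≤ x) (hx : x ≤ 1 / 25) :
    15 * (2 * x) ^ ((L + 1) / 3) ≤ (1 / 200) * (197 / 198 : ℝ) ^ (L + 1) := by
  have hb : 10 ≤ L / 20 := by omega
  have hK : 6 * (L / 20) ≤ (L + 1) / 3 := by omega
  have h1 : (2 * x) ^ ((L + 1) / 3) ≤ (2 / 25 : ℝ) ^ (6 * (L / 20)) := by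
    calc (2 * x) ^ ((L + 1) / 3) ≤ (2 / 25 : ℝ) ^ ((L + 1) / 3) :=
          pow_le_pow_left₀ (by positivity) (by linarith) _
      _ ≤ (2 / 25 : ℝ) ^ (6 * (L / 20)) := pow_le_pow_of_le_one (by norm_num) (by norm_num) hK
  have h2 := pow_ge L
  have h3 : ∀ b : ℕ, 10 ≤ b → 15 * (2 / 25 : ℝ) ^ (6 * b) ≤ (1 / 200) * (9 / 10 : ℝ) ^ (b + 1) := by
    intro b hb
    induction b, hb using Nat.le_induction with
    | base => norm_num
    | succ b _ ih =>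
      have e1 : (2 / 25 : ℝ) ^ (6 * (b + 1)) = (2 / 25 : ℝ) ^ (6 * b) * (2 / 25 : ℝ) ^ 6 := by
        rw [mul_add, pow_add]
      have e2 : (9 / 10 : ℝ) ^ (b + 1 + 1) = (9 / 10 : ℝ) ^ (b + 1) * (9 / 10) := by
        rw [pow_succ]
      rw [e1, e2]
      have h0 : (0 : ℝ) ≤ (2 / 25 : ℝ) ^ (6 * b) := by positivity
      have h4 : (2 / 25 : ℝ) ^ 6 ≤ 9 / 10 := by norm_num
      nlinarith [mul_le_mul_of_nonneg_left h4 h0]
  have h4 := h3 _ hb
  linarith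

theorem num6 {L : ℕ} (hL : 200 ≤ L) {x : ℝ} (hx0 : 0 ≤ x) (hx : x ≤ 1 / 25) :
    15 * x ^ ((L / 20 + 1 - 1) / 3) < (1 / 4) * (197 / 198 : ℝ) ^ (L + 1) := by
  have hb : 10 ≤ L / 20 := by omega
  have h2 := pow_ge L
  rw [Nat.add_sub_cancel]
  set b := L / 20 with hbd
  have h1 : x ^ (b / 3) ≤ (1 / 25 : ℝ) ^ (b / 3) := pow_le_pow_left₀ hx0 hx _
  have h5 : (729 / 1000 : ℝ) ^ (b / 3 + 1) ≤ (9 / 10 : ℝ) ^ (b + 1) := by
    have : (729 / 1000 : ℝ) = (9 / 10) ^ 3 := by norm_num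
    rw [this, ← pow_mul]
    exact pow_le_pow_of_le_one (by norm_num) (by norm_num) (by omega)
  have h3 : ∀ a : ℕ, 3 ≤ a → 15 * (1 / 25 : ℝ) ^ a < (1 / 4) * (729 / 1000 : ℝ) ^ (a + 1) := by
    intro a ha
    induction a, ha using Nat.le_induction with
    | base => norm_num
    | succ a _ ih =>
      have h0 : (0 : ℝ) < (1 / 25 : ℝ) ^ a := by positivity
      rw [pow_succ, pow_succ (729 / 1000 : ℝ) (a + 1)]
      nlinarith
  have h4 := h3 (b / 3) (by omega)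
  linarith

theorem num7 (L : ℕ) (hL : 20 ≤ L) :
    4 * (4 / 125 : ℝ) ^ (L / 20 + 1) ≤ (1 / 4) * (197 / 198 : ℝ) ^ (L + 1) := by
  have hb : 1 ≤ L / 20 := by omega
  have h2 := pow_ge L
  have h3 : ∀ b : ℕ, 1 ≤ b → 4 * (4 / 125 : ℝ) ^ (b + 1) ≤ (1 / 4) * (9 / 10 : ℝ) ^ (b + 1) := by
    intro b hb
    induction b, hb using Nat.le_induction with
    | base => norm_num
    | succ b _ ih =>
      have h0 : (0 : ℝ) < (4 / 125 : ℝ) ^ (b + 1) := by positivity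
      rw [pow_succ, pow_succ (9 / 10 : ℝ) (b + 1)]
      nlinarith
  have h4 := h3 _ hb
  linarith

theorem num8 {L : ℕ} (hL : 200 ≤ L) {y : ℝ} (hy0 : 0 < y) (hy : y ≤ 1 / 400) :
    15 * (32 * y) ^ ((L + 1) / 3) ≤
      (1 / 32) * (197 / 198 : ℝ) ^ (L + 1) * y ^ (L / 20 + 1) := by
  have hb : 10 ≤ L / 20 := by omega
  have hK : 6 * (L / 20) ≤ (L + 1) / 3 := by omega
  have h2 := pow_ge L
  set b := L / 20 with hbd
  have hz : 32 * y ≤ 2 / 25 := by linarith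
  have hz0 : 0 ≤ 32 * y := by positivity
  have h1 : (32 * y) ^ ((L + 1) / 3) ≤ (32 * y) ^ (6 * b) :=
    pow_le_pow_of_le_one hz0 (by linarith) hK
  have h3 : (32 * y) ^ (6 * b) = (32 : ℝ) ^ (b + 1) * (32 * y) ^ (5 * b - 1) * y ^ (b + 1) := by
    have : 6 * b = (b + 1) + (5 * b - 1) := by omega
    rw [this, pow_add, mul_pow 32 y (b + 1)]
    ring
  have h4 : (32 * y) ^ (5 * b - 1) ≤ (2 / 25 : ℝ) ^ (5 * b - 1) := pow_le_pow_left₀ hz0 hz _
  have h5 : ∀ b : ℕ, 10 ≤ b →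
      15 * ((32 : ℝ) ^ (b + 1) * (2 / 25 : ℝ) ^ (5 * b - 1)) ≤ (1 / 32) * (9 / 10 : ℝ) ^ (b + 1) := by
    intro b hb
    induction b, hb using Nat.le_induction with
    | base => norm_num
    | succ b hb ih =>
      have e1 : (2 / 25 : ℝ) ^ (5 * (b + 1) - 1) = (2 / 25 : ℝ) ^ (5 * b - 1) * (2 / 25 : ℝ) ^ 5 := by
        rw [← pow_add]
        congr 1
        omega
      have e2 : (9 / 10 : ℝ) ^ (b + 1 + 1) = (9 / 10 : ℝ) ^ (b + 1) * (9 / 10) := by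
        rw [pow_succ]
      have e3 : (32 : ℝ) ^ (b + 1 + 1) = (32 : ℝ) ^ (b + 1) * 32 := by rw [pow_succ]
      rw [e1, e2, e3]
      have h0 : (0 : ℝ) ≤ (32 : ℝ) ^ (b + 1) * (2 / 25 : ℝ) ^ (5 * b - 1) := by positivity
      have h6 : (2 / 25 : ℝ) ^ 5 * 32 ≤ 9 / 10 := by norm_num
      nlinarith [mul_le_mul_of_nonneg_left h6 h0]
  have h6 := h5 b hb
  have hyp : (0 : ℝ) ≤ y ^ (b + 1) := by positivity
  have h7 : (1 / 32) * (9 / 10 : ℝ) ^ (b + 1) ≤ (1 / 32) * (197 / 198 : ℝ) ^ (L + 1) := by linarith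
  calc 15 * (32 * y) ^ ((L + 1) / 3) ≤ 15 * (32 * y) ^ (6 * b) := by linarith
    _ = 15 * ((32 : ℝ) ^ (b + 1) * (32 * y) ^ (5 * b - 1)) * y ^ (b + 1) := by rw [h3]; ring
    _ ≤ 15 * ((32 : ℝ) ^ (b + 1) * (2 / 25 : ℝ) ^ (5 * b - 1)) * y ^ (b + 1) := by gcongr
    _ ≤ (1 / 32) * (9 / 10 : ℝ) ^ (b + 1) * y ^ (b + 1) := mul_le_mul_of_nonneg_right h6 hyp
    _ ≤ (1 / 32) * (197 / 198 : ℝ) ^ (L + 1) * y ^ (b + 1) := mul_le_mul_of_nonneg_right h7 hyp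

/-- the sum over the levels -/
theorem num4 {K : ℕ} (hK : 1 ≤ K) {x : ℝ} (hx0 : 0 ≤ x) (hx : x ≤ 1 / 25) (m : ℕ) :
    ∑ l ∈ Ico 2 m, 15 / 2 * x ^ (max K (l / 2)) ≤ 15 * (2 * x) ^ K := by
  have key : ∀ m : ℕ, ∑ l ∈ Ico 2 m, x ^ (max K (l / 2)) ≤ (2 * K + 1) * x ^ K := by
    intro m
    have h1 : ∀ m : ℕ, ∑ l ∈ Ico 2 (2 * K + 2), x ^ (max K (l / 2)) = 2 * K * x ^ K := by
      intro _
      have : ∀ l ∈ Ico 2 (2 * K + 2), x ^ (max K (l / 2)) = x ^ K := by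
        intro l hl
        rw [mem_Ico] at hl
        congr 1
        omega
      rw [sum_congr rfl this, sum_const, Nat.card_Ico, nsmul_eq_mul]
      push_cast [show 2 * K + 2 - 2 = 2 * K by omega]
      ring
    have h2 : ∀ j : ℕ, ∑ l ∈ Ico (2 * K + 2) (2 * K + 2 + 2 * j), x ^ (max K (l / 2)) ≤
        x ^ K * (1 - x ^ j * (1 - 3 * x) ^ 0) := by
      intro j
      have hxK : 0 ≤ x ^ K := by positivity
      induction j with
      | zero => simp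
      | succ j ih =>
        have e : 2 * K + 2 + 2 * (j + 1) = 2 * K + 2 + 2 * j + 1 + 1 := by ring
        rw [e, sum_Ico_succ_top (by omega), sum_Ico_succ_top (by omega)]
        have e1 : max K ((2 * K + 2 + 2 * j) / 2) = K + (j + 1) := by omega
        have e2 : max K ((2 * K + 2 + 2 * j + 1) / 2) = K + (j + 1) := by omega
        rw [e1, e2, pow_add, pow_succ]
        have hj : 0 ≤ x ^ j := by positivity
        have : x ^ j * x ≤ x ^ j * (1 / 25) := mul_le_mul_of_nonneg_left hx hj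
        have h3 : 0 ≤ x ^ K * x ^ j := by positivity
        have h4 : x ^ K * (x ^ j * x) ≤ x ^ K * (x ^ j * (1 / 25)) :=
          mul_le_mul_of_nonneg_left this hxK
        simp only [pow_zero, mul_one] at ih ⊢
        nlinarith
    have h3 : ∑ l ∈ Ico 2 m, x ^ (max K (l / 2)) ≤
        ∑ l ∈ Ico 2 (2 * K + 2 + 2 * m), x ^ (max K (l / 2)) := by
      apply sum_le_sum_of_subset_of_nonneg
      · intro l hl
        rw [mem_Ico] at hl ⊢
        omega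
      · intro l _ _
        positivity
    have h4 : ∑ l ∈ Ico 2 (2 * K + 2 + 2 * m), x ^ (max K (l / 2)) =
        ∑ l ∈ Ico 2 (2 * K + 2), x ^ (max K (l / 2)) +
        ∑ l ∈ Ico (2 * K + 2) (2 * K + 2 + 2 * m), x ^ (max K (l / 2)) :=
      (sum_Ico_consecutive _ (by omega) (by omega)).symm
    have h5 := h2 m
    rw [h1 m] at h4
    have hxK : 0 ≤ x ^ K := by positivity
    have hj : 0 ≤ x ^ m := by positivity
    simp only [pow_zero, mul_one] at h5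
    nlinarith [mul_nonneg hxK hj]
  rw [← mul_sum]
  have h1 := key m
  have h2 : (2 * K + 1 : ℝ) ≤ 2 * 2 ^ K := by
    have : ∀ k : ℕ, 1 ≤ k → (2 * k + 1 : ℝ) ≤ 2 * 2 ^ k := by
      intro k hk
      induction k, hk using Nat.le_induction with
      | base => norm_num
      | succ k hk ih =>
        push_cast
        have : (1 : ℝ) ≤ 2 ^ k := one_le_pow₀ (by norm_num)
        rw [pow_succ]
        linarith
    exact this K hK
  have hxK : 0 ≤ x ^ K := by positivity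
  rw [mul_pow]
  nlinarith [mul_le_mul_of_nonneg_right h2 hxK]

end Pool.Agent.OddLin
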