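import Mathlib

/-! # MP_f155e9_co, odd diameter, linear range: binomial estimates -/

set_option autoImplicit false

namespace Pool.Agent.OddLin

open Finset

theorem choose_step {n s i : ℕ} (h : s + i < n) :
    ((n - (i + 1)).choose s : ℝ) * (n - i : ℕ) = (n - i).choose s * ((n - i : ℕ) - s) := by
  have h1 := Nat.choose_mul_succ_eq (n - (i + 1)) s
  have h2 : n - (i + 1) + 1 = n - i := by omega
  rw [h2] at h1
  have h3 : ((n - i - s : ℕ) : ℝ) = ((n - i : ℕ) : ℝ) - s := Nat.cast_sub (by omega)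
  rw [← h3]
  exact_mod_cast h1

/-- `C(n - m, s) ≥ (1 - 1/c)^m C(n, s)` if `c s ≤ n - m` -/
theorem choose_sub_ge {n s m c : ℕ} (hc : 1 ≤ c) (hs : 1 ≤ s) (h : c * s + m ≤ n + 1) :
    (1 - 1 / (c : ℝ)) ^ m * n.choose s ≤ (n - m).choose s := by
  have hc0 : (0 : ℝ) < c := by exact_mod_cast hc
  have hc1 : (1 : ℝ) / c ≤ 1 := by rw [div_le_one hc0]; exact_mod_cast hc
  induction m with
  | zero => simp
  | succ m ih =>
    have h1 := ih (by omega)
    rcases Nat.lt_or_ge (s + m) n with hlt | hge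
    · have h2 := choose_step (s := s) (i := m) hlt
      have hnm : (0 : ℝ) < (n - m : ℕ) := by
        have : 0 < n - m := by omega
        exact_mod_cast this
      have h3 : (c : ℝ) * s ≤ (n - m : ℕ) := by
        have : c * s ≤ n - m := by omega
        exact_mod_cast this
      have h4 : (1 - 1 / (c : ℝ)) * (n - m : ℕ) ≤ (n - m : ℕ) - s := by
        have : (s : ℝ) ≤ (n - m : ℕ) / c := by
          rw [le_div_iff₀ hc0]; linarith
        have e : (1 - 1 / (c : ℝ)) * (n - m : ℕ) = (n - m : ℕ) - (n - m : ℕ) / c := by ring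
        rw [e]; linarith
      have h5 : (1 - 1 / (c : ℝ)) * (n - m).choose s ≤ (n - (m + 1)).choose s := by
        have h6 : (0 : ℝ) ≤ (n - m).choose s := by positivity
        have h7 : (1 - 1 / (c : ℝ)) * (n - m).choose s * (n - m : ℕ) ≤
            (n - (m + 1)).choose s * (n - m : ℕ) := by
          rw [h2]
          calc (1 - 1 / (c : ℝ)) * (n - m).choose s * (n - m : ℕ)
              = (n - m).choose s * ((1 - 1 / (c : ℝ)) * (n - m : ℕ)) := by ring
            _ ≤ _ := mul_le_mul_of_nonneg_left h4 h6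
        exact le_of_mul_le_mul_right h7 hnm
      calc (1 - 1 / (c : ℝ)) ^ (m + 1) * n.choose s
          = (1 - 1 / (c : ℝ)) * ((1 - 1 / (c : ℝ)) ^ m * n.choose s) := by ring
        _ ≤ (1 - 1 / (c : ℝ)) * (n - m).choose s :=
            mul_le_mul_of_nonneg_left h1 (by linarith)
        _ ≤ _ := h5
    · -- then c = 1
      have hc' : c = 1 := by
        by_contra hne
        have h2 : 2 ≤ c := by omega
        have : 2 * s ≤ c * s := Nat.mul_le_mul_right s h2
        omega
      subst hc'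
      simp

theorem num2 {n s : ℕ} (hs : 25 ≤ s) (hn : 200 * s ≤ n) :
    164 * n.choose s < 1000 * (n - 200).choose s := by
  have h := choose_sub_ge (n := n) (s := s) (m := 200) (c := 192) (by norm_num) (by omega)
    (by omega)
  have h1 : (0 : ℝ) < n.choose s := by
    exact_mod_cast Nat.choose_pos (by omega)
  have h2 : (164 / 1000 : ℝ) < (1 - 1 / ((192 : ℕ) : ℝ)) ^ 200 := by norm_num
  have h3 : (164 : ℝ) * n.choose s < 1000 * (n - 200).choose s := by nlinarith
  exact_mod_cast h3

theorem num3 {n s L : ℕ} (hs : 1 ≤ s) (hn : 200 * s ≤ n) (hL : 2 * L ≤ 3 * s) :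
    (197 / 198 : ℝ) ^ (L + 1) * n.choose s ≤ (n - (L + 1)).choose s := by
  have h := choose_sub_ge (n := n) (s := s) (m := L + 1) (c := 198) (by norm_num) hs (by omega)
  have h2 : (1 - 1 / ((198 : ℕ) : ℝ)) = 197 / 198 := by norm_num
  rwa [h2] at h

/-- `199 C(n, k - 1) ≤ C(n, k)` for `1 ≤ k ≤ s` -/
theorem choose_down {n s k : ℕ} (hn : 200 * s ≤ n) (hk : k + 1 ≤ s) :
    199 * n.choose k ≤ n.choose (k + 1) := by
  have h1 := Nat.choose_succ_right_eq n k
  have h2 : 199 * (k + 1) ≤ n - k := by omega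
  have h3 : n.choose k * (199 * (k + 1)) ≤ n.choose (k + 1) * (k + 1) := by
    rw [h1]
    exact Nat.mul_le_mul_left _ h2
  have h4 : 199 * n.choose k * (k + 1) ≤ n.choose (k + 1) * (k + 1) := by
    calc 199 * n.choose k * (k + 1) = n.choose k * (199 * (k + 1)) := by ring
      _ ≤ _ := h3
  exact Nat.le_of_mul_le_mul_right h4 (by omega)

theorem sum_down {n s : ℕ} (hn : 200 * s ≤ n) (m : ℕ) (hm : 2 * (m + 1) ≤ s) :
    39600 * ∑ j ∈ Icc 1 (m + 1), n.choose (s - 2 * j) + n.choose (s - 2 * (m + 1)) ≤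
      39601 * n.choose (s - 2) := by
  induction m with
  | zero =>
    simp
    omega
  | succ m ih =>
    have h1 := ih (by omega)
    rw [sum_Icc_succ_top (by omega)]
    have h2 : s - 2 * (m + 1) = s - 2 * (m + 1 + 1) + 1 + 1 := by omega
    have h3 := choose_down (n := n) (s := s) (k := s - 2 * (m + 1 + 1)) hn (by omega)
    have h4 := choose_down (n := n) (s := s) (k := s - 2 * (m + 1 + 1) + 1) hn (by omega)
    rw [← h2] at h4
    omega

theorem num1 {n s : ℕ} (hn : 200 * s ≤ n) :
    16000 * n * ∑ j ∈ Icc 1 (s / 2), n.choose (s - 2 * j) ≤ 81 * s * n.choose s := by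
  rcases Nat.lt_or_ge s 2 with h | h
  · have : s / 2 = 0 := by omega
    rw [this]
    simp
  · obtain ⟨m, hm⟩ : ∃ m, s / 2 = m + 1 := ⟨s / 2 - 1, by omega⟩
    have h1 := sum_down hn m (by omega)
    rw [← hm] at h1
    have h2 : 39600 * ∑ j ∈ Icc 1 (s / 2), n.choose (s - 2 * j) ≤ 39601 * n.choose (s - 2) := by
      omega
    obtain ⟨t, rfl⟩ : ∃ t, s = t + 2 := ⟨s - 2, by omega⟩
    have h3 := Nat.choose_succ_right_eq n t
    have h4 := Nat.choose_succ_right_eq n (t + 1)
    rw [Nat.add_sub_cancel] at h2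
    have h5 : n.choose (t + 2) * ((t + 2) * (t + 1)) =
        n.choose t * ((n - t) * (n - (t + 1))) := by
      calc n.choose (t + 2) * ((t + 2) * (t + 1))
          = (n.choose (t + 1 + 1) * (t + 1 + 1)) * (t + 1) := by ring
        _ = n.choose (t + 1) * (n - (t + 1)) * (t + 1) := by rw [h4]
        _ = (n.choose (t + 1) * (t + 1)) * (n - (t + 1)) := by ring
        _ = _ := by rw [h3]; ring
    -- work in ℝ
    have hnn : (200 : ℝ) * (t + 2) ≤ n := by exact_mod_cast hn
    have c1 : ((n - t : ℕ) : ℝ) = n - t := Nat.cast_sub (by omega)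
    have c2 : ((n - (t + 1) : ℕ) : ℝ) = n - (t + 1) := by
      rw [Nat.cast_sub (by omega)]; push_cast; ring
    have h5' : (n.choose (t + 2) : ℝ) * ((t + 2) * (t + 1)) =
        n.choose t * ((n - t) * (n - (t + 1))) := by
      rw [← c1, ← c2]; exact_mod_cast h5
    have h2' : 39600 * (∑ j ∈ Icc 1 ((t + 2) / 2), (n.choose (t + 2 - 2 * j) : ℝ)) ≤
        39601 * n.choose t := by exact_mod_cast h2
    have hC : (0 : ℝ) ≤ n.choose t := by positivity
    have hC2 : (0 : ℝ) ≤ n.choose (t + 2) := by positivity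
    have ht : (0 : ℝ) ≤ t := by positivity
    have key : (16000 : ℝ) * n * ∑ j ∈ Icc 1 ((t + 2) / 2), (n.choose (t + 2 - 2 * j) : ℝ) ≤
        81 * (t + 2) * n.choose (t + 2) := by
      have hn0 : (0 : ℝ) ≤ n := by positivity
      have k1 : (16000 : ℝ) * n * ∑ j ∈ Icc 1 ((t + 2) / 2), (n.choose (t + 2 - 2 * j) : ℝ) ≤
          16000 * n * (39601 / 39600 * n.choose t) := by
        apply mul_le_mul_of_nonneg_left _ (by positivity)
        linarith
      refine k1.trans ?_
      -- multiply by (t+1)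
      have k2 : (16000 : ℝ) * n * (39601 / 39600) * (t + 1) ≤ 81 * ((n - t) * (n - (t + 1))) := by
        nlinarith
      have k3 : (16000 * n * (39601 / 39600 * n.choose t)) * (t + 1 : ℝ) ≤
          81 * (t + 2) * n.choose (t + 2) * (t + 1) := by
        calc (16000 * n * (39601 / 39600 * n.choose t)) * (t + 1 : ℝ)
            = (16000 * n * (39601 / 39600) * (t + 1)) * n.choose t := by ring
          _ ≤ (81 * ((n - t) * (n - (t + 1)))) * n.choose t := mul_le_mul_of_nonneg_right k2 hC
          _ = 81 * (n.choose t * ((n - t) * (n - (t + 1)))) := by ring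
          _ = 81 * (n.choose (t + 2) * ((t + 2) * (t + 1))) := by rw [h5']
          _ = _ := by ring
      exact le_of_mul_le_mul_right k3 (by positivity)
    exact_mod_cast key

end Pool.Agent.OddLin
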