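import Pool.Agent.OddLin.Defs
import Pool.Agent.OddDiam.Lym
import Pool.Agent.OddDiam.MiddleCount

/-! # MP_f155e9_co, odd diameter, linear range: all members have size at most `3 s / 2 - 3` -/

set_option autoImplicit false

namespace Pool.Agent.OddLin

open Finset Pool.Agent.OddDiam

private theorem inter_ge' {n : ℕ} {A B : Finset (Fin n)} {d : ℕ}
    (h : (symmDiff A B).card ≤ d) : A.card + B.card ≤ 2 * (A ∩ B).card + d := by
  have h1 : (symmDiff A B).card = (A \ B).card + (B \ A).card := by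
    rw [symmDiff_def, sup_eq_union, card_union_of_disjoint disjoint_sdiff_sdiff]
  have h2 := card_sdiff_add_card_inter A B
  have h3 := card_sdiff_add_card_inter B A
  rw [inter_comm B A] at h3
  omega

private theorem card_super {n k r : ℕ} {R : Finset (Fin n)} (hR : R.card = r) :
    ((powersetCard k (univ : Finset (Fin n))).filter (fun S => R ⊆ S)).card ≤
      (n - r).choose (k - r) := by
  have h1 : ((powersetCard k (univ : Finset (Fin n))).filter (fun S => R ⊆ S)).card ≤
      (powersetCard (k - r) Rᶜ).card := by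
    refine card_le_card_of_injOn (fun S => S \ R) ?_ ?_
    · intro S hS
      rw [mem_coe, mem_filter, mem_powersetCard_univ] at hS
      rw [mem_coe, mem_powersetCard]
      refine ⟨fun x hx => mem_compl.2 (mem_sdiff.1 hx).2, ?_⟩
      rw [card_sdiff_of_subset hS.2, hS.1, hR]
    · intro S hS S' hS' h
      rw [mem_coe, mem_filter] at hS hS'
      have h' : S \ R = S' \ R := h
      rw [← sdiff_union_of_subset hS.2, ← sdiff_union_of_subset hS'.2, h']
  rwa [card_powersetCard, card_compl, Fintype.card_fin, hR] at h1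

private theorem count {n k r : ℕ} (B : Finset (Fin n)) :
    ((powersetCard k (univ : Finset (Fin n))).filter (fun S => r ≤ (S ∩ B).card)).card ≤
      B.card.choose r * (n - r).choose (k - r) := by
  have h1 : (powersetCard k (univ : Finset (Fin n))).filter (fun S => r ≤ (S ∩ B).card) ⊆
      (powersetCard r B).biUnion (fun R =>
        (powersetCard k (univ : Finset (Fin n))).filter (fun S => R ⊆ S)) := by
    intro S hS
    rw [mem_filter] at hS
    obtain ⟨R, hR, hRc⟩ := exists_subset_card_eq hS.2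
    rw [mem_biUnion]
    exact ⟨R, mem_powersetCard.2 ⟨hR.trans inter_subset_right, hRc⟩,
      mem_filter.2 ⟨hS.1, hR.trans inter_subset_left⟩⟩
  refine (card_le_card h1).trans ?_
  refine (card_biUnion_le_card_mul _ _ ((n - r).choose (k - r)) (fun R hR => ?_)).trans ?_
  · exact card_super (mem_powersetCard.1 hR).2
  · rw [card_powersetCard]

private theorem ratio {n k : ℕ} (hk : k ≤ n) : ∀ {r : ℕ}, r ≤ k →
    (n - r).choose (k - r) * n ^ r ≤ k ^ r * n.choose k := by
  intro r
  induction r with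
  | zero =>
    intro _
    simp
  | succ r ih =>
    intro hr
    have h1 := ih (by omega)
    obtain ⟨a, ha⟩ : ∃ a, n - r = a + 1 := ⟨n - r - 1, by omega⟩
    obtain ⟨b, hb⟩ : ∃ b, k - r = b + 1 := ⟨k - r - 1, by omega⟩
    have h2 : (a + 1) * a.choose b = (a + 1).choose (b + 1) * (b + 1) :=
      Nat.add_one_mul_choose_eq a b
    rw [show n - (r + 1) = a by omega, show k - (r + 1) = b by omega]
    rw [ha, hb] at h1
    have h3 : n * (b + 1) ≤ k * (a + 1) := by
      have e1 : b + 1 + r = k := by omega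
      have e2 : a + 1 + r = n := by omega
      nlinarith
    have h4 : (a + 1) * (a.choose b * n ^ (r + 1)) ≤
        (a + 1) * (k ^ (r + 1) * n.choose k) := by
      calc (a + 1) * (a.choose b * n ^ (r + 1))
          = ((a + 1) * a.choose b) * n ^ (r + 1) := by ring
        _ = ((a + 1).choose (b + 1) * n ^ r) * (n * (b + 1)) := by rw [h2]; ring
        _ ≤ (k ^ r * n.choose k) * (k * (a + 1)) := Nat.mul_le_mul h1 h3
        _ = _ := by ring
    exact Nat.le_of_mul_le_mul_left h4 (by omega)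

/-- `C(m, r) ≤ (e c) ^ r` if `m ≤ c r` -/
private theorem choose_le_exp {m r : ℕ} {c : ℝ} (hc : (m : ℝ) ≤ c * r) :
    (m.choose r : ℝ) ≤ (Real.exp 1 * c) ^ r := by
  rcases Nat.eq_zero_or_pos r with rfl | hr
  · simp
  have hr' : (0 : ℝ) < r := by exact_mod_cast hr
  have h1 : (m.choose r : ℝ) ≤ (m : ℝ) ^ r / (r.factorial : ℝ) :=
    Nat.choose_le_pow_div (α := ℝ) r m
  have h2 : (r : ℝ) ^ r / (r.factorial : ℝ) ≤ Real.exp r :=
    Real.pow_div_factorial_le_exp (r : ℝ) hr'.le r
  have hc0 : 0 ≤ c := by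
    by_contra h
    have : c * r < 0 := mul_neg_of_neg_of_pos (not_le.1 h) hr'
    have : (0 : ℝ) ≤ m := by positivity
    linarith
  have hf : (0 : ℝ) < (r.factorial : ℝ) := by exact_mod_cast r.factorial_pos
  calc (m.choose r : ℝ) ≤ (m : ℝ) ^ r / (r.factorial : ℝ) := h1
    _ ≤ (c * r) ^ r / (r.factorial : ℝ) := by
        gcongr
    _ = c ^ r * ((r : ℝ) ^ r / (r.factorial : ℝ)) := by rw [mul_pow]; ring
    _ ≤ c ^ r * Real.exp r := mul_le_mul_of_nonneg_left h2 (by positivity)
    _ = (Real.exp 1 * c) ^ r := by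
        rw [mul_pow, ← Real.exp_nat_mul, mul_one, mul_comm]

private theorem choose_down' {n s k : ℕ} (hn : 200 * s ≤ n) (hk : k + 1 ≤ s) :
    199 * n.choose k ≤ n.choose (k + 1) := by
  have h1 := Nat.choose_succ_right_eq n k
  have h2 : 199 * (k + 1) ≤ n - k := by omega
  have h3 : n.choose k * (199 * (k + 1)) ≤ n.choose (k + 1) * (k + 1) := by
    rw [h1]
    exact Nat.mul_le_mul_left _ h2
  have h4 : 199 * n.choose k * (k + 1) ≤ n.choose (k + 1) * (k + 1) := by
    calc 199 * n.choose k * (k + 1) = n.choose k * (199 * (k + 1)) := by ring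
      _ ≤ _ := h3
  exact Nat.le_of_mul_le_mul_right h4 (by omega)

private theorem sum_down' {n s : ℕ} (hn : 200 * s ≤ n) (m : ℕ) (hm : 2 * (m + 1) ≤ s) :
    39600 * ∑ j ∈ Icc 1 (m + 1), n.choose (s - 2 * j) + n.choose (s - 2 * (m + 1)) ≤
      39601 * n.choose (s - 2) := by
  induction m with
  | zero =>
    simp
    omega
  | succ m ih =>
    have h1 := ih (by omega)
    rw [sum_Icc_succ_top (by omega)]
    have h2 : s - 2 * (m + 1) = s - 2 * (m + 1 + 1) + 1 + 1 := by omega
    have h3 := choose_down' (n := n) (s := s) (k := s - 2 * (m + 1 + 1)) hn (by omega)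
    have h4 := choose_down' (n := n) (s := s) (k := s - 2 * (m + 1 + 1) + 1) hn (by omega)
    rw [← h2] at h4
    omega

private theorem part_s {n s b : ℕ} (hs : 25 ≤ s) (hn : 200 * s ≤ n) (hb : b ≤ 3 * s + 1) :
    ((b.choose ((s - 4) / 4) * (n - (s - 4) / 4).choose (s - (s - 4) / 4) : ℕ) : ℝ) ≤
      1 / 8 * n.choose (s - 1) := by
  set r := (s - 4) / 4 with hr
  have hr5 : 5 ≤ r := by omega
  have hsr : s ≤ 4 * r + 7 := by omega
  have h1 := ratio (n := n) (k := s) (by omega) (r := r) (by omega)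
  have h2 : n.choose s * s = n.choose (s - 1) * (n + 1 - s) := by
    have := Nat.choose_succ_right_eq n (s - 1)
    rwa [show s - 1 + 1 = s by omega, show n - (s - 1) = n + 1 - s by omega] at this
  obtain ⟨t, ht⟩ : ∃ t, r = t + 1 := ⟨r - 1, by omega⟩
  have h3 : (n - r).choose (s - r) * n ^ t ≤ s ^ t * n.choose (s - 1) := by
    have h4 : s * n * ((n - r).choose (s - r) * n ^ t) ≤
        s * n * (s ^ t * n.choose (s - 1)) := by
      calc s * n * ((n - r).choose (s - r) * n ^ t)
          = s * ((n - r).choose (s - r) * n ^ r) := by rw [ht]; ring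
        _ ≤ s * (s ^ r * n.choose s) := Nat.mul_le_mul_left _ h1
        _ = s ^ r * (n.choose s * s) := by ring
        _ = s ^ r * (n.choose (s - 1) * (n + 1 - s)) := by rw [h2]
        _ ≤ s ^ r * (n.choose (s - 1) * n) :=
            Nat.mul_le_mul_left _ (Nat.mul_le_mul_left _ (by omega))
        _ = _ := by rw [ht]; ring
    exact Nat.le_of_mul_le_mul_left h4 (Nat.mul_pos (by omega) (by omega))
  have hn0 : (0 : ℝ) < n := by exact_mod_cast (show 0 < n by omega)
  have h5 : ((n - r).choose (s - r) : ℝ) ≤ (1 / 200) ^ t * n.choose (s - 1) := by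
    have h6 : ((n - r).choose (s - r) : ℝ) * n ^ t ≤ s ^ t * n.choose (s - 1) := by
      exact_mod_cast h3
    have h7 : (s : ℝ) ≤ 1 / 200 * n := by
      have : (200 : ℝ) * s ≤ n := by exact_mod_cast hn
      linarith
    have h8 : (s : ℝ) ^ t ≤ (1 / 200 * n) ^ t := pow_le_pow_left₀ (by positivity) h7 t
    have h9 : ((n - r).choose (s - r) : ℝ) * n ^ t ≤
        ((1 / 200) ^ t * n.choose (s - 1)) * n ^ t := by
      refine h6.trans ?_
      calc (s : ℝ) ^ t * n.choose (s - 1) ≤ (1 / 200 * n) ^ t * n.choose (s - 1) :=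
            mul_le_mul_of_nonneg_right h8 (by positivity)
        _ = _ := by rw [mul_pow]; ring
    exact le_of_mul_le_mul_right h9 (by positivity)
  have h10 : (b.choose r : ℝ) ≤ (Real.exp 1 * (82 / 5)) ^ r := by
    refine choose_le_exp ?_
    have : (b : ℝ) ≤ 12 * r + 22 := by exact_mod_cast (show b ≤ 12 * r + 22 by omega)
    have : (5 : ℝ) ≤ r := by exact_mod_cast hr5
    linarith
  have h11 : Real.exp 1 * (82 / 5) ≤ 223 / 5 := by
    have := Real.exp_one_lt_d9
    linarith
  have h12 : (b.choose r : ℝ) ≤ (223 / 5) ^ r :=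
    h10.trans (pow_le_pow_left₀ (by positivity) h11 r)
  have h13 : (223 / 5 : ℝ) ^ r * (1 / 200) ^ t ≤ 1 / 8 := by
    obtain ⟨u, hu⟩ : ∃ u, t = u + 4 := ⟨t - 4, by omega⟩
    rw [ht, hu]
    have : (223 / 5 : ℝ) ^ (u + 4 + 1) * (1 / 200) ^ (u + 4) =
        (223 / 1000) ^ u * ((223 / 5) ^ 5 * (1 / 200) ^ 4) := by
      rw [show (223 / 1000 : ℝ) = 223 / 5 * (1 / 200) by norm_num, mul_pow]
      ring
    rw [this]
    have h14 : (223 / 1000 : ℝ) ^ u ≤ 1 := pow_le_one₀ (by norm_num) (by norm_num)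
    calc (223 / 1000 : ℝ) ^ u * ((223 / 5) ^ 5 * (1 / 200) ^ 4)
        ≤ 1 * ((223 / 5) ^ 5 * (1 / 200) ^ 4) :=
          mul_le_mul_of_nonneg_right h14 (by norm_num)
      _ ≤ 1 / 8 := by norm_num
  push_cast
  calc (b.choose r : ℝ) * ((n - r).choose (s - r) : ℝ)
      ≤ (223 / 5) ^ r * ((1 / 200) ^ t * n.choose (s - 1)) :=
        mul_le_mul h12 h5 (by positivity) (by positivity)
    _ = ((223 / 5) ^ r * (1 / 200) ^ t) * n.choose (s - 1) := by ring
    _ ≤ 1 / 8 * n.choose (s - 1) := mul_le_mul_of_nonneg_right h13 (by positivity)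

private theorem part_s1 {n s b : ℕ} (hs : 25 ≤ s) (hn : 200 * s ≤ n) (hb : b ≤ 3 * s + 1) :
    ((b.choose ((s - 6) / 4) * (n - (s - 6) / 4).choose (s - 1 - (s - 6) / 4) : ℕ) : ℝ) ≤
      1 / 200 * n.choose (s - 1) := by
  set r := (s - 6) / 4 with hr
  have hr4 : 4 ≤ r := by omega
  have hsr : s ≤ 4 * r + 9 := by omega
  have h1 := ratio (n := n) (k := s - 1) (by omega) (r := r) (by omega)
  have hn0 : (0 : ℝ) < n := by exact_mod_cast (show 0 < n by omega)
  have h5 : ((n - r).choose (s - 1 - r) : ℝ) ≤ (1 / 200) ^ r * n.choose (s - 1) := by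
    have h6 : ((n - r).choose (s - 1 - r) : ℝ) * n ^ r ≤
        ((s - 1 : ℕ) : ℝ) ^ r * n.choose (s - 1) := by
      exact_mod_cast h1
    have h7 : ((s - 1 : ℕ) : ℝ) ≤ 1 / 200 * n := by
      have : (200 : ℝ) * ((s - 1 : ℕ) : ℝ) ≤ n := by
        exact_mod_cast (show 200 * (s - 1) ≤ n by omega)
      linarith
    have h8 : ((s - 1 : ℕ) : ℝ) ^ r ≤ (1 / 200 * n) ^ r :=
      pow_le_pow_left₀ (by positivity) h7 r
    have h9 : ((n - r).choose (s - 1 - r) : ℝ) * n ^ r ≤
        ((1 / 200) ^ r * n.choose (s - 1)) * n ^ r := by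
      refine h6.trans ?_
      calc ((s - 1 : ℕ) : ℝ) ^ r * n.choose (s - 1) ≤ (1 / 200 * n) ^ r * n.choose (s - 1) :=
            mul_le_mul_of_nonneg_right h8 (by positivity)
        _ = _ := by rw [mul_pow]; ring
    exact le_of_mul_le_mul_right h9 (by positivity)
  have h10 : (b.choose r : ℝ) ≤ (Real.exp 1 * 19) ^ r := by
    refine choose_le_exp ?_
    have : (b : ℝ) ≤ 12 * r + 28 := by exact_mod_cast (show b ≤ 12 * r + 28 by omega)
    have : (4 : ℝ) ≤ r := by exact_mod_cast hr4
    linarith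
  have h11 : Real.exp 1 * 19 ≤ 517 / 10 := by
    have := Real.exp_one_lt_d9
    linarith
  have h12 : (b.choose r : ℝ) ≤ (517 / 10) ^ r :=
    h10.trans (pow_le_pow_left₀ (by positivity) h11 r)
  have h13 : (517 / 10 : ℝ) ^ r * (1 / 200) ^ r ≤ 1 / 200 := by
    rw [← mul_pow]
    calc (517 / 10 * (1 / 200) : ℝ) ^ r ≤ (517 / 10 * (1 / 200)) ^ 4 :=
          pow_le_pow_of_le_one (by norm_num) (by norm_num) hr4
      _ ≤ 1 / 200 := by norm_num
  push_cast
  calc (b.choose r : ℝ) * ((n - r).choose (s - 1 - r) : ℝ)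
      ≤ (517 / 10) ^ r * ((1 / 200) ^ r * n.choose (s - 1)) :=
        mul_le_mul h12 h5 (by positivity) (by positivity)
    _ = ((517 / 10) ^ r * (1 / 200) ^ r) * n.choose (s - 1) := by ring
    _ ≤ 1 / 200 * n.choose (s - 1) := mul_le_mul_of_nonneg_right h13 (by positivity)

/-- Package I -/
theorem size_small {n s : ℕ} (hs : 25 ≤ s) (hn : 200 * s ≤ n) {F : Finset (Finset (Fin n))}
    (hanti : IsAntichain (· ⊆ ·) (F : Set (Finset (Fin n))))
    (hdiam : ∀ A ∈ F, ∀ B ∈ F, (symmDiff A B).card ≤ 2 * s + 1)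
    (hlow : ∃ A ∈ F, A.card ≤ s) (hF : n.choose s < F.card) : ∀ B ∈ F, 2 * B.card + 6 ≤ 3 * s := by
  by_contra hcon
  push Not at hcon
  obtain ⟨B, hB, hBc⟩ := hcon
  obtain ⟨A0, hA0, hA0c⟩ := hlow
  have hup : ∀ C ∈ F, C.card ≤ 3 * s + 1 := by
    intro C hC
    have h1 := inter_ge' (hdiam A0 hA0 C hC)
    have h2 : (A0 ∩ C).card ≤ A0.card := card_le_card inter_subset_left
    omega
  have hBu := hup B hB
  set F0 := F.filter (fun A => A.card ≤ s - 2) with hF0
  set F1 := F.filter (fun A => A.card = s - 1) with hF1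
  set F2 := F.filter (fun A => A.card = s) with hF2
  set F3 := F.filter (fun A => s < A.card) with hF3
  have hcard : F.card ≤ F0.card + F1.card + F2.card + F3.card := by
    have : F ⊆ ((F0 ∪ F1) ∪ F2) ∪ F3 := by
      intro A hA
      simp only [hF0, hF1, hF2, hF3, mem_union, mem_filter]
      rcases lt_trichotomy A.card s with h | h | h
      · by_cases h' : A.card = s - 1
        · exact Or.inl (Or.inl (Or.inr ⟨hA, h'⟩))
        · exact Or.inl (Or.inl (Or.inl ⟨hA, by omega⟩))
      · exact Or.inl (Or.inr ⟨hA, h⟩)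
      · exact Or.inr ⟨hA, h⟩
    refine (card_le_card this).trans ?_
    refine (card_union_le _ _).trans (Nat.add_le_add_right ?_ _)
    refine (card_union_le _ _).trans (Nat.add_le_add_right ?_ _)
    exact card_union_le _ _
  -- lowest part
  have h0 : F0.card ≤ n.choose (s - 2) := by
    have := lym_le (α := Fin n) (t := s - 2) (by rw [Fintype.card_fin]; omega) (F := F0)
      (hanti.subset (by intro A hA; exact (mem_filter.1 hA).1))
      (fun A hA => (mem_filter.1 hA).2)
    rwa [Fintype.card_fin] at this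
  -- level s
  have h2 : (F2.card : ℝ) ≤ 1 / 8 * n.choose (s - 1) := by
    refine le_trans ?_ (part_s hs hn hBu)
    have : F2.card ≤ B.card.choose ((s - 4) / 4) *
        (n - (s - 4) / 4).choose (s - (s - 4) / 4) := by
      refine le_trans (card_le_card ?_) (count (n := n) (k := s) (r := (s - 4) / 4) B)
      intro A hA
      rw [hF2, mem_filter] at hA
      rw [mem_filter, mem_powersetCard_univ]
      refine ⟨hA.2, ?_⟩
      have := inter_ge' (hdiam A hA.1 B hB)
      omega
    exact_mod_cast this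
  have h1 : (F1.card : ℝ) ≤ 1 / 200 * n.choose (s - 1) := by
    refine le_trans ?_ (part_s1 hs hn hBu)
    have : F1.card ≤ B.card.choose ((s - 6) / 4) *
        (n - (s - 6) / 4).choose (s - 1 - (s - 6) / 4) := by
      refine le_trans (card_le_card ?_) (count (n := n) (k := s - 1) (r := (s - 6) / 4) B)
      intro A hA
      rw [hF1, mem_filter] at hA
      rw [mem_filter, mem_powersetCard_univ]
      refine ⟨hA.2, ?_⟩
      have := inter_ge' (hdiam A hA.1 B hB)
      omega
    exact_mod_cast this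
  -- upper part
  have h3 := middle_count (α := Fin n) (s := s) (by omega) (F := F3)
    (hanti.subset (by intro A hA; exact (mem_filter.1 hA).1))
    (fun A hA C hC => hdiam A (mem_filter.1 hA).1 C (mem_filter.1 hC).1)
    (fun A hA => (mem_filter.1 hA).2)
    (fun A hA => by
      have := hup A (mem_filter.1 hA).1
      rw [Fintype.card_fin]
      omega) (by rw [Fintype.card_fin]; omega)
  rw [Fintype.card_fin, if_pos (by omega)] at h3
  obtain ⟨m, hm⟩ : ∃ m, s / 2 = m + 1 := ⟨s / 2 - 1, by omega⟩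
  have h4 := sum_down' hn m (by omega)
  rw [← hm] at h4
  have h5 := choose_down' (n := n) (s := s) (k := s - 2) hn (by omega)
  rw [show s - 2 + 1 = s - 1 by omega] at h5
  have h6 : 0 < n.choose (s - 1) := Nat.choose_pos (by omega)
  have h6' : (0 : ℝ) < n.choose (s - 1) := by exact_mod_cast h6
  have h7 : (F.card : ℝ) ≤ F0.card + F1.card + F2.card + F3.card := by exact_mod_cast hcard
  have h8 : (F0.card : ℝ) ≤ n.choose (s - 2) := by exact_mod_cast h0
  have h9 : (F3.card : ℝ) + n.choose (s - 1) ≤ n.choose s + n.choose (s - 2) +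
      4 * ((∑ j ∈ Icc 1 (s / 2), n.choose (s - 2 * j) : ℕ) : ℝ) := by exact_mod_cast h3
  have h10 : (39600 : ℝ) * ((∑ j ∈ Icc 1 (s / 2), n.choose (s - 2 * j) : ℕ) : ℝ) ≤
      39601 * n.choose (s - 2) := by
    exact_mod_cast (show 39600 * (∑ j ∈ Icc 1 (s / 2), n.choose (s - 2 * j)) ≤
      39601 * n.choose (s - 2) by omega)
  have h11 : (199 : ℝ) * n.choose (s - 2) ≤ n.choose (s - 1) := by exact_mod_cast h5
  have h12 : (n.choose s : ℝ) < F.card := by exact_mod_cast hF
  linarith

end Pool.Agent.OddLin
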