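import Pool.Agent.OddLin.Spectral
import Pool.Agent.OddLin.Size
import Pool.Agent.OddLin.Kat
import Pool.Agent.OddDiam.Middle
import Pool.Agent.OddDiam.Main
import Pool.Agent.OddDiam.MiddleCount
import Pool.Agent.OddLin.LymOne
import Pool.Agent.OddLin.Level
import Pool.Agent.OddLin.Gain
import Pool.Agent.OddLin.Num
import Pool.Agent.OddLin.Num2

/-! # MP_f155e9_co, odd diameter, linear range: assembly -/

set_option autoImplicit false

namespace Pool.Agent.OddLin

open Finset Pool.Agent.OddDiam

theorem inter_ge {α : Type*} [Fintype α] [DecidableEq α] {A B : Finset α} {d : ℕ}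
    (h : (symmDiff A B).card ≤ d) : A.card + B.card ≤ 2 * (A ∩ B).card + d := by
  have h1 := symm_card A B
  have h2 := card_sdiff_add_card_inter A B
  have h3 := card_sdiff_add_card_inter B A
  rw [inter_comm B A] at h3
  omega

theorem sh_mono {α : Type*} [Fintype α] [DecidableEq α] {s : ℕ} {F G : Finset (Finset α)}
    (h : F ⊆ G) : sh s F ⊆ sh s G := by
  intro T hT
  rw [sh, mem_filter] at hT ⊢
  obtain ⟨h1, A, hA, hTA⟩ := hT
  exact ⟨h1, A, h hA, hTA⟩

theorem card_disjoint {n s : ℕ} (B : Finset (Fin n)) :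
    ((powersetCard s (univ : Finset (Fin n))).filter (fun S => Disjoint S B)).card =
      (n - B.card).choose s := by
  have : (powersetCard s (univ : Finset (Fin n))).filter (fun S => Disjoint S B) =
      powersetCard s Bᶜ := by
    ext S
    simp only [mem_filter, mem_powersetCard, subset_univ, true_and]
    rw [subset_compl_iff_disjoint_right, and_comm]
  rw [this, card_powersetCard, card_compl, Fintype.card_fin]

theorem low_case {n s : ℕ} (hs : 25 ≤ s) (hn : 200 * s ≤ n) {F : Finset (Finset (Fin n))}
    (hanti : IsAntichain (· ⊆ ·) (F : Set (Finset (Fin n))))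
    (hdiam : ∀ A ∈ F, ∀ B ∈ F, (symmDiff A B).card ≤ 2 * s + 1)
    (hlow : ∃ A ∈ F, A.card ≤ s) : F.card ≤ n.choose s := by
  by_contra hF
  rw [not_le] at hF
  have hsz := size_small hs hn hanti hdiam hlow hF
  set N := n.choose s with hN
  set Fs := F.filter (fun A => A.card = s) with hFs
  set Fl := F.filter (fun A => A.card < s) with hFl
  set Fg := F.filter (fun A => s < A.card) with hFg
  set F1 := F.filter (fun A => A.card = s + 1) with hF1
  set G := F.filter (fun A => s + 2 ≤ A.card) with hG
  set Sg := sh s Fg with hSg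
  have hpart : Fl.card + Fs.card + Fg.card = F.card := by
    have e1 : F = (Fl ∪ Fs) ∪ Fg := by
      ext A
      simp only [hFl, hFs, hFg, mem_union, mem_filter]
      constructor
      · intro h
        rcases lt_trichotomy A.card s with h1 | h1 | h1
        · exact Or.inl (Or.inl ⟨h, h1⟩)
        · exact Or.inl (Or.inr ⟨h, h1⟩)
        · exact Or.inr ⟨h, h1⟩
      · rintro ((h | h) | h) <;> exact h.1
    have d1 : Disjoint Fl Fs := by
      rw [disjoint_left]
      intro A h1 h2
      have := (mem_filter.1 h1).2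
      have := (mem_filter.1 h2).2
      omega
    have d2 : Disjoint (Fl ∪ Fs) Fg := by
      rw [disjoint_left]
      intro A h1 h2
      have h3 := (mem_filter.1 h2).2
      rcases mem_union.1 h1 with h | h
      · have := (mem_filter.1 h).2
        omega
      · have := (mem_filter.1 h).2
        omega
    conv_rhs => rw [e1]
    rw [card_union_of_disjoint d2, card_union_of_disjoint d1]
  have hpart2 : F1.card + G.card = Fg.card := by
    have e1 : Fg = F1 ∪ G := by
      ext A
      simp only [hF1, hG, hFg, mem_union, mem_filter]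
      constructor
      · intro h
        rcases eq_or_lt_of_le (Nat.succ_le_of_lt h.2) with h1 | h1
        · exact Or.inl ⟨h.1, h1.symm⟩
        · exact Or.inr ⟨h.1, h1⟩
      · rintro (h | h)
        · exact ⟨h.1, by omega⟩
        · exact ⟨h.1, by omega⟩
    have d1 : Disjoint F1 G := by
      rw [disjoint_left]
      intro A h1 h2
      have := (mem_filter.1 h1).2
      have := (mem_filter.1 h2).2
      omega
    rw [e1, card_union_of_disjoint d1]
  have h1 := lym_one (s := s) (by omega) (by omega) hanti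
  rw [← hFs, ← hFl, ← hFg, ← hSg, ← hN] at h1
  have hs0 : 0 < s := by omega
  obtain ⟨P, hP⟩ : ∃ P, N = Fs.card + P := by
    refine Nat.exists_eq_add_of_le ?_
    have : s * Fs.card ≤ s * N := by omega
    exact Nat.le_of_mul_le_mul_left this hs0
  have h2 : Sg.card + 199 * Fl.card ≤ P := by
    have h3 : 199 * s * Fl.card ≤ (n + 1 - s) * Fl.card := Nat.mul_le_mul_right _ (by omega)
    have h4 : s * (Sg.card + 199 * Fl.card) ≤ s * P := by
      have : s * N = s * Fs.card + s * P := by rw [hP, mul_add]
      have e : s * (Sg.card + 199 * Fl.card) = s * Sg.card + 199 * s * Fl.card := by ring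
      omega
    exact Nat.le_of_mul_le_mul_left h4 hs0
  have h3 : P + 1 ≤ Fg.card + Fl.card := by omega
  -- intersecting level
  have hint1 : ∀ A ∈ F1, ∀ B ∈ F1, (A ∩ B).Nonempty := by
    intro A hA B hB
    rw [← card_pos]
    have := inter_ge (hdiam A (mem_filter.1 hA).1 B (mem_filter.1 hB).1)
    have := (mem_filter.1 hA).2
    have := (mem_filter.1 hB).2
    omega
  have hF1c : ∀ A ∈ F1, A.card = s + 1 := fun A hA => (mem_filter.1 hA).2
  have hF1g : F1 ⊆ Fg := by
    intro A hA
    rw [hFg, mem_filter]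
    have := (mem_filter.1 hA).2
    exact ⟨(mem_filter.1 hA).1, by omega⟩
  have hsh1 : (sh s F1).card ≤ Sg.card := card_le_card (sh_mono hF1g)
  have hkat : F1.card ≤ (sh s F1).card := by
    have := kat (k := s + 1) (t := 1) le_rfl (by omega) hF1c
      (fun A hA B hB => (hint1 A hA B hB).card_pos)
    simpa using this
  have hGne : G.Nonempty := by
    rw [nonempty_iff_ne_empty]
    intro h
    rw [h, card_empty] at hpart2
    omega
  -- density
  set E2 := ∑ j ∈ Icc 1 (s / 2), n.choose (s - 2 * j) with hE2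
  have hspec : 4 * n * Fg.card + s * Sg.card ≤ 4 * n * Sg.card + 16 * n * E2 := by
    have := spectral (α := Fin n) (s := s) (M := s / 2 - 3) (by omega) (by omega) (G := Fg)
      (hanti.subset (by intro A hA; exact (mem_filter.1 hA).1))
      (fun A hA B hB => hdiam A (mem_filter.1 hA).1 B (mem_filter.1 hB).1)
      (fun A hA => (mem_filter.1 hA).2)
      (fun A hA => by have := hsz A (mem_filter.1 hA).1; omega)
    rw [Fintype.card_fin] at this
    exact this
  have hE2n := num1 hn
  rw [← hE2, ← hN] at hE2n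
  have hN0 : 0 < N := Nat.choose_pos (by omega)
  have hdense : 1000 * P ≤ 82 * N := by
    have a1 : Sg.card + 1 ≤ Fg.card := by omega
    have hnR : (200 : ℝ) * s ≤ n := by exact_mod_cast hn
    have hsR : (0 : ℝ) < s := by exact_mod_cast hs0
    have b1 : (4 : ℝ) * n * Fg.card + s * Sg.card ≤ 4 * n * Sg.card + 16 * n * E2 := by
      exact_mod_cast hspec
    have b2 : (16000 : ℝ) * n * E2 ≤ 81 * s * N := by exact_mod_cast hE2n
    have b3 : (Sg.card : ℝ) + 1 ≤ Fg.card := by exact_mod_cast a1
    have b4 : (Sg.card : ℝ) + 199 * Fl.card ≤ P := by exact_mod_cast h2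
    have b5 : (P : ℝ) + 1 ≤ Fg.card + Fl.card := by exact_mod_cast h3
    have hn0 : (0 : ℝ) < n := by linarith
    -- 1000 * Sg ≤ 81 N
    have c1 : (1000 : ℝ) * Sg.card ≤ 81 * N := by
      have : (s : ℝ) * (1000 * Sg.card) ≤ s * (81 * N) := by nlinarith
      exact le_of_mul_le_mul_left this hsR
    -- 800000 (Fg - Sg) ≤ 81 N
    have c2 : (800000 : ℝ) * (Fg.card - Sg.card) ≤ 81 * N := by
      have d0 : (0 : ℝ) ≤ Fg.card - Sg.card := by linarith
      have d1 : (4000 : ℝ) * n * (Fg.card - Sg.card) ≤ 81 * s * N := by nlinarith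
      have d2 : (4000 : ℝ) * (200 * s) * (Fg.card - Sg.card) ≤
          4000 * n * (Fg.card - Sg.card) := by
        apply mul_le_mul_of_nonneg_right _ d0
        linarith
      have : (s : ℝ) * (800000 * (Fg.card - Sg.card)) ≤ s * (81 * N) := by nlinarith
      exact le_of_mul_le_mul_left this hsR
    have c3 : (1000 : ℝ) * P ≤ 82 * N := by
      have hSg0 : (0 : ℝ) ≤ Sg.card := by positivity
      linarith
    exact_mod_cast c3
  -- choice of L
  have hex : ∃ m, (n - m).choose s ≤ 2 * P := by
    refine ⟨n, ?_⟩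
    rw [Nat.sub_self, Nat.choose_eq_zero_of_lt hs0]
    exact Nat.zero_le _
  classical
  obtain ⟨L, hL1, hL2⟩ : ∃ L, (n - (L + 1)).choose s ≤ 2 * P ∧ 2 * P < (n - L).choose s := by
    have hm := Nat.find_spec hex
    have hm0 : Nat.find hex ≠ 0 := by
      intro h
      rw [h, Nat.sub_zero] at hm
      omega
    obtain ⟨L, hL⟩ := Nat.exists_eq_succ_of_ne_zero hm0
    refine ⟨L, by rw [hL] at hm; exact hm, ?_⟩
    have := Nat.find_min hex (m := L) (by omega)
    omega
  have hL200 : 200 ≤ L := by
    by_contra hlt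
    rw [not_le] at hlt
    have c1 : (n - 200).choose s ≤ (n - (L + 1)).choose s := Nat.choose_le_choose s (by omega)
    have c2 := num2 hs hn
    omega
  have hL3 : 2 * L ≤ 3 * s := by
    obtain ⟨B, hB⟩ := hGne
    have hBF := (mem_filter.1 hB).1
    have hB2 := (mem_filter.1 hB).2
    have hBs := hsz B hBF
    have c1 : (n - B.card).choose s + Fs.card ≤ N := by
      rw [← card_disjoint B, hN]
      have d1 : Disjoint ((powersetCard s (univ : Finset (Fin n))).filter
          (fun S => Disjoint S B)) Fs := by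
        rw [disjoint_left]
        intro S hS hS'
        have e1 := (mem_filter.1 hS).2
        have e2 := hdiam S (mem_filter.1 hS').1 B hBF
        have e3 := inter_ge e2
        have e4 := (mem_filter.1 hS').2
        have e5 : (S ∩ B).card = 0 := by
          rw [card_eq_zero]; exact disjoint_iff_inter_eq_empty.1 e1
        omega
      rw [← card_union_of_disjoint d1]
      have : (powersetCard s (univ : Finset (Fin n))).card = n.choose s := by
        rw [card_powersetCard, card_univ, Fintype.card_fin]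
      rw [← this]
      apply card_le_card
      intro S hS
      rcases mem_union.1 hS with h | h
      · exact (mem_filter.1 h).1
      · rw [mem_powersetCard]
        exact ⟨subset_univ _, (mem_filter.1 h).2⟩
    by_contra hgt
    have c2 : (n - L).choose s ≤ (n - B.card).choose s := Nat.choose_le_choose s (by omega)
    omega
  have hL4 := num3 (n := n) (s := s) (L := L) (by omega) hn hL3
  rw [← hN] at hL4
  -- real quantities
  have hnR : (200 : ℝ) * s ≤ n := by exact_mod_cast hn
  have hsR : (0 : ℝ) < s := by exact_mod_cast hs0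
  have hn0 : (0 : ℝ) < n := by linarith
  have hNR : (0 : ℝ) < N := by exact_mod_cast hN0
  set x : ℝ := 8 * s / n with hx
  have hx0 : 0 ≤ x := by positivity
  have hx1 : x ≤ 1 / 25 := by
    rw [hx, div_le_iff₀ hn0]; linarith
  have hP2 : (197 / 198 : ℝ) ^ (L + 1) * N ≤ 2 * P := by
    refine hL4.trans ?_
    exact_mod_cast hL1
  -- the levels
  have hGle : (G.card : ℝ) ≤ 15 * (2 * x) ^ ((L + 1) / 3) * N := by
    have c1 : G.card = ∑ l ∈ Ico 2 s, (F.filter (fun A => A.card = s + l)).card := by
      rw [card_eq_sum_card_fiberwise (f := fun A : Finset (Fin n) => A.card - s) (t := Ico 2 s)]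
      · refine sum_congr rfl fun l hl => ?_
        rw [mem_Ico] at hl
        congr 1
        ext A
        simp only [hG, mem_filter]
        constructor
        · rintro ⟨⟨h, h'⟩, h''⟩
          exact ⟨h, by omega⟩
        · rintro ⟨h, h'⟩
          exact ⟨⟨h, by omega⟩, by omega⟩
      · intro A hA
        rw [mem_coe, mem_Ico]
        have d1 := (mem_filter.1 (mem_coe.1 hA)).2
        have d2 := hsz A (mem_filter.1 (mem_coe.1 hA)).1
        constructor
        · change 2 ≤ A.card - s
          omega
        · change A.card - s < s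
          omega
    have c2 : ∀ l ∈ Ico 2 s, ((F.filter (fun A => A.card = s + l)).card : ℝ) ≤
        15 / 2 * x ^ (max ((L + 1) / 3) (l / 2)) * N := by
      intro l hl
      rw [mem_Ico] at hl
      refine cross_level (L := L) (𝒜 := Fs) (by omega) hn hl.1 (by omega) (by omega)
        (fun A hA => (mem_filter.1 hA).2) (fun A hA => (mem_filter.1 hA).2) ?_ ?_
      · intro A hA B hB
        have := inter_ge (hdiam A (mem_filter.1 hA).1 B (mem_filter.1 hB).1)
        have := (mem_filter.1 hA).2
        have := (mem_filter.1 hB).2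
        omega
      · rw [← hN]
        have : N - Fs.card = P := by omega
        rw [this]
        exact hL2
    rw [c1]
    push_cast
    calc ∑ l ∈ Ico 2 s, ((F.filter (fun A => A.card = s + l)).card : ℝ)
        ≤ ∑ l ∈ Ico 2 s, 15 / 2 * x ^ (max ((L + 1) / 3) (l / 2)) * N := sum_le_sum c2
      _ = (∑ l ∈ Ico 2 s, 15 / 2 * x ^ (max ((L + 1) / 3) (l / 2))) * N := by rw [sum_mul]
      _ ≤ _ := mul_le_mul_of_nonneg_right (num4 (by omega) hx0 hx1 s) hNR.le
  have hG100 : 100 * (G.card : ℝ) ≤ P := by
    have c1 := num5 hL200 hx0 hx1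
    have c2 : 15 * (2 * x) ^ ((L + 1) / 3) * N ≤ (1 / 200) * (197 / 198 : ℝ) ^ (L + 1) * N :=
      mul_le_mul_of_nonneg_right c1 hNR.le
    nlinarith
  have hF1P : (P : ℝ) ≤ 2 * F1.card := by
    have c1 : (P : ℝ) + 1 ≤ Fg.card + Fl.card := by exact_mod_cast h3
    have c2 : (F1.card : ℝ) + G.card = Fg.card := by exact_mod_cast hpart2
    have c3 : (199 : ℝ) * Fl.card ≤ P := by
      have : 199 * Fl.card ≤ P := by omega
      exact_mod_cast this
    have hPnn : (0 : ℝ) ≤ P := by positivity
    linarith
  have hF1N : (1 / 4) * (197 / 198 : ℝ) ^ (L + 1) * N ≤ F1.card := by linarith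
  -- the gain
  have hgain := katona_gain (q0 := L / 20 + 1) hn (by omega) (by omega) hF1c hint1
    (by
      have c1 := num6 hL200 hx0 hx1
      rw [← hN, ← hx]
      calc 15 * x ^ ((L / 20 + 1 - 1) / 3) * N < (1 / 4) * (197 / 198 : ℝ) ^ (L + 1) * N :=
            mul_lt_mul_of_pos_right c1 hNR
        _ ≤ _ := hF1N)
    (by
      have c1 := num7 L (by omega)
      rw [← hN]
      calc 4 * (4 / 125 : ℝ) ^ (L / 20 + 1) * N ≤ (1 / 4) * (197 / 198 : ℝ) ^ (L + 1) * N :=
            mul_le_mul_of_nonneg_right c1 hNR.le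
        _ ≤ _ := hF1N)
  have hy : (0 : ℝ) < s / (2 * n) := by positivity
  have hy1 : (s / (2 * n) : ℝ) ≤ 1 / 400 := by
    rw [div_le_iff₀ (by positivity)]; linarith
  have hxy : 2 * x = 32 * (s / (2 * n) : ℝ) := by
    rw [hx]; field_simp; ring
  have c1 := num8 hL200 hy hy1
  rw [← hxy] at c1
  have c2 : (Sg.card : ℝ) + 199 * Fl.card ≤ P := by exact_mod_cast h2
  have c3 : (P : ℝ) + 1 ≤ Fg.card + Fl.card := by exact_mod_cast h3
  have c4 : (F1.card : ℝ) + G.card = Fg.card := by exact_mod_cast hpart2
  have c5 : ((sh s F1).card : ℝ) ≤ Sg.card := by exact_mod_cast hsh1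
  have hyq : (0 : ℝ) ≤ (s / (2 * n) : ℝ) ^ (L / 20 + 1) := by positivity
  have c6 : 15 * (2 * x) ^ ((L + 1) / 3) * N ≤
      (F1.card : ℝ) / 8 * (s / (2 * n) : ℝ) ^ (L / 20 + 1) := by
    calc 15 * (2 * x) ^ ((L + 1) / 3) * N
        ≤ ((1 / 32) * (197 / 198 : ℝ) ^ (L + 1) * (s / (2 * n) : ℝ) ^ (L / 20 + 1)) * N :=
          mul_le_mul_of_nonneg_right c1 hNR.le
      _ = ((1 / 4) * (197 / 198 : ℝ) ^ (L + 1) * N) / 8 * (s / (2 * n) : ℝ) ^ (L / 20 + 1) := by
          ring
      _ ≤ _ := by
          apply mul_le_mul_of_nonneg_right _ hyq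
          linarith
  have c7 : (0 : ℝ) ≤ Fl.card := by positivity
  linarith

theorem odd_linear {n s : ℕ} (hs : 25 ≤ s) (hn : 200 * s ≤ n) {F : Finset (Finset (Fin n))}
    (hanti : IsAntichain (· ⊆ ·) (F : Set (Finset (Fin n))))
    (hdiam : ∀ A ∈ F, ∀ B ∈ F, (symmDiff A B).card ≤ 2 * s + 1) : F.card ≤ n.choose s := by
  by_cases h1 : ∃ A ∈ F, A.card ≤ s
  · exact low_case hs hn hanti hdiam h1
  by_cases h2 : ∃ A ∈ F, n ≤ A.card + s
  · -- complements
    have hinj : Function.Injective (compl : Finset (Fin n) → Finset (Fin n)) := compl_injective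
    have hc : (F.image compl).card = F.card := card_image_of_injective _ hinj
    rw [← hc]
    refine low_case hs hn ?_ ?_ ?_
    · intro X hX Y hY hne hsub
      simp only [coe_image, Set.mem_image, mem_coe] at hX hY
      obtain ⟨A, hA, rfl⟩ := hX
      obtain ⟨B, hB, rfl⟩ := hY
      have hne' : B ≠ A := fun h => hne (by rw [h])
      exact hanti hB hA hne' (compl_subset_compl.1 hsub)
    · intro X hX Y hY
      obtain ⟨A, hA, rfl⟩ := mem_image.1 hX
      obtain ⟨B, hB, rfl⟩ := mem_image.1 hY
      have : symmDiff Aᶜ Bᶜ = symmDiff A B := compl_symmDiff_compl A B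
      rw [this]
      exact hdiam A hA B hB
    · obtain ⟨A, hA, hA2⟩ := h2
      refine ⟨Aᶜ, mem_image_of_mem _ hA, ?_⟩
      rw [card_compl, Fintype.card_fin]
      omega
  · push Not at h1 h2
    have h3 := middle (α := Fin n) (s := s) (by omega) hanti hdiam (fun A hA => h1 A hA)
      (fun A hA => by rw [Fintype.card_fin]; have := h2 A hA; omega)
      (by rw [Fintype.card_fin]; omega)
    rwa [Fintype.card_fin] at h3

end Pool.Agent.OddLin
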