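import Pool.Agent.OddLin.Kat

/-! # MP_f155e9_co, odd diameter, linear range: the gain in Katona's shadow theorem -/

set_option autoImplicit false

namespace Pool.Agent.OddLin

open Finset Pool.Agent.OddDiam

variable {n : ℕ}

private theorem g_pre0 {q : ℕ} {X : Finset (Fin n)} : pre q X = 0 ↔ ∀ x ∈ X, q ≤ x.val := by
  unfold pre
  rw [card_eq_zero, filter_eq_empty_iff]
  exact ⟨fun h x hx => not_lt.1 (h hx), fun h x hx => not_lt.2 (h x hx)⟩

private theorem g_sh {α : Type*} [Fintype α] [DecidableEq α] {s : ℕ} {F : Finset (Finset α)}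
    {T : Finset α} : T ∈ sh s F ↔ T.card = s ∧ ∃ A ∈ F, T ⊆ A := by
  unfold sh
  rw [mem_filter, mem_powersetCard]
  exact ⟨fun h => ⟨h.1.2, h.2⟩, fun h => ⟨⟨subset_univ _, h.1⟩, h.2⟩⟩

/-- the members avoiding the first `j` points -/
private def Bj (ℬ : Finset (Finset (Fin n))) (j : ℕ) : Finset (Finset (Fin n)) :=
  ℬ.filter (fun A => pre j A = 0)

/-- the links of `p` in the members whose least point is `p` -/
private def Cp (ℬ : Finset (Finset (Fin n))) (p : Fin n) : Finset (Finset (Fin n)) :=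
  (univ : Finset (Finset (Fin n))).filter (fun C => pre (p.val + 1) C = 0 ∧ insert p C ∈ ℬ)

private theorem mem_Bj {ℬ : Finset (Finset (Fin n))} {j : ℕ} {A : Finset (Fin n)} :
    A ∈ Bj ℬ j ↔ A ∈ ℬ ∧ ∀ x ∈ A, j ≤ x.val := by
  unfold Bj
  rw [mem_filter, g_pre0]

private theorem mem_Cp {ℬ : Finset (Finset (Fin n))} {p : Fin n} {C : Finset (Fin n)} :
    C ∈ Cp ℬ p ↔ (∀ x ∈ C, p.val + 1 ≤ x.val) ∧ insert p C ∈ ℬ := by
  unfold Cp
  rw [mem_filter, g_pre0]
  exact ⟨fun h => h.2, fun h => ⟨mem_univ _, h⟩⟩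

private theorem Cp_notMem {ℬ : Finset (Finset (Fin n))} {p : Fin n} {C : Finset (Fin n)}
    (hC : C ∈ Cp ℬ p) : p ∉ C := fun h => by
  have := (mem_Cp.1 hC).1 p h
  omega

private theorem Cp_card {s : ℕ} {ℬ : Finset (Finset (Fin n))} (hB : ∀ A ∈ ℬ, A.card = s + 1)
    {p : Fin n} {C : Finset (Fin n)} (hC : C ∈ Cp ℬ p) : C.card = s := by
  have h1 := hB _ (mem_Cp.1 hC).2
  rw [card_insert_of_notMem (Cp_notMem hC)] at h1
  omega

/-- (a), auxiliary: common points can be moved away -/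
private theorem inter_aux {ℬ : Finset (Finset (Fin n))}
    (hint : ∀ A ∈ ℬ, ∀ B ∈ ℬ, (A ∩ B).Nonempty) (hsh : Shifted ℬ) :
    ∀ m : ℕ, ∀ A ∈ ℬ, ∀ B ∈ ℬ, ∀ S : Finset (Fin n), (A ∩ B).card = m → m ≤ S.card →
      (∀ y ∈ S, y ∉ A ∧ y ∉ B) → (∀ y ∈ S, ∀ x ∈ A ∩ B, y < x) → False := by
  intro m
  induction m with
  | zero =>
    intro A hA B hB S h0 _ _ _
    have := (hint A hA B hB).card_pos
    omega
  | succ m ih =>
    intro A hA B hB S hm hS hd hlt
    have hx : (A ∩ B).Nonempty := card_pos.1 (by omega)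
    have hy : S.Nonempty := card_pos.1 (by omega)
    obtain ⟨x, hx⟩ := hx
    obtain ⟨y, hy⟩ := hy
    have hyA := (hd y hy).1
    have hyB := (hd y hy).2
    have hxA := (mem_inter.1 hx).1
    have h1 := hsh A hA y x (hlt y hy x hx) hxA hyA
    have h2 : insert y (A.erase x) ∩ B = (A ∩ B).erase x := by
      ext z
      simp only [mem_inter, mem_insert, mem_erase]
      constructor
      · rintro ⟨rfl | ⟨h3, h4⟩, h5⟩
        · exact absurd h5 hyB
        · exact ⟨h3, h4, h5⟩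
      · rintro ⟨h3, h4, h5⟩
        exact ⟨Or.inr ⟨h3, h4⟩, h5⟩
    refine ih _ h1 B hB (S.erase y) ?_ ?_ ?_ ?_
    · rw [h2, card_erase_of_mem hx]
      omega
    · rw [card_erase_of_mem hy]
      omega
    · intro z hz
      obtain ⟨hz1, hz2⟩ := mem_erase.1 hz
      refine ⟨fun h => ?_, (hd z hz2).2⟩
      rcases mem_insert.1 h with h | h
      · exact hz1 h
      · exact (hd z hz2).1 (mem_erase.1 h).2
    · intro z hz w hw
      rw [h2] at hw
      exact hlt z (mem_erase.1 hz).2 w (mem_erase.1 hw).2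

/-- (a) -/
private theorem inter_ge {ℬ : Finset (Finset (Fin n))}
    (hint : ∀ A ∈ ℬ, ∀ B ∈ ℬ, (A ∩ B).Nonempty) (hsh : Shifted ℬ) {j : ℕ} (hj : j ≤ n)
    {A B : Finset (Fin n)} (hA : A ∈ Bj ℬ j) (hB : B ∈ Bj ℬ j) : j + 1 ≤ (A ∩ B).card := by
  rw [mem_Bj] at hA hB
  by_contra hcon
  refine inter_aux hint hsh _ A hA.1 B hB.1 ((univ : Finset (Fin n)).filter (fun i => i.val < j))
    rfl ?_ ?_ ?_
  · rw [Fin.card_filter_val_lt]
    omega
  · intro y hy
    have hy' := (mem_filter.1 hy).2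
    exact ⟨fun h => by have := hA.2 y h; omega, fun h => by have := hB.2 y h; omega⟩
  · intro y hy x hx
    have hy' := (mem_filter.1 hy).2
    have := hA.2 x (mem_inter.1 hx).1
    exact Fin.lt_def.2 (by omega)

/-- (B0) -/
private theorem Bj_le (ℬ : Finset (Finset (Fin n))) (p : Fin n) :
    (Bj ℬ p.val).card ≤ (Cp ℬ p).card + (Bj ℬ (p.val + 1)).card := by
  rw [← card_filter_add_card_filter_not (s := Bj ℬ p.val) (fun A => p ∈ A)]
  refine add_le_add ?_ ?_
  · refine card_le_card_of_injOn (fun A => A.erase p) ?_ ?_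
    · intro A hA
      obtain ⟨h1, h2⟩ := mem_filter.1 (mem_coe.1 hA)
      rw [mem_Bj] at h1
      refine mem_coe.2 (mem_Cp.2 ⟨fun x hx => ?_, ?_⟩)
      · obtain ⟨h3, h4⟩ := mem_erase.1 hx
        have h5 := h1.2 x h4
        have h6 : x.val ≠ p.val := fun h => h3 (Fin.ext h)
        omega
      · simp only
        rw [insert_erase h2]
        exact h1.1
    · intro A hA B hB hAB
      have h2 := (mem_filter.1 (mem_coe.1 hA)).2
      have h3 := (mem_filter.1 (mem_coe.1 hB)).2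
      simp only at hAB
      rw [← insert_erase h2, ← insert_erase h3, hAB]
  · refine card_le_card fun A hA => ?_
    obtain ⟨h1, h2⟩ := mem_filter.1 hA
    rw [mem_Bj] at h1
    refine mem_Bj.2 ⟨h1.1, fun x hx => ?_⟩
    have h5 := h1.2 x hx
    have h6 : x.val ≠ p.val := fun h => h2 (by rw [← Fin.ext h]; exact hx)
    omega

/-- (f), the set inclusion -/
private theorem sh_Bj_ge (ℬ : Finset (Finset (Fin n))) (p : Fin n) (r : ℕ) :
    (sh (r + 1) (Cp ℬ p)).card + (sh r (Cp ℬ p)).card ≤ (sh (r + 1) (Bj ℬ p.val)).card := by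
  have hins : ∀ C ∈ Cp ℬ p, insert p C ∈ Bj ℬ p.val := by
    intro C hC
    obtain ⟨h1, h2⟩ := mem_Cp.1 hC
    refine mem_Bj.2 ⟨h2, fun x hx => ?_⟩
    rcases mem_insert.1 hx with h | h
    · rw [h]
    · have := h1 x h
      omega
  have hnot : ∀ m : ℕ, ∀ X ∈ sh m (Cp ℬ p), p ∉ X := by
    intro m X hX hp
    obtain ⟨_, C, hC, hXC⟩ := g_sh.1 hX
    exact Cp_notMem hC (hXC hp)
  have h1 : (sh r (Cp ℬ p)).card = ((sh r (Cp ℬ p)).image (fun X => insert p X)).card := by
    rw [card_image_of_injOn]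
    intro X hX Y hY hXY
    have h2 := hnot r X (mem_coe.1 hX)
    have h3 := hnot r Y (mem_coe.1 hY)
    simp only at hXY
    rw [← erase_insert h2, ← erase_insert h3, hXY]
  rw [h1, ← card_union_of_disjoint]
  · refine card_le_card fun X hX => ?_
    rcases mem_union.1 hX with h | h
    · obtain ⟨h2, C, hC, hXC⟩ := g_sh.1 h
      exact g_sh.2 ⟨h2, insert p C, hins C hC, hXC.trans (subset_insert p C)⟩
    · obtain ⟨Y, hY, rfl⟩ := mem_image.1 h
      obtain ⟨h2, C, hC, hYC⟩ := g_sh.1 hY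
      refine g_sh.2 ⟨?_, insert p C, hins C hC, insert_subset_insert p hYC⟩
      rw [card_insert_of_notMem (hnot r Y hY), h2]
  · refine disjoint_left.2 fun X hX hX2 => ?_
    obtain ⟨Y, hY, rfl⟩ := mem_image.1 hX2
    exact hnot _ _ hX (mem_insert_self p Y)

/-- (c) -/
private theorem sh_Bj_sub {s : ℕ} {ℬ : Finset (Finset (Fin n))} (hB : ∀ A ∈ ℬ, A.card = s + 1)
    (hsh : Shifted ℬ) (p : Fin n) {r : ℕ} (hr : r ≤ s) :
    sh r (Bj ℬ (p.val + 1)) ⊆ sh r (Cp ℬ p) := by
  intro X hX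
  obtain ⟨h1, A, hA, hXA⟩ := g_sh.1 hX
  rw [mem_Bj] at hA
  have h2 : (A \ X).Nonempty := by
    rw [← card_pos, card_sdiff_of_subset hXA, hB A hA.1]
    omega
  obtain ⟨y, hy⟩ := h2
  obtain ⟨hyA, hyX⟩ := mem_sdiff.1 hy
  have hpy : p < y := Fin.lt_def.2 (by have := hA.2 y hyA; omega)
  have hpA : p ∉ A := fun h => by have := hA.2 p h; omega
  refine g_sh.2 ⟨h1, A.erase y, mem_Cp.2 ⟨fun x hx => hA.2 x (mem_erase.1 hx).2,
    hsh A hA.1 p y hpy hyA hpA⟩, fun x hx => mem_erase.2 ⟨fun h => hyX (h ▸ hx), hXA hx⟩⟩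

/-- the shadow of a uniform family in its own rank -/
private theorem le_sh {α : Type*} [Fintype α] [DecidableEq α] {k : ℕ} {ℬ : Finset (Finset α)}
    (hB : ∀ A ∈ ℬ, A.card = k) : ℬ.card ≤ (sh k ℬ).card :=
  card_le_card fun A hA => g_sh.2 ⟨hB A hA, A, hA, subset_rfl⟩

/-- `|C_j| ≤ |sh (s-j) C_j|` -/
private theorem Cp_le {s : ℕ} {ℬ : Finset (Finset (Fin n))} (hB : ∀ A ∈ ℬ, A.card = s + 1)
    (hint : ∀ A ∈ ℬ, ∀ B ∈ ℬ, (A ∩ B).Nonempty) (hsh : Shifted ℬ) (p : Fin n)
    (hp : p.val ≤ s) : (Cp ℬ p).card ≤ (sh (s - p.val) (Cp ℬ p)).card := by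
  rcases Nat.eq_zero_or_pos p.val with h0 | h0
  · rw [h0, Nat.sub_zero]
    exact le_sh fun C hC => Cp_card hB hC
  · refine kat h0 hp (fun C hC => Cp_card hB hC) fun C hC C' hC' => ?_
    have hins : ∀ C ∈ Cp ℬ p, insert p C ∈ Bj ℬ p.val := by
      intro C hC
      obtain ⟨h1, h2⟩ := mem_Cp.1 hC
      refine mem_Bj.2 ⟨h2, fun x hx => ?_⟩
      rcases mem_insert.1 hx with h | h
      · rw [h]
      · have := h1 x h
        omega
    have h1 := inter_ge hint hsh p.isLt.le (hins C hC) (hins C' hC')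
    rw [← insert_inter_distrib, card_insert_of_notMem] at h1
    · omega
    · exact fun h => Cp_notMem hC (mem_inter.1 h).1

/-- (d) -/
private theorem Bj_le_sh {s : ℕ} {ℬ : Finset (Finset (Fin n))} (hB : ∀ A ∈ ℬ, A.card = s + 1)
    (hint : ∀ A ∈ ℬ, ∀ B ∈ ℬ, (A ∩ B).Nonempty) (hsh : Shifted ℬ) {j : ℕ} (hj : j ≤ s)
    (hn : j ≤ n) : (Bj ℬ j).card ≤ (sh (s - j) (Bj ℬ j)).card := by
  have h := kat (k := s + 1) (t := j + 1) (ℬ := Bj ℬ j) (by omega) (by omega)
    (fun A hA => hB A (mem_Bj.1 hA).1) (fun A hA B hB' => inter_ge hint hsh hn hA hB')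
  rwa [show s + 1 - (j + 1) = s - j by omega] at h

/-- the chain of gains -/
private theorem chain_step {s : ℕ} {ℬ : Finset (Finset (Fin n))} (hB : ∀ A ∈ ℬ, A.card = s + 1)
    (hint : ∀ A ∈ ℬ, ∀ B ∈ ℬ, (A ∩ B).Nonempty) (hsh : Shifted ℬ) (p : Fin n)
    (hp : p.val + 1 ≤ s) :
    (sh (s - (p.val + 1)) (Cp ℬ p)).card + (Bj ℬ p.val).card ≤
      (sh (s - p.val) (Bj ℬ p.val)).card + (Bj ℬ (p.val + 1)).card := by
  have h1 := sh_Bj_ge ℬ p (s - (p.val + 1))
  rw [show s - (p.val + 1) + 1 = s - p.val by omega] at h1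
  have h2 := Cp_le hB hint hsh p (by omega)
  have h3 := Bj_le ℬ p
  omega

/-- (g) -/
private theorem ratio_step {s : ℕ} {ℬ : Finset (Finset (Fin n))}
    (hsh : Shifted ℬ) (p : Fin n) (hp : p.val + 1 ≤ s) :
    (sh (s - p.val) (Bj ℬ p.val)).card * (s - p.val) ≤
      (sh (s - (p.val + 1)) (Cp ℬ p)).card * (n - p.val) := by
  set E := sh (s - p.val) (Bj ℬ p.val) with hE
  have hEp : (E.filter (fun X => p ∈ X)).card ≤ (sh (s - (p.val + 1)) (Cp ℬ p)).card := by
    refine card_le_card_of_injOn (fun X => X.erase p) ?_ ?_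
    · intro X hX
      obtain ⟨h1, h2⟩ := mem_filter.1 (mem_coe.1 hX)
      obtain ⟨h3, A, hA, hXA⟩ := g_sh.1 h1
      rw [mem_Bj] at hA
      refine mem_coe.2 (g_sh.2 ⟨?_, A.erase p, mem_Cp.2 ⟨fun x hx => ?_, ?_⟩,
        erase_subset_erase p hXA⟩)
      · rw [card_erase_of_mem h2, h3]
        omega
      · obtain ⟨h5, h6⟩ := mem_erase.1 hx
        have h7 := hA.2 x h6
        have h8 : x.val ≠ p.val := fun h => h5 (Fin.ext h)
        omega
      · rw [insert_erase (hXA h2)]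
        exact hA.1
    · intro X hX Y hY hXY
      have h2 := (mem_filter.1 (mem_coe.1 hX)).2
      have h3 := (mem_filter.1 (mem_coe.1 hY)).2
      simp only at hXY
      rw [← insert_erase h2, ← insert_erase h3, hXY]
  have hshift : ∀ X ∈ E, ∀ x ∈ X, p ∉ X → insert p (X.erase x) ∈ E := by
    intro X hX x hx hpX
    obtain ⟨h3, A, hA, hXA⟩ := g_sh.1 hX
    rw [mem_Bj] at hA
    have hpx : p < x := by
      have h5 := hA.2 x (hXA hx)
      have h6 : x.val ≠ p.val := fun h => hpX (by rw [← Fin.ext h]; exact hx)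
      exact Fin.lt_def.2 (by omega)
    have hc : (insert p (X.erase x)).card = s - p.val := by
      rw [card_insert_of_notMem (fun h => hpX (mem_erase.1 h).2), card_erase_of_mem hx, h3]
      omega
    by_cases hpA : p ∈ A
    · refine g_sh.2 ⟨hc, A, mem_Bj.2 hA, insert_subset hpA ((erase_subset _ _).trans hXA)⟩
    · refine g_sh.2 ⟨hc, insert p (A.erase x), mem_Bj.2 ⟨hsh A hA.1 p x hpx (hXA hx) hpA, ?_⟩,
        insert_subset_insert p (erase_subset_erase x hXA)⟩
      intro z hz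
      rcases mem_insert.1 hz with h | h
      · rw [h]
      · exact hA.2 z (mem_erase.1 h).2
  have hpt : ∀ x : Fin n, (E.filter (fun X => x ∈ X)).card ≤
      (E.filter (fun X => p ∈ X)).card := by
    intro x
    refine card_le_card_of_injOn (fun X => if p ∈ X then X else insert p (X.erase x)) ?_ ?_
    · intro X hX
      obtain ⟨h1, h2⟩ := mem_filter.1 (mem_coe.1 hX)
      simp only
      split_ifs with h
      · exact mem_coe.2 (mem_filter.2 ⟨h1, h⟩)
      · exact mem_coe.2 (mem_filter.2 ⟨hshift X h1 x h2 h, mem_insert_self _ _⟩)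
    · intro X hX Y hY hXY
      obtain ⟨_, hxX⟩ := mem_filter.1 (mem_coe.1 hX)
      obtain ⟨_, hxY⟩ := mem_filter.1 (mem_coe.1 hY)
      simp only at hXY
      by_cases hpX : p ∈ X
      · by_cases hpY : p ∈ Y
        · rwa [if_pos hpX, if_pos hpY] at hXY
        · rw [if_pos hpX, if_neg hpY] at hXY
          exfalso
          have hxp : x ≠ p := fun h => hpY (h ▸ hxY)
          rw [hXY] at hxX
          rcases mem_insert.1 hxX with h | h
          · exact hxp h
          · exact (notMem_erase x Y) h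
      · by_cases hpY : p ∈ Y
        · rw [if_neg hpX, if_pos hpY] at hXY
          exfalso
          have hxp : x ≠ p := fun h => hpX (h ▸ hxX)
          rw [← hXY] at hxY
          rcases mem_insert.1 hxY with h | h
          · exact hxp h
          · exact (notMem_erase x X) h
        · rw [if_neg hpX, if_neg hpY] at hXY
          have h1 : X.erase x = Y.erase x := by
            rw [← erase_insert (a := p) (s := X.erase x) (fun h => hpX (mem_erase.1 h).2), hXY,
              erase_insert (fun h => hpY (mem_erase.1 h).2)]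
          rw [← insert_erase hxX, ← insert_erase hxY, h1]
  have hdc := card_mul_le_card_mul (s := E)
    (t := (univ : Finset (Fin n)).filter (fun x => ¬ x.val < p.val)) (fun X x => x ∈ X)
    (m := s - p.val) (n := (E.filter (fun X => p ∈ X)).card) (by
      intro X hX
      obtain ⟨h3, A, hA, hXA⟩ := g_sh.1 hX
      rw [mem_Bj] at hA
      rw [← h3]
      refine card_le_card fun x hx => ?_
      rw [mem_bipartiteAbove]
      exact ⟨mem_filter.2 ⟨mem_univ _, not_lt.2 (hA.2 x (hXA hx))⟩, hx⟩) (by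
      intro x _
      exact hpt x)
  have hcard : ((univ : Finset (Fin n)).filter (fun x => ¬ x.val < p.val)).card = n - p.val := by
    have h1 := card_filter_add_card_filter_not (s := (univ : Finset (Fin n)))
      (fun x => x.val < p.val)
    rw [Fin.card_filter_val_lt, card_univ, Fintype.card_fin] at h1
    have := p.isLt
    omega
  rw [hcard] at hdc
  calc E.card * (s - p.val) ≤ (n - p.val) * (E.filter (fun X => p ∈ X)).card := hdc
    _ ≤ (n - p.val) * (sh (s - (p.val + 1)) (Cp ℬ p)).card := Nat.mul_le_mul_left _ hEp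
    _ = _ := Nat.mul_comm _ _

/-- (h), local LYM for `C_0` -/
private theorem lym_zero {s : ℕ} {ℬ : Finset (Finset (Fin n))} (hB : ∀ A ∈ ℬ, A.card = s + 1)
    (p : Fin n) (hs : 1 ≤ s) :
    (Cp ℬ p).card * s ≤ (sh (s - 1) (Cp ℬ p)).card * (n - s) := by
  refine card_mul_le_card_mul (fun C X => X ⊆ C) (fun C hC => ?_) (fun X hX => ?_)
  · have hc := Cp_card hB hC
    have h1 : (powersetCard (s - 1) C).card = s := by
      rw [card_powersetCard, hc]
      obtain ⟨t, rfl⟩ : ∃ t, s = t + 1 := ⟨s - 1, by omega⟩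
      rw [Nat.add_sub_cancel, Nat.choose_succ_self_right]
    calc s = (powersetCard (s - 1) C).card := h1.symm
      _ ≤ _ := card_le_card fun X hX => by
        obtain ⟨h2, h3⟩ := mem_powersetCard.1 hX
        rw [mem_bipartiteAbove]
        exact ⟨g_sh.2 ⟨h3, C, hC, h2⟩, h2⟩
  · obtain ⟨h3, C0, hC0, hXC0⟩ := g_sh.1 hX
    have hpX : p ∉ X := fun h => Cp_notMem hC0 (hXC0 h)
    have h4 : (((univ : Finset (Fin n)) \ insert p X).image (fun y => insert y X)).card ≤ n - s := by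
      refine card_image_le.trans ?_
      rw [card_sdiff_of_subset (subset_univ _), card_univ, Fintype.card_fin,
        card_insert_of_notMem hpX, h3]
      omega
    refine le_trans (card_le_card fun C hC => ?_) h4
    rw [mem_bipartiteBelow] at hC
    obtain ⟨hC, hXC⟩ := hC
    have hc := Cp_card hB hC
    have h5 : (C \ X).card = 1 := by
      rw [card_sdiff_of_subset hXC, hc, h3]
      omega
    obtain ⟨y, hy⟩ := card_eq_one.1 h5
    have hyC : y ∈ C \ X := by
      rw [hy]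
      exact mem_singleton_self y
    obtain ⟨hy1, hy2⟩ := mem_sdiff.1 hyC
    refine mem_image.2 ⟨y, mem_sdiff.2 ⟨mem_univ _, fun h => ?_⟩, ?_⟩
    · rcases mem_insert.1 h with h | h
      · exact Cp_notMem hC (h ▸ hy1)
      · exact hy2 h
    · rw [← sdiff_union_of_subset hXC, hy]
      ext z
      simp

/-- (h), `|B_1| ≤ |C_0|` -/
private theorem Bj_one_le {s : ℕ} {ℬ : Finset (Finset (Fin n))} (hB : ∀ A ∈ ℬ, A.card = s + 1)
    (hint : ∀ A ∈ ℬ, ∀ B ∈ ℬ, (A ∩ B).Nonempty) (hsh : Shifted ℬ) (p : Fin n) (hp : p.val = 0) :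
    (Bj ℬ 1).card ≤ (Cp ℬ p).card := by
  have h := kat (k := s + 1) (t := 1) (ℬ := Bj ℬ 1) le_rfl (by omega)
    (fun A hA => hB A (mem_Bj.1 hA).1)
    (fun A hA B hB' => (hint A (mem_Bj.1 hA).1 B (mem_Bj.1 hB').1).card_pos)
  rw [Nat.add_sub_cancel] at h
  refine h.trans (card_le_card ?_)
  have h1 := sh_Bj_sub hB hsh p (le_refl s)
  rw [hp, Nat.zero_add] at h1
  refine h1.trans fun X hX => ?_
  obtain ⟨h2, C, hC, hXC⟩ := g_sh.1 hX
  rwa [eq_of_subset_of_card_le hXC (by rw [Cp_card hB hC, h2])]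

private theorem cast_choose_step {a b : ℕ} :
    ((a + 1).choose (b + 1) : ℝ) * (b + 1) = (a + 1) * (a.choose b) := by
  have h := Nat.add_one_mul_choose_eq a b
  have h2 : (((a + 1) * a.choose b : ℕ) : ℝ) = ((a + 1).choose (b + 1) * (b + 1) : ℕ) := by
    rw [h]
  push_cast at h2
  linarith

/-- Package F -/
theorem gain_shifted {n s J : ℕ} (hn : 2 * s + 2 ≤ n) (hJ : J + 1 ≤ s)
    {ℬ : Finset (Finset (Fin n))} (hB : ∀ A ∈ ℬ, A.card = s + 1)
    (hint : ∀ A ∈ ℬ, ∀ B ∈ ℬ, (A ∩ B).Nonempty) (hsh : Shifted ℬ) :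
    ((n - 1 - J).choose (s - 1 - J) : ℝ) * (ℬ.card / (2 * n.choose s)) ≤
      2 * ((sh s ℬ).card - ℬ.card) +
        (sh (s - 1 - J) (ℬ.filter (fun A => pre (J + 1) A = 0))).card := by
  set g : ℝ := ((sh s ℬ).card : ℝ) - ℬ.card with hg
  have hB0 : Bj ℬ 0 = ℬ := by
    ext A
    rw [mem_Bj]
    exact ⟨fun h => h.1, fun h => ⟨h, fun x _ => Nat.zero_le _⟩⟩
  -- `gain ≥ |D_j| - |B_{j+1}|`
  have hchain : ∀ j : ℕ, j ≤ s → (((sh (s - j) (Bj ℬ j)).card : ℝ) - (Bj ℬ j).card ≤ g) := by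
    intro j
    induction j with
    | zero =>
      intro _
      rw [hB0, Nat.sub_zero]
    | succ j ih =>
      intro hj
      have h1 := ih (by omega)
      have h2 := chain_step hB hint hsh ⟨j, by omega⟩ (by simpa using hj)
      have h3 := card_le_card (sh_Bj_sub hB hsh (⟨j, by omega⟩ : Fin n) (Nat.sub_le s (j + 1)))
      simp only at h2 h3
      have h4 : ((sh (s - (j + 1)) (Bj ℬ (j + 1))).card : ℝ) + (Bj ℬ j).card ≤
          (sh (s - j) (Bj ℬ j)).card + (Bj ℬ (j + 1)).card := by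
        have : (sh (s - (j + 1)) (Bj ℬ (j + 1))).card + (Bj ℬ j).card ≤
          (sh (s - j) (Bj ℬ j)).card + (Bj ℬ (j + 1)).card := by omega
        exact_mod_cast this
      linarith
  have hD : ∀ j : ℕ, ∀ hj : j < n, j + 1 ≤ s →
      ((sh (s - (j + 1)) (Cp ℬ ⟨j, hj⟩)).card : ℝ) ≤
        g + (sh (s - (j + 1)) (Bj ℬ (j + 1))).card := by
    intro j hj hjs
    have h1 := hchain j (by omega)
    have h2 := chain_step hB hint hsh ⟨j, hj⟩ (by simpa using hjs)
    have h3 := Bj_le_sh hB hint hsh (j := j + 1) hjs (by omega)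
    simp only at h2
    have h4 : ((sh (s - (j + 1)) (Cp ℬ ⟨j, hj⟩)).card : ℝ) + (Bj ℬ j).card ≤
        (sh (s - j) (Bj ℬ j)).card + (Bj ℬ (j + 1)).card := by exact_mod_cast h2
    have h5 : ((Bj ℬ (j + 1)).card : ℝ) ≤ (sh (s - (j + 1)) (Bj ℬ (j + 1))).card := by
      exact_mod_cast h3
    linarith
  have hg0 : 0 ≤ g := by
    have h1 := hchain 1 (by omega)
    have h3 := Bj_le_sh hB hint hsh (j := 1) (by omega) (by omega)
    have h5 : ((Bj ℬ 1).card : ℝ) ≤ (sh (s - 1) (Bj ℬ 1)).card := by exact_mod_cast h3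
    linarith
  have h0n : 0 < n := by omega
  set d0 : ℝ := ((sh (s - 1) (Cp ℬ ⟨0, h0n⟩)).card : ℝ) with hd0
  have hd00 : 0 ≤ d0 := by positivity
  have hC1 : (0 : ℝ) < (n - 1).choose (s - 1) := by
    exact_mod_cast Nat.choose_pos (by omega)
  -- the recursion
  have hrec : ∀ j : ℕ, ∀ hj : j < n, j + 1 ≤ s →
      ((n - 1 - j).choose (s - 1 - j) : ℝ) / (n - 1).choose (s - 1) * d0 ≤
        (sh (s - (j + 1)) (Cp ℬ ⟨j, hj⟩)).card + g := by
    intro j
    induction j with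
    | zero =>
      intro hj _
      rw [Nat.sub_zero, Nat.sub_zero, div_self hC1.ne', one_mul]
      have : d0 = ((sh (s - (0 + 1)) (Cp ℬ ⟨0, hj⟩)).card : ℝ) := rfl
      linarith
    | succ j ih =>
      intro hj hjs
      have h1 := ih (by omega) (by omega)
      have h2 := hD j (by omega) (by omega)
      have h3 := ratio_step (s := s) hsh ⟨j + 1, hj⟩ (by simpa using hjs)
      simp only at h3
      have h4 : ((sh (s - (j + 1)) (Bj ℬ (j + 1))).card : ℝ) * (s - (j + 1) : ℕ) ≤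
          (sh (s - (j + 1 + 1)) (Cp ℬ ⟨j + 1, hj⟩)).card * (n - (j + 1) : ℕ) := by
        exact_mod_cast h3
      have hnj : (0 : ℝ) < ((n - (j + 1) : ℕ) : ℝ) := by
        exact_mod_cast (show 0 < n - (j + 1) by omega)
      set r : ℝ := ((s - (j + 1) : ℕ) : ℝ) / ((n - (j + 1) : ℕ) : ℝ) with hr
      have hr0 : 0 ≤ r := by positivity
      have hr1 : r ≤ 1 / 2 := by
        rw [hr, div_le_iff₀ hnj]
        have : 2 * (s - (j + 1)) ≤ n - (j + 1) := by omega
        have h5 : (2 : ℝ) * ((s - (j + 1) : ℕ) : ℝ) ≤ ((n - (j + 1) : ℕ) : ℝ) := by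
          exact_mod_cast this
        linarith
      have h6 : r * (sh (s - (j + 1)) (Bj ℬ (j + 1))).card ≤
          (sh (s - (j + 1 + 1)) (Cp ℬ ⟨j + 1, hj⟩)).card := by
        rw [hr, div_mul_eq_mul_div, div_le_iff₀ hnj]
        linarith
      have h7 : ((n - 1 - (j + 1)).choose (s - 1 - (j + 1)) : ℝ) =
          r * (n - 1 - j).choose (s - 1 - j) := by
        obtain ⟨b, hb⟩ : ∃ b, s - 1 - j = b + 1 := ⟨s - 1 - j - 1, by omega⟩
        obtain ⟨a, ha⟩ : ∃ a, n - 1 - j = a + 1 := ⟨n - 1 - j - 1, by omega⟩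
        have e1 : n - 1 - (j + 1) = a := by omega
        have e2 : s - 1 - (j + 1) = b := by omega
        have e3 : n - (j + 1) = a + 1 := by omega
        have e4 : s - (j + 1) = b + 1 := by omega
        rw [hr, e1, e2, e3, e4, ha, hb, div_mul_eq_mul_div, eq_div_iff (by positivity)]
        push_cast
        have := cast_choose_step (a := a) (b := b)
        linarith
      rw [h7]
      have h8 := mul_le_mul_of_nonneg_left h1 hr0
      have h9 := mul_le_mul_of_nonneg_left h2 hr0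
      have h10 : r * g ≤ 1 / 2 * g := mul_le_mul_of_nonneg_right hr1 hg0
      calc r * ((n - 1 - j).choose (s - 1 - j) : ℝ) / (n - 1).choose (s - 1) * d0
          = r * (((n - 1 - j).choose (s - 1 - j) : ℝ) / (n - 1).choose (s - 1) * d0) := by ring
        _ ≤ r * ((sh (s - (j + 1)) (Cp ℬ ⟨j, by omega⟩)).card + g) := h8
        _ = r * (sh (s - (j + 1)) (Cp ℬ ⟨j, by omega⟩)).card + r * g := by ring
        _ ≤ r * (g + (sh (s - (j + 1)) (Bj ℬ (j + 1))).card) + r * g := by linarith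
        _ ≤ _ := by linarith
  have hfin := hrec J (by omega) hJ
  have hDJ := hD J (by omega) hJ
  have hsJ : s - 1 - J = s - (J + 1) := by omega
  have hl := lym_zero hB (⟨0, h0n⟩ : Fin n) (by omega)
  have hl' : ((Cp ℬ ⟨0, h0n⟩).card : ℝ) * s ≤ d0 * (n - s : ℕ) := by
    rw [hd0]
    exact_mod_cast hl
  have hb1 := Bj_one_le hB hint hsh ⟨0, h0n⟩ rfl
  have hb2 := Bj_le ℬ (⟨0, h0n⟩ : Fin n)
  simp only [Nat.zero_add] at hb2
  rw [hB0] at hb2
  have hb3 : (ℬ.card : ℝ) ≤ 2 * (Cp ℬ ⟨0, h0n⟩).card := by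
    have : ℬ.card ≤ 2 * (Cp ℬ ⟨0, h0n⟩).card := by omega
    exact_mod_cast this
  have hN : (0 : ℝ) < n.choose s := by exact_mod_cast Nat.choose_pos (by omega)
  have hs0 : (0 : ℝ) < s := by exact_mod_cast (show 0 < s by omega)
  -- `(n - s) C(n-1, s-1) = s C(n-1, s) ≤ s C(n, s)`
  have hcc : ((n - s : ℕ) : ℝ) * (n - 1).choose (s - 1) ≤ s * n.choose s := by
    have h1 := Nat.choose_succ_right_eq (n - 1) (s - 1)
    rw [show s - 1 + 1 = s by omega, show n - 1 - (s - 1) = n - s by omega] at h1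
    have h2 : (n - 1).choose s ≤ n.choose s := Nat.choose_le_choose s (by omega)
    have h3 : (n - s) * (n - 1).choose (s - 1) ≤ s * n.choose s := by
      calc (n - s) * (n - 1).choose (s - 1) = (n - 1).choose s * s := by rw [h1, Nat.mul_comm]
        _ ≤ n.choose s * s := Nat.mul_le_mul_right _ h2
        _ = _ := Nat.mul_comm _ _
    exact_mod_cast h3
  have hkey : (ℬ.card : ℝ) / (2 * n.choose s) * (n - 1).choose (s - 1) ≤ d0 := by
    rw [div_mul_eq_mul_div, div_le_iff₀ (by positivity)]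
    have h1 : (ℬ.card : ℝ) * s ≤ 2 * (d0 * (n - s : ℕ)) := by nlinarith
    have h2 : (ℬ.card : ℝ) * s * (n - 1).choose (s - 1) ≤
        2 * (d0 * (n - s : ℕ)) * (n - 1).choose (s - 1) :=
      mul_le_mul_of_nonneg_right h1 hC1.le
    have h3 : d0 * (((n - s : ℕ) : ℝ) * (n - 1).choose (s - 1)) ≤ d0 * (s * n.choose s) :=
      mul_le_mul_of_nonneg_left hcc hd00
    have h4 : s * ((ℬ.card : ℝ) * (n - 1).choose (s - 1)) ≤ s * (d0 * (2 * n.choose s)) := by
      nlinarith
    exact le_of_mul_le_mul_left h4 hs0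
  have hcoef : (0 : ℝ) ≤ ((n - 1 - J).choose (s - 1 - J) : ℝ) / (n - 1).choose (s - 1) := by
    positivity
  have h1 := mul_le_mul_of_nonneg_left hkey hcoef
  have h2 : ((n - 1 - J).choose (s - 1 - J) : ℝ) / (n - 1).choose (s - 1) *
      ((ℬ.card : ℝ) / (2 * n.choose s) * (n - 1).choose (s - 1)) =
      ((n - 1 - J).choose (s - 1 - J) : ℝ) * (ℬ.card / (2 * n.choose s)) := by
    field_simp
  rw [h2] at h1
  rw [hsJ] at h1 hfin ⊢
  have h3 : (ℬ.filter (fun A => pre (J + 1) A = 0)) = Bj ℬ (J + 1) := rfl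
  rw [h3]
  linarith

end Pool.Agent.OddLin
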