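import Pool.Agent.OddLin.Defs

/-! # MP_f155e9_co, odd diameter, linear range: simultaneous shifting -/

set_option autoImplicit false

namespace Pool.Agent.OddLin

open Finset Pool.Agent.OddDiam
open UV
open scoped FinsetFamily

variable {n : ℕ}

/-- the measure which shifting decreases -/
private def me (𝒜 : Finset (Finset (Fin n))) : ℕ := ∑ A ∈ 𝒜, ∑ a ∈ A, 2 ^ (a : ℕ)

private theorem compress_eq {i j : Fin n} (hij : i ≠ j) (A : Finset (Fin n)) :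
    compress {i} {j} A = if i ∉ A ∧ j ∈ A then insert i (A.erase j) else A := by
  unfold compress
  by_cases h : i ∉ A ∧ j ∈ A
  · rw [if_pos h, if_pos]
    · ext x
      simp only [Finset.sup_eq_union, Finset.mem_sdiff, Finset.mem_union, Finset.mem_singleton,
        Finset.mem_insert, Finset.mem_erase]
      constructor
      · rintro ⟨h1 | h1, h2⟩
        · exact Or.inr ⟨h2, h1⟩
        · exact Or.inl h1
      · rintro (h1 | h1)
        · exact ⟨Or.inr h1, fun h2 => hij (h1.symm.trans h2)⟩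
        · exact ⟨Or.inl h1.2, h1.1⟩
    · exact ⟨Finset.disjoint_singleton_left.2 h.1, Finset.singleton_subset_iff.2 h.2⟩
  · rw [if_neg h, if_neg]
    rintro ⟨h1, h2⟩
    exact h ⟨Finset.disjoint_singleton_left.1 h1, Finset.singleton_subset_iff.1 h2⟩

private theorem me_lt {i j : Fin n} (hij : i < j) {𝒜 : Finset (Finset (Fin n))}
    (a : 𝓒 {i} {j} 𝒜 ≠ 𝒜) : me (𝓒 {i} {j} 𝒜) < me 𝒜 := by
  rw [compression] at a ⊢
  have q : ∀ Q ∈ {A ∈ 𝒜 | compress {i} {j} A ∉ 𝒜}, compress {i} {j} Q ≠ Q := by grind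
  have uA : {A ∈ 𝒜 | compress {i} {j} A ∈ 𝒜} ∪ {A ∈ 𝒜 | compress {i} {j} A ∉ 𝒜} = 𝒜 :=
    filter_union_filter_not_eq _ _
  have ne₂ : {A ∈ 𝒜 | compress {i} {j} A ∉ 𝒜}.Nonempty := by
    contrapose! a
    rw [filter_image, a, image_empty, union_empty]
    rwa [a, union_empty] at uA
  rw [me, me, sum_union compress_disjoint]
  conv_rhs => rw [← uA]
  rw [sum_union (disjoint_filter_filter_not _ _ _), add_lt_add_iff_left, filter_image,
    sum_image compress_injOn]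
  refine sum_lt_sum_of_nonempty ne₂ fun A hA ↦ ?_
  have h1 := q _ hA
  rw [compress_eq hij.ne] at h1 ⊢
  split_ifs at h1 ⊢ with h2
  · rw [sum_insert (fun h => h2.1 (mem_of_mem_erase h)),
      ← add_sum_erase A (fun a : Fin n => 2 ^ (a : ℕ)) h2.2, add_lt_add_iff_right]
    exact Nat.pow_lt_pow_right (by norm_num) hij
  · exact absurd rfl h1

private theorem me_le {i j : Fin n} (hij : i < j) (𝒜 : Finset (Finset (Fin n))) :
    me (𝓒 {i} {j} 𝒜) ≤ me 𝒜 := by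
  by_cases h : 𝓒 {i} {j} 𝒜 = 𝒜
  · rw [h]
  · exact (me_lt hij h).le

private theorem exists_pair {𝒜 : Finset (Finset (Fin n))} (h : ¬ Shifted 𝒜) :
    ∃ i j : Fin n, i < j ∧ 𝓒 {i} {j} 𝒜 ≠ 𝒜 := by
  unfold Shifted at h
  push Not at h
  obtain ⟨A, hA, i, j, hij, hj, hi, hne⟩ := h
  refine ⟨i, j, hij, fun heq => hne ?_⟩
  have h1 : compress {i} {j} A ∈ 𝓒 {i} {j} 𝒜 := compress_mem_compression hA
  rw [compress_eq hij.ne, if_pos ⟨hi, hj⟩, heq] at h1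
  exact h1

private theorem moved {i j : Fin n} (hij : i ≠ j) {𝒜 : Finset (Finset (Fin n))}
    {A : Finset (Fin n)} (h : A ∉ 𝒜) (h2 : ∃ b ∈ 𝒜, compress {i} {j} b = A) :
    ∃ b ∈ 𝒜, i ∉ b ∧ j ∈ b ∧ A = insert i (b.erase j) := by
  obtain ⟨b, hb, he⟩ := h2
  rw [compress_eq hij] at he
  split_ifs at he with h3
  · exact ⟨b, hb, h3.1, h3.2, he.symm⟩
  · exact absurd (he ▸ hb) h

private theorem inter_both {i j : Fin n} {A B : Finset (Fin n)} (hA : i ∉ A)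
    (hjA : j ∈ A) (hjB : j ∈ B) :
    (insert i (A.erase j) ∩ insert i (B.erase j)).card = (A ∩ B).card := by
  have h1 : insert i (A.erase j) ∩ insert i (B.erase j) = insert i ((A ∩ B).erase j) := by
    ext x
    simp only [mem_inter, mem_insert, mem_erase]
    tauto
  rw [h1, card_insert_of_notMem, card_erase_of_mem (mem_inter.2 ⟨hjA, hjB⟩)]
  · have : 0 < (A ∩ B).card := card_pos.2 ⟨j, mem_inter.2 ⟨hjA, hjB⟩⟩
    omega
  · intro h
    exact hA (mem_inter.1 (mem_of_mem_erase h)).1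

private theorem inter_one {e : ℕ} {i j : Fin n} {A B : Finset (Fin n)}
    (hA : i ∉ A) (hjA : j ∈ A) (h1 : e ≤ (A ∩ B).card)
    (h2 : i ∉ B → j ∈ B → e ≤ (A ∩ insert i (B.erase j)).card) :
    e ≤ (insert i (A.erase j) ∩ B).card := by
  by_cases hj : j ∈ B
  · by_cases hi : i ∈ B
    · have h3 : insert i (A.erase j) ∩ B = insert i ((A ∩ B).erase j) := by
        ext x
        simp only [mem_inter, mem_insert, mem_erase]
        constructor
        · tauto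
        · rintro (rfl | h)
          · exact ⟨Or.inl rfl, hi⟩
          · tauto
      rw [h3, card_insert_of_notMem, card_erase_of_mem (mem_inter.2 ⟨hjA, hj⟩)]
      · omega
      · intro h
        exact hA (mem_inter.1 (mem_of_mem_erase h)).1
    · have h3 : A ∩ insert i (B.erase j) = insert i (A.erase j) ∩ B := by
        ext x
        simp only [mem_inter, mem_insert, mem_erase]
        constructor
        · rintro ⟨ha, h | h⟩
          · exact absurd (h ▸ ha) hA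
          · exact ⟨Or.inr ⟨h.1, ha⟩, h.2⟩
        · rintro ⟨h | h, hb⟩
          · exact absurd (h ▸ hb) hi
          · exact ⟨h.2, Or.inr ⟨h.1, hb⟩⟩
      rw [← h3]
      exact h2 hi hj
  · refine h1.trans (card_le_card ?_)
    intro x hx
    rw [mem_inter] at hx ⊢
    exact ⟨mem_insert_of_mem (mem_erase.2 ⟨fun h => hj (h ▸ hx.2), hx.1⟩), hx.2⟩

private theorem cross {e : ℕ} {i j : Fin n} (hij : i ≠ j) {𝒜 ℬ : Finset (Finset (Fin n))}
    (hc : ∀ A ∈ 𝒜, ∀ B ∈ ℬ, e ≤ (A ∩ B).card) :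
    ∀ A ∈ 𝓒 {i} {j} 𝒜, ∀ B ∈ 𝓒 {i} {j} ℬ, e ≤ (A ∩ B).card := by
  intro A hA B hB
  rw [mem_compression] at hA hB
  have hcomp : ∀ {𝒟 : Finset (Finset (Fin n))} {D : Finset (Fin n)},
      compress {i} {j} D ∈ 𝒟 → i ∉ D → j ∈ D → insert i (D.erase j) ∈ 𝒟 := by
    intro 𝒟 D h hi hj
    rwa [compress_eq hij, if_pos ⟨hi, hj⟩] at h
  rcases hA with ⟨hA, hA2⟩ | ⟨hA, hA2⟩
  · rcases hB with ⟨hB, hB2⟩ | ⟨hB, hB2⟩
    · exact hc A hA B hB
    · obtain ⟨b, hb, hi, hj, rfl⟩ := moved hij hB hB2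
      rw [inter_comm]
      refine inter_one hi hj (by rw [inter_comm]; exact hc A hA b hb) (fun h1 h2 => ?_)
      rw [inter_comm]
      exact hc _ (hcomp hA2 h1 h2) b hb
  · obtain ⟨a, ha, hi, hj, rfl⟩ := moved hij hA hA2
    rcases hB with ⟨hB, hB2⟩ | ⟨hB, hB2⟩
    · exact inter_one hi hj (hc a ha B hB) (fun h1 h2 => hc a ha _ (hcomp hB2 h1 h2))
    · obtain ⟨b, hb, hi', hj', rfl⟩ := moved hij hB hB2
      rw [inter_both hi hj hj']
      exact hc a ha b hb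

private theorem size_comp {k : ℕ} {i j : Fin n} {𝒜 : Finset (Finset (Fin n))}
    (hA : ∀ A ∈ 𝒜, A.card = k) : ∀ A ∈ 𝓒 {i} {j} 𝒜, A.card = k := by
  intro A hA'
  rw [mem_compression] at hA'
  rcases hA' with ⟨h, _⟩ | ⟨_, b, hb, rfl⟩
  · exact hA A h
  · rw [card_compress (by simp)]
    exact hA b hb

/-- Package A1 -/
theorem exists_shifted_pair {n a b e : ℕ} (𝒜 ℬ : Finset (Finset (Fin n)))
    (hA : ∀ A ∈ 𝒜, A.card = a) (hB : ∀ B ∈ ℬ, B.card = b)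
    (hc : ∀ A ∈ 𝒜, ∀ B ∈ ℬ, e ≤ (A ∩ B).card) :
    ∃ 𝒜' ℬ' : Finset (Finset (Fin n)), 𝒜'.card = 𝒜.card ∧ ℬ'.card = ℬ.card ∧
      (∀ A ∈ 𝒜', A.card = a) ∧ (∀ B ∈ ℬ', B.card = b) ∧
      (∀ A ∈ 𝒜', ∀ B ∈ ℬ', e ≤ (A ∩ B).card) ∧ Shifted 𝒜' ∧ Shifted ℬ' := by
  have key : ∀ m : ℕ, ∀ 𝒜 ℬ : Finset (Finset (Fin n)), me 𝒜 + me ℬ ≤ m →
      (∀ A ∈ 𝒜, A.card = a) → (∀ B ∈ ℬ, B.card = b) →
      (∀ A ∈ 𝒜, ∀ B ∈ ℬ, e ≤ (A ∩ B).card) →
      ∃ 𝒜' ℬ' : Finset (Finset (Fin n)), 𝒜'.card = 𝒜.card ∧ ℬ'.card = ℬ.card ∧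
      (∀ A ∈ 𝒜', A.card = a) ∧ (∀ B ∈ ℬ', B.card = b) ∧
      (∀ A ∈ 𝒜', ∀ B ∈ ℬ', e ≤ (A ∩ B).card) ∧ Shifted 𝒜' ∧ Shifted ℬ' := by
    intro m
    induction m with
    | zero =>
      intro 𝒜 ℬ hm hA hB hc
      by_cases h : Shifted 𝒜 ∧ Shifted ℬ
      · exact ⟨𝒜, ℬ, rfl, rfl, hA, hB, hc, h.1, h.2⟩
      · exfalso
        rw [not_and_or] at h
        rcases h with h | h
        · obtain ⟨i, j, hij, hne⟩ := exists_pair h
          have := me_lt hij hne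
          omega
        · obtain ⟨i, j, hij, hne⟩ := exists_pair h
          have := me_lt hij hne
          omega
    | succ m ih =>
      intro 𝒜 ℬ hm hA hB hc
      by_cases h : Shifted 𝒜 ∧ Shifted ℬ
      · exact ⟨𝒜, ℬ, rfl, rfl, hA, hB, hc, h.1, h.2⟩
      · have h1 : ∃ i j : Fin n, i < j ∧
            me (𝓒 {i} {j} 𝒜) + me (𝓒 {i} {j} ℬ) < me 𝒜 + me ℬ := by
          rw [not_and_or] at h
          rcases h with h | h
          · obtain ⟨i, j, hij, hne⟩ := exists_pair h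
            exact ⟨i, j, hij, add_lt_add_of_lt_of_le (me_lt hij hne) (me_le hij ℬ)⟩
          · obtain ⟨i, j, hij, hne⟩ := exists_pair h
            exact ⟨i, j, hij, add_lt_add_of_le_of_lt (me_le hij 𝒜) (me_lt hij hne)⟩
        obtain ⟨i, j, hij, hlt⟩ := h1
        obtain ⟨𝒜', ℬ', h2, h3, h4⟩ := ih (𝓒 {i} {j} 𝒜) (𝓒 {i} {j} ℬ) (by omega)
          (size_comp hA) (size_comp hB) (cross hij.ne hc)
        refine ⟨𝒜', ℬ', ?_, ?_, h4⟩
        · rw [h2, card_compression]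
        · rw [h3, card_compression]
  exact key _ 𝒜 ℬ le_rfl hA hB hc

private theorem sh_eq_shadow {k : ℕ} {𝒜 : Finset (Finset (Fin n))}
    (hA : ∀ A ∈ 𝒜, A.card = k + 1) : sh k 𝒜 = ∂ 𝒜 := by
  ext T
  rw [sh, mem_filter, mem_powersetCard_univ, mem_shadow_iff_exists_mem_card_add_one]
  constructor
  · rintro ⟨hT, A, hA', hTA⟩
    exact ⟨A, hA', hTA, by rw [hA A hA', hT]⟩
  · rintro ⟨A, hA', hTA, hc⟩
    rw [hA A hA'] at hc
    exact ⟨by omega, A, hA', hTA⟩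

/-- Package A2 -/
theorem exists_shifted_one {n k : ℕ} (𝒜 : Finset (Finset (Fin n)))
    (hA : ∀ A ∈ 𝒜, A.card = k + 1) (hint : ∀ A ∈ 𝒜, ∀ B ∈ 𝒜, (A ∩ B).Nonempty) :
    ∃ 𝒜' : Finset (Finset (Fin n)), 𝒜'.card = 𝒜.card ∧ (∀ A ∈ 𝒜', A.card = k + 1) ∧
      (∀ A ∈ 𝒜', ∀ B ∈ 𝒜', (A ∩ B).Nonempty) ∧ Shifted 𝒜' ∧
      (sh k 𝒜').card ≤ (sh k 𝒜).card := by
  have key : ∀ m : ℕ, ∀ 𝒜 : Finset (Finset (Fin n)), me 𝒜 ≤ m →
      (∀ A ∈ 𝒜, A.card = k + 1) → (∀ A ∈ 𝒜, ∀ B ∈ 𝒜, 1 ≤ (A ∩ B).card) →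
      ∃ 𝒜' : Finset (Finset (Fin n)), 𝒜'.card = 𝒜.card ∧ (∀ A ∈ 𝒜', A.card = k + 1) ∧
      (∀ A ∈ 𝒜', ∀ B ∈ 𝒜', 1 ≤ (A ∩ B).card) ∧ Shifted 𝒜' ∧
      (sh k 𝒜').card ≤ (sh k 𝒜).card := by
    intro m
    induction m with
    | zero =>
      intro 𝒜 hm hA hc
      by_cases h : Shifted 𝒜
      · exact ⟨𝒜, rfl, hA, hc, h, le_rfl⟩
      · exfalso
        obtain ⟨i, j, hij, hne⟩ := exists_pair h
        have := me_lt hij hne
        omega
    | succ m ih =>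
      intro 𝒜 hm hA hc
      by_cases h : Shifted 𝒜
      · exact ⟨𝒜, rfl, hA, hc, h, le_rfl⟩
      · obtain ⟨i, j, hij, hne⟩ := exists_pair h
        have hlt := me_lt hij hne
        obtain ⟨𝒜', h2, h3, h4, h5, h6⟩ := ih (𝓒 {i} {j} 𝒜) (by omega)
          (size_comp hA) (cross hij.ne hc)
        refine ⟨𝒜', ?_, h3, h4, h5, h6.trans ?_⟩
        · rw [h2, card_compression]
        · rw [sh_eq_shadow hA, sh_eq_shadow (size_comp hA)]
          refine card_shadow_compression_le _ _ (fun x hx => ⟨j, mem_singleton_self _, ?_⟩)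
          rw [mem_singleton] at hx
          subst hx
          rw [erase_singleton, erase_singleton]
          exact isCompressed_self _ _
  obtain ⟨𝒜', h2, h3, h4, h5, h6⟩ := key _ 𝒜 le_rfl hA
    (fun A hA' B hB' => card_pos.2 (hint A hA' B hB'))
  exact ⟨𝒜', h2, h3, fun A hA' B hB' => card_pos.1 (h4 A hA' B hB'), h5, h6⟩

end Pool.Agent.OddLin
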