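import Mathlib

/-! # MP_f155e9_co, odd diameter, linear range: symmetric real matrices -/

set_option autoImplicit false

namespace Pool.Agent.OddLin

open Finset

/-- spectral decomposition in coordinates -/
theorem spec_coord {ι : Type*} [Fintype ι] [DecidableEq ι] (A : Matrix ι ι ℝ)
    (hA : A.IsHermitian) :
    ∃ (lam : ι → ℝ) (v : ι → ι → ℝ), (∑ k, lam k = ∑ i, A i i) ∧
      (∑ k, lam k ^ 2 = ∑ i, ∑ j, A i j ^ 2) ∧
      ∀ Y : ι → ℝ, (∑ i, Y i * ∑ j, A i j * Y j = ∑ k, lam k * (∑ i, v k i * Y i) ^ 2) ∧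
        (∑ i, Y i ^ 2 = ∑ k, (∑ i, v k i * Y i) ^ 2) := by
  classical
  set U : Matrix ι ι ℝ := (hA.eigenvectorUnitary : Matrix ι ι ℝ) with hU
  set lam : ι → ℝ := hA.eigenvalues with hlam
  have hA1 : A = U * Matrix.diagonal lam * U.transpose := by
    have h := hA.spectral_theorem
    rw [Unitary.conjStarAlgAut_apply] at h
    exact h
  have hUU : U * U.transpose = 1 := by
    have h := Unitary.coe_mul_star_self hA.eigenvectorUnitary
    exact h
  have hUU' : U.transpose * U = 1 := by
    have h := Unitary.coe_star_mul_self hA.eigenvectorUnitary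
    exact h
  have e1 : ∀ i j, A i j = ∑ k, U i k * lam k * U j k := by
    intro i j
    conv_lhs => rw [hA1]
    rw [Matrix.mul_apply]
    refine sum_congr rfl fun k _ => ?_
    rw [Matrix.mul_diagonal, Matrix.transpose_apply]
  have e2 : ∀ i j, ∑ k, U i k * U j k = if i = j then 1 else 0 := by
    intro i j
    have h := congrFun (congrFun hUU i) j
    rw [Matrix.mul_apply, Matrix.one_apply] at h
    exact h
  have e3 : ∀ k l, ∑ i, U i k * U i l = if k = l then 1 else 0 := by
    intro k l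
    have h := congrFun (congrFun hUU' k) l
    rw [Matrix.mul_apply, Matrix.one_apply] at h
    exact h
  refine ⟨lam, fun k i => U i k, ?_, ?_, fun Y => ⟨?_, ?_⟩⟩
  · simp_rw [e1]
    rw [sum_comm]
    refine sum_congr rfl fun k _ => ?_
    have h := e3 k k
    rw [if_pos rfl] at h
    calc lam k = lam k * ∑ i, U i k * U i k := by rw [h, mul_one]
      _ = _ := by
        rw [mul_sum]
        exact sum_congr rfl fun i _ => by ring
  · have h1 : ∀ i j, A i j ^ 2 = ∑ k, ∑ l, lam k * lam l * ((U i k * U i l) * (U j k * U j l)) := by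
      intro i j
      rw [sq, e1, sum_mul_sum]
      exact sum_congr rfl fun k _ => sum_congr rfl fun l _ => by ring
    have h2 : ∑ i, ∑ j, A i j ^ 2 =
        ∑ k, ∑ l, lam k * lam l * ((∑ i, U i k * U i l) * (∑ j, U j k * U j l)) := by
      simp_rw [h1, sum_mul_sum, mul_sum]
      rw [sum_comm]
      calc ∑ j, ∑ i, ∑ k, ∑ l, lam k * lam l * (U i k * U i l * (U j k * U j l))
          = ∑ j, ∑ k, ∑ i, ∑ l, lam k * lam l * (U i k * U i l * (U j k * U j l)) :=
            sum_congr rfl fun j _ => sum_comm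
        _ = ∑ k, ∑ j, ∑ i, ∑ l, lam k * lam l * (U i k * U i l * (U j k * U j l)) := sum_comm
        _ = ∑ k, ∑ j, ∑ l, ∑ i, lam k * lam l * (U i k * U i l * (U j k * U j l)) :=
            sum_congr rfl fun k _ => sum_congr rfl fun j _ => sum_comm
        _ = ∑ k, ∑ l, ∑ j, ∑ i, lam k * lam l * (U i k * U i l * (U j k * U j l)) :=
            sum_congr rfl fun k _ => sum_comm
        _ = ∑ k, ∑ l, ∑ i, ∑ j, lam k * lam l * (U i k * U i l * (U j k * U j l)) :=
            sum_congr rfl fun k _ => sum_congr rfl fun l _ => sum_comm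
    rw [h2]
    refine sum_congr rfl fun k _ => ?_
    rw [sum_eq_single k]
    · rw [e3, if_pos rfl]
      ring
    · intro l _ hl
      rw [e3, if_neg (Ne.symm hl)]
      ring
    · intro h
      exact absurd (mem_univ k) h
  · simp_rw [e1, sq, sum_mul_sum, mul_sum, sum_mul, mul_sum]
    calc ∑ i, ∑ j, ∑ k, Y i * (U i k * lam k * U j k * Y j)
        = ∑ i, ∑ k, ∑ j, Y i * (U i k * lam k * U j k * Y j) :=
          sum_congr rfl fun i _ => sum_comm
      _ = ∑ k, ∑ i, ∑ j, Y i * (U i k * lam k * U j k * Y j) := sum_comm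
      _ = _ := sum_congr rfl fun k _ => sum_congr rfl fun i _ => sum_congr rfl fun j _ => by ring
  · have h1 : ∑ k, (∑ i, U i k * Y i) ^ 2 = ∑ i, ∑ j, Y i * Y j * ∑ k, U i k * U j k := by
      simp_rw [sq, sum_mul_sum, mul_sum]
      calc ∑ k, ∑ i, ∑ j, U i k * Y i * (U j k * Y j)
          = ∑ i, ∑ k, ∑ j, U i k * Y i * (U j k * Y j) := sum_comm
        _ = ∑ i, ∑ j, ∑ k, U i k * Y i * (U j k * Y j) :=
            sum_congr rfl fun i _ => sum_comm
        _ = _ := sum_congr rfl fun i _ => sum_congr rfl fun j _ => sum_congr rfl fun k _ => by ring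
    rw [h1]
    refine sum_congr rfl fun i _ => ?_
    rw [sum_eq_single i]
    · rw [e2, if_pos rfl]
      ring
    · intro j _ hj
      rw [e2, if_neg (Ne.symm hj)]
      ring
    · intro h
      exact absurd (mem_univ i) h

/-- many large eigenvalues -/
theorem spec_many {ι : Type*} [Fintype ι] [DecidableEq ι] (A : Matrix ι ι ℝ)
    (hA : A.IsHermitian) (ω s q : ℝ) (hs : 0 ≤ s) (hω : 2 * ω ≤ s) (hd : ∀ i, A i i = s)
    (hq : ∀ i, ∑ j, A i j ^ 2 ≤ q) :
    ∃ (v : ι → ι → ℝ) (J : Finset ι),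
      s ^ 2 * Fintype.card ι ≤ 4 * q * (Fintype.card ι - J.card) ∧
      ∀ Y : ι → ℝ, (∀ k ∈ J, ∑ i, v k i * Y i = 0) →
        ω * ∑ i, Y i ^ 2 ≤ ∑ i, Y i * ∑ j, A i j * Y j := by
  classical
  obtain ⟨lam, v, h1, h2, h3⟩ := spec_coord A hA
  set J := (univ : Finset ι).filter (fun k => lam k < ω) with hJ
  set I := (univ : Finset ι).filter (fun k => ¬ lam k < ω) with hI
  have hcard : (J.card : ℝ) + I.card = Fintype.card ι := by
    have := card_filter_add_card_filter_not (s := (univ : Finset ι)) (fun k => lam k < ω)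
    rw [card_univ] at this
    exact_mod_cast this
  have hN0 : (0 : ℝ) ≤ Fintype.card ι := by positivity
  refine ⟨v, J, ?_, fun Y hY => ?_⟩
  · have e1 : ∑ k, lam k = s * Fintype.card ι := by
      rw [h1, sum_congr rfl fun i _ => hd i, sum_const, card_univ, nsmul_eq_mul, mul_comm]
    have e2 : ∑ k, lam k ^ 2 ≤ q * Fintype.card ι := by
      rw [h2]
      calc ∑ i, ∑ j, A i j ^ 2 ≤ ∑ _i : ι, q := sum_le_sum fun i _ => hq i
        _ = _ := by rw [sum_const, card_univ, nsmul_eq_mul, mul_comm]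
    have e3 : ∑ k ∈ J, lam k + ∑ k ∈ I, lam k = s * Fintype.card ι := by
      rw [← e1]
      exact sum_filter_add_sum_filter_not _ _ _
    have e4 : ∑ k ∈ J, lam k ≤ s / 2 * Fintype.card ι := by
      calc ∑ k ∈ J, lam k ≤ ∑ _k ∈ J, s / 2 :=
            sum_le_sum fun k hk => by
              have := (mem_filter.1 hk).2
              linarith
        _ = J.card * (s / 2) := by rw [sum_const, nsmul_eq_mul]
        _ ≤ Fintype.card ι * (s / 2) := by
            refine mul_le_mul_of_nonneg_right ?_ (by linarith)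
            have : (0 : ℝ) ≤ I.card := by positivity
            linarith
        _ = _ := by ring
    have e5 : s / 2 * Fintype.card ι ≤ ∑ k ∈ I, lam k := by linarith
    have e6 : (∑ k ∈ I, lam k) ^ 2 ≤ I.card * ∑ k ∈ I, lam k ^ 2 := sq_sum_le_card_mul_sum_sq
    have e7 : ∑ k ∈ I, lam k ^ 2 ≤ q * Fintype.card ι :=
      (sum_le_sum_of_subset_of_nonneg (subset_univ _) fun k _ _ => sq_nonneg _).trans e2
    have e8 : (s / 2 * Fintype.card ι) ^ 2 ≤ I.card * (q * Fintype.card ι) := by
      calc (s / 2 * Fintype.card ι) ^ 2 ≤ (∑ k ∈ I, lam k) ^ 2 :=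
            pow_le_pow_left₀ (by positivity) e5 2
        _ ≤ I.card * ∑ k ∈ I, lam k ^ 2 := e6
        _ ≤ _ := mul_le_mul_of_nonneg_left e7 (by positivity)
    rcases hN0.eq_or_lt with h0 | h0
    · have hI0 : (I.card : ℝ) = 0 := by
        have hJ0 : (0 : ℝ) ≤ J.card := by positivity
        have hI0 : (0 : ℝ) ≤ I.card := by positivity
        linarith
      have hJ0 : (Fintype.card ι : ℝ) - J.card = 0 := by linarith
      rw [hJ0, ← h0]
      simp
    · have e9 : (Fintype.card ι : ℝ) - J.card = I.card := by linarith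
      rw [e9]
      have e10 : (Fintype.card ι : ℝ) * (s ^ 2 * Fintype.card ι) ≤
          Fintype.card ι * (4 * q * I.card) := by nlinarith
      exact le_of_mul_le_mul_left e10 h0
  · obtain ⟨h4, h5⟩ := h3 Y
    rw [h4, h5, mul_sum]
    refine sum_le_sum fun k _ => ?_
    by_cases hk : lam k < ω
    · rw [hY k (mem_filter.2 ⟨mem_univ _, hk⟩)]
      simp
    · exact mul_le_mul_of_nonneg_right (not_lt.1 hk) (sq_nonneg _)

end Pool.Agent.OddLin
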