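import Pool.Agent.OddLin.Spec0
import Pool.Agent.OddDiam.General
import Pool.Agent.OddDiam.Steer

/-! # MP_f155e9_co, odd diameter, linear range: the spectral gain -/

set_option autoImplicit false

namespace Pool.Agent.OddLin

open Finset Quaternion Pool.Agent.OddDiam

variable {α : Type*} [Fintype α] [DecidableEq α]

private lemma sp_sh {s : ℕ} {F : Finset (Finset α)}
    {T : Finset α} : T ∈ sh s F ↔ T.card = s ∧ ∃ A ∈ F, T ⊆ A := by
  unfold sh
  rw [mem_filter, mem_powersetCard]
  exact ⟨fun h => ⟨h.1.2, h.2⟩, fun h => ⟨⟨subset_univ _, h.1⟩, h.2⟩⟩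

/-- number of `t`-sets between `P` and `Q` -/
private lemma sp_between {P Q : Finset α} (h : P ⊆ Q) {t : ℕ} (ht : P.card ≤ t) :
    ((powersetCard t (univ : Finset α)).filter (fun T => P ⊆ T ∧ T ⊆ Q)).card =
      (Q.card - P.card).choose (t - P.card) := by
  rw [← card_sdiff_of_subset h, ← card_powersetCard]
  refine card_bij' (fun T _ => T \ P) (fun T _ => T ∪ P) ?_ ?_ ?_ ?_
  · intro T hT
    simp only [mem_filter, mem_powersetCard, subset_univ, true_and] at hT ⊢
    refine ⟨sdiff_subset_sdiff hT.2.2 (Subset.refl P), ?_⟩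
    rw [card_sdiff_of_subset hT.2.1, hT.1]
  · intro T hT
    simp only [mem_filter, mem_powersetCard, subset_univ, true_and] at hT ⊢
    refine ⟨?_, subset_union_right, union_subset (hT.1.trans sdiff_subset) h⟩
    rw [card_union_of_disjoint, hT.2]
    · omega
    · exact (sdiff_disjoint (s := P) (t := Q)).mono_left hT.1
  · intro T hT
    simp only [mem_filter, mem_powersetCard, subset_univ, true_and] at hT
    exact sdiff_union_of_subset hT.2.1
  · intro T hT
    simp only [mem_powersetCard] at hT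
    rw [union_sdiff_right]
    exact sdiff_eq_self_of_disjoint
      ((sdiff_disjoint (s := P) (t := Q)).mono_left hT.1)

private lemma sp_swap {ι κ : Type*} (P : Finset ι) (Q : Finset κ) (r : ι → κ → Prop)
    [∀ x y, Decidable (r x y)] (φ : ι → ℝ) (ψ : κ → ℝ) :
    ∑ x ∈ P, φ x * ∑ y ∈ Q with r x y, ψ y = ∑ y ∈ Q, (∑ x ∈ P with r x y, φ x) * ψ y := by
  simp only [sum_filter, mul_sum, sum_mul]
  rw [sum_comm]
  refine sum_congr rfl fun y _ => sum_congr rfl fun x _ => ?_
  split_ifs <;> simp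

/-- sum over `U ⊆ T` of sums over `T` -/
private lemma sp_swap1 {ι κ : Type*} (P : Finset ι) (Q : Finset κ) (r : ι → κ → Prop)
    [∀ x y, Decidable (r x y)] (p : ι → Prop) [DecidablePred p] (ψ : κ → ℝ) :
    ∑ x ∈ P with p x, ∑ y ∈ Q with r x y, ψ y =
      ∑ y ∈ Q, ((P.filter (fun x => p x ∧ r x y)).card : ℝ) * ψ y := by
  have h := sp_swap (P.filter p) Q r (fun _ => 1) ψ
  simp only [one_mul, sum_const, nsmul_eq_mul, mul_one, filter_filter] at h
  exact h

private lemma sp_re_sum {ι : Type*} (F : Finset ι) (w : ℍ[ℝ]) (c : ι → ℝ) (q : ι → ℍ[ℝ]) :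
    (star w * ∑ A ∈ F, c A • q A).re = ∑ A ∈ F, (star w * q A).re * c A := by
  rw [mul_sum]
  refine (map_sum (QuaternionAlgebra.reₗ (R := ℝ) (-1) 0 (-1)) _ F).trans
    (sum_congr rfl fun A _ => ?_)
  rw [mul_smul_comm]
  exact mul_comm _ _

private lemma sp_sq_le (w v : ℍ[ℝ]) : (star w * v).re ^ 2 ≤ normSq w * normSq v := by
  have h := Quaternion.normSq_def' (star w * v)
  rw [map_mul, Quaternion.normSq_star] at h
  rw [h]
  nlinarith [sq_nonneg (star w * v).imI, sq_nonneg (star w * v).imJ, sq_nonneg (star w * v).imK]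

/-- the steering argument: no solution except zero -/
private lemma sp_core {s M : ℕ} (hs : 1 ≤ s) {F : Finset (Finset α)}
    (hanti : IsAntichain (· ⊆ ·) (F : Set (Finset α)))
    (hdiam : ∀ A ∈ F, ∀ B ∈ F, (symmDiff A B).card ≤ 2 * s + 1)
    (hlo : ∀ A ∈ F, s + 1 ≤ A.card) (hhi : ∀ A ∈ F, A.card ≤ s + M)
    {a b : ℕ → ℝ} (hab : Unit2 a b) (w : ℍ[ℝ]) (ω : ℝ) (hω0 : 0 < ω)
    (hw : normSq w = ω)
    (hst : ∀ m < M, (star w * X a b 1 m).re = (m : ℝ) + 2)
    (f : Finset α → ℝ)
    (E1 : ω * ∑ T ∈ powersetCard s (univ : Finset α), (∑ A ∈ F with T ⊆ A, f A) ^ 2 ≤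
      ∑ U ∈ powersetCard (s - 1) (univ : Finset α),
        (∑ T ∈ powersetCard s (univ : Finset α) with U ⊆ T, ∑ A ∈ F with T ⊆ A, f A) ^ 2)
    (E3 : ∀ j ∈ Icc 1 (s / 2), ∀ T ∈ powersetCard (s - 2 * j) (univ : Finset α),
      ∑ A ∈ F with T ⊆ A, f A • X a b (2 * j) (A.card - s - 1) = 0) :
    ∀ A ∈ F, f A = 0 := by
  set h : Finset α → ℝ := fun T => ∑ A ∈ F with T ⊆ A, f A with hh
  set G : Finset α → ℝ := fun U => ∑ T ∈ powersetCard s (univ : Finset α) with U ⊆ T, h T with hGd
  set V : Finset α → ℍ[ℝ] := fun U =>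
    ∑ A ∈ F with U ⊆ A, f A • X a b 1 (A.card - s - 1) with hV
  have hGV : ∀ U ∈ powersetCard (s - 1) (univ : Finset α), G U = (star w * V U).re := by
    intro U hU
    rw [mem_powersetCard] at hU
    rw [hGd, hV, sp_re_sum]
    simp only [hh]
    rw [sp_swap1 (powersetCard s (univ : Finset α)) F (fun T A => T ⊆ A) (fun T => U ⊆ T) f,
      sum_filter]
    refine sum_congr rfl fun A hA => ?_
    by_cases hUA : U ⊆ A
    · rw [if_pos hUA, sp_between hUA (by omega), hst _ (by have := hhi A hA; have := hlo A hA; omega)]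
      have e1 : s - U.card = 1 := by omega
      have h1 := hlo A hA
      rw [e1, Nat.choose_one_right, hU.2]
      have e2 : A.card - (s - 1) = (A.card - s - 1) + 2 := by omega
      rw [e2]
      push_cast
      ring
    · rw [if_neg hUA]
      have : (powersetCard s (univ : Finset α)).filter (fun T => U ⊆ T ∧ T ⊆ A) = ∅ := by
        rw [filter_eq_empty_iff]
        rintro T _ ⟨h1, h2⟩
        exact hUA (h1.trans h2)
      rw [this]
      simp
  have hGle : ∑ U ∈ powersetCard (s - 1) (univ : Finset α), G U ^ 2 ≤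
      ω * ∑ U ∈ powersetCard (s - 1) (univ : Finset α), normSq (V U) := by
    rw [mul_sum]
    refine sum_le_sum fun U hU => ?_
    rw [hGV U hU, ← hw]
    exact sp_sq_le w (V U)
  have hTV : ∑ T ∈ powersetCard s (univ : Finset α), h T ^ 2 ≤
      ∑ U ∈ powersetCard (s - 1) (univ : Finset α), normSq (V U) :=
    le_of_mul_le_mul_left (E1.trans hGle) hω0
  have hid := identity hanti hdiam hlo hab f
  have hle : ∑ A ∈ F, f A ^ 2 ≤ ∑ T ∈ powersetCard s (univ : Finset α), h T ^ 2 -
      ∑ U ∈ powersetCard (s - 1) (univ : Finset α), normSq (V U) := by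
    rw [hid]
    have e : s + 1 = (s - 1) + 1 + 1 := by omega
    rw [e, sum_range_succ', sum_range_succ']
    have h0 : (-1 : ℝ) ^ 0 * ∑ T ∈ powersetCard (s - 0) (univ : Finset α),
        normSq (∑ A ∈ F with T ⊆ A, f A • X a b 0 (A.card - s - 1)) =
        ∑ T ∈ powersetCard s (univ : Finset α), h T ^ 2 := by
      rw [pow_zero, one_mul, Nat.sub_zero]
      refine sum_congr rfl fun T _ => ?_
      simp only [X_zero]
      rw [← sum_smul, normSq_smul, map_one, mul_one]
    have h1 : (-1 : ℝ) ^ (0 + 1) * ∑ T ∈ powersetCard (s - (0 + 1)) (univ : Finset α),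
        normSq (∑ A ∈ F with T ⊆ A, f A • X a b (0 + 1) (A.card - s - 1)) =
        - ∑ U ∈ powersetCard (s - 1) (univ : Finset α), normSq (V U) := by
      rw [zero_add, pow_one, neg_one_mul]
    have h2 : ∑ k ∈ range (s - 1), (-1 : ℝ) ^ (k + 1 + 1) *
        ∑ T ∈ powersetCard (s - (k + 1 + 1)) (univ : Finset α),
        normSq (∑ A ∈ F with T ⊆ A, f A • X a b (k + 1 + 1) (A.card - s - 1)) ≤ 0 := by
      refine sum_nonpos fun k hk => ?_
      rw [mem_range] at hk
      rcases Nat.even_or_odd' (k + 1 + 1) with ⟨j, hj | hj⟩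
      · have hz : ∑ T ∈ powersetCard (s - (k + 1 + 1)) (univ : Finset α),
            normSq (∑ A ∈ F with T ⊆ A, f A • X a b (k + 1 + 1) (A.card - s - 1)) = 0 := by
          refine sum_eq_zero fun T hT => ?_
          rw [hj] at hT ⊢
          rw [E3 j (mem_Icc.2 ⟨by omega, by omega⟩) T hT, map_zero]
        rw [hz, mul_zero]
      · rw [Odd.neg_one_pow ⟨j, hj⟩, neg_one_mul]
        exact neg_nonpos.2 (sum_nonneg fun T _ => normSq_nonneg)
    rw [h0, h1]
    linarith
  have hf2 : ∑ A ∈ F, f A ^ 2 = 0 :=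
    le_antisymm (by linarith) (sum_nonneg fun A _ => sq_nonneg _)
  intro A hA
  have := (sum_eq_zero_iff_of_nonneg fun A _ => sq_nonneg (f A)).1 hf2 A hA
  exact pow_eq_zero_iff (two_ne_zero) |>.1 this

private def spC (q : ℍ[ℝ]) : Fin 4 → ℝ := ![q.re, q.imI, q.imJ, q.imK]

private lemma spC_sum {ι : Type*} (F : Finset ι) (c : ι → ℝ) (q : ι → ℍ[ℝ]) (i : Fin 4) :
    spC (∑ A ∈ F, c A • q A) i = ∑ A ∈ F, spC (q A) i * c A := by
  fin_cases i
  · refine (map_sum (QuaternionAlgebra.reₗ (R := ℝ) (-1) 0 (-1)) (fun A => c A • q A) F).trans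
      (sum_congr rfl fun A _ => ?_)
    exact mul_comm _ _
  · refine (map_sum (QuaternionAlgebra.imIₗ (R := ℝ) (-1) 0 (-1)) (fun A => c A • q A) F).trans
      (sum_congr rfl fun A _ => ?_)
    exact mul_comm _ _
  · refine (map_sum (QuaternionAlgebra.imJₗ (R := ℝ) (-1) 0 (-1)) (fun A => c A • q A) F).trans
      (sum_congr rfl fun A _ => ?_)
    exact mul_comm _ _
  · refine (map_sum (QuaternionAlgebra.imKₗ (R := ℝ) (-1) 0 (-1)) (fun A => c A • q A) F).trans
      (sum_congr rfl fun A _ => ?_)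
    exact mul_comm _ _

private lemma spC_zero {q : ℍ[ℝ]} (h : ∀ i, spC q i = 0) : q = 0 :=
  Quaternion.ext q 0 (h 0) (h 1) (h 2) (h 3)

/-- squares of the entries of `D^t D` in a row -/
private lemma sp_row {s : ℕ} (hs : 1 ≤ s) (Sg : Finset (Finset α)) (hSg : ∀ S ∈ Sg, S.card = s)
    (S : Finset α) (hS : S ∈ Sg) :
    ∑ S' ∈ Sg, (((S ∩ S').card.choose (s - 1) : ℕ) : ℝ) ^ 2 ≤ s * Fintype.card α := by
  have hsn : s ≤ Fintype.card α := by
    rw [← hSg S hS]
    exact card_le_univ S
  -- the row sum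
  have h1 : ∑ S' ∈ Sg, (S ∩ S').card.choose (s - 1) ≤ s * (Fintype.card α - (s - 1)) := by
    have e1 : ∀ S' ∈ Sg, (S ∩ S').card.choose (s - 1) =
        ∑ T ∈ powersetCard (s - 1) S, if T ⊆ S' then 1 else 0 := by
      intro S' _
      rw [← card_powersetCard, ← sum_filter, ← card_eq_sum_ones]
      congr 1
      ext T
      simp only [mem_powersetCard, mem_filter, subset_inter_iff]
      tauto
    rw [sum_congr rfl e1, sum_comm]
    have e2 : ∀ T ∈ powersetCard (s - 1) S, (∑ S' ∈ Sg, if T ⊆ S' then 1 else 0) ≤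
        Fintype.card α - (s - 1) := by
      intro T hT
      obtain ⟨hTS, hTc⟩ := mem_powersetCard.1 hT
      rw [← sum_filter, ← card_eq_sum_ones]
      have e3 := sp_between (subset_univ T) (t := s) (by omega)
      rw [card_univ, hTc, show s - (s - 1) = 1 by omega, Nat.choose_one_right] at e3
      rw [← e3]
      refine card_le_card fun S' hS' => ?_
      obtain ⟨h3, h4⟩ := mem_filter.1 hS'
      exact mem_filter.2 ⟨mem_powersetCard.2 ⟨subset_univ _, hSg S' h3⟩, h4, subset_univ _⟩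
    refine (sum_le_sum e2).trans ?_
    rw [sum_const, card_powersetCard, hSg S hS, smul_eq_mul]
    obtain ⟨t, rfl⟩ : ∃ t, s = t + 1 := ⟨s - 1, by omega⟩
    rw [Nat.add_sub_cancel, Nat.choose_succ_self_right]
  have h2 : ∑ S' ∈ Sg, ((S ∩ S').card.choose (s - 1)) ^ 2 ≤
      ∑ S' ∈ Sg, ((S ∩ S').card.choose (s - 1) + if S' = S then (s ^ 2 - s) else 0) := by
    refine sum_le_sum fun S' hS' => ?_
    by_cases hSS : S' = S
    · rw [if_pos hSS, hSS, inter_self, hSg S hS]
      have e : s.choose (s - 1) = s := by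
        obtain ⟨t, rfl⟩ : ∃ t, s = t + 1 := ⟨s - 1, by omega⟩
        rw [Nat.add_sub_cancel, Nat.choose_succ_self_right]
      rw [e]
      have : s ≤ s ^ 2 := Nat.le_self_pow (by norm_num) s
      omega
    · rw [if_neg hSS, Nat.add_zero]
      have h3 : (S ∩ S').card ≤ s - 1 := by
        have h4 : (S ∩ S').card < s := by
          rw [← hSg S hS]
          refine card_lt_card (Finset.ssubset_iff_subset_ne.2 ⟨inter_subset_left, fun h => hSS ?_⟩)
          have h5 : S ⊆ S' := by
            rw [← h]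
            exact inter_subset_right
          exact (eq_of_subset_of_card_le h5 (by rw [hSg S hS, hSg S' hS'])).symm
        omega
      have h4 : (S ∩ S').card.choose (s - 1) ≤ 1 := by
        calc (S ∩ S').card.choose (s - 1) ≤ (s - 1).choose (s - 1) := Nat.choose_le_choose _ h3
          _ = 1 := Nat.choose_self _
      interval_cases ((S ∩ S').card.choose (s - 1)) <;> simp
  rw [sum_add_distrib, sum_ite_eq' Sg S, if_pos hS] at h2
  have h3 : ∑ S' ∈ Sg, ((S ∩ S').card.choose (s - 1)) ^ 2 ≤ s * Fintype.card α := by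
    have e1 : s ≤ s ^ 2 := Nat.le_self_pow (by norm_num) s
    obtain ⟨m, hm⟩ : ∃ m, Fintype.card α = s + m := ⟨Fintype.card α - s, by omega⟩
    have e2 : Fintype.card α - (s - 1) = m + 1 := by omega
    rw [e2] at h1
    rw [hm]
    have e3 : s * (s + m) = s * (m + 1) + (s ^ 2 - s) := by
      have : s ^ 2 - s + s = s ^ 2 := Nat.sub_add_cancel e1
      nlinarith
    omega
  calc ∑ S' ∈ Sg, (((S ∩ S').card.choose (s - 1) : ℕ) : ℝ) ^ 2
      = ((∑ S' ∈ Sg, ((S ∩ S').card.choose (s - 1)) ^ 2 : ℕ) : ℝ) := by push_cast; rfl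
    _ ≤ ((s * Fintype.card α : ℕ) : ℝ) := by exact_mod_cast h3
    _ = _ := by push_cast; rfl

/-- the linear equations -/
private noncomputable def spM (s : ℕ) (a b : ℕ → ℝ) (Sg : Finset (Finset α)) (v : Sg → Sg → ℝ) :
    (Sg ⊕ ((Σ _ : ℕ, Finset α) × Fin 4)) → Finset α → ℝ
  | Sum.inl k, A => ∑ S : Sg, if (S : Finset α) ⊆ A then v k S else 0
  | Sum.inr p, A => if p.1.2 ⊆ A then spC (X a b (2 * p.1.1) (A.card - s - 1)) p.2 else 0

/-- Package H -/
theorem spectral {α : Type*} [Fintype α] [DecidableEq α] {s M : ℕ} (hM : 1 ≤ M)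
    (h2 : 2 * (M + 3) ≤ s) {G : Finset (Finset α)}
    (hanti : IsAntichain (· ⊆ ·) (G : Set (Finset α)))
    (hdiam : ∀ A ∈ G, ∀ B ∈ G, (symmDiff A B).card ≤ 2 * s + 1)
    (hlo : ∀ A ∈ G, s + 1 ≤ A.card) (hhi : ∀ A ∈ G, A.card ≤ s + M) :
    4 * Fintype.card α * G.card + s * (sh s G).card ≤
      4 * Fintype.card α * (sh s G).card +
        16 * Fintype.card α * ∑ j ∈ Icc 1 (s / 2), (Fintype.card α).choose (s - 2 * j) := by
  by_contra hcon
  rw [not_le] at hcon
  have hs1 : 1 ≤ s := by omega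
  set Sg := sh s G with hSg
  have hSc : ∀ S ∈ Sg, S.card = s := fun S hS => (sp_sh.1 hS).1
  set Am : Matrix Sg Sg ℝ := fun S S' =>
    ((((S : Finset α) ∩ S').card.choose (s - 1) : ℕ) : ℝ) with hAm
  have hHerm : Am.IsHermitian := by
    ext S S'
    simp only [Matrix.conjTranspose_apply, hAm, star_trivial]
    rw [inter_comm]
  have hdiag : ∀ S : Sg, Am S S = (s : ℝ) := by
    intro S
    simp only [hAm, inter_self, hSc S S.2]
    obtain ⟨t, rfl⟩ : ∃ t, s = t + 1 := ⟨s - 1, by omega⟩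
    rw [Nat.add_sub_cancel, Nat.choose_succ_self_right]
  have hrow : ∀ S : Sg, ∑ S' : Sg, Am S S' ^ 2 ≤ (s : ℝ) * Fintype.card α := by
    intro S
    have h := sp_row hs1 Sg hSc S S.2
    rw [← Finset.sum_coe_sort Sg] at h
    exact h
  obtain ⟨v, J, hJ, hY⟩ := spec_many Am hHerm ((M : ℝ) + 3) s ((s : ℝ) * Fintype.card α)
    (by positivity) (by exact_mod_cast h2) hdiag hrow
  rw [Fintype.card_coe] at hJ
  have hs0 : (0 : ℝ) < s := by exact_mod_cast hs1
  have hn : 0 < Fintype.card α := by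
    rcases Nat.eq_zero_or_pos (Fintype.card α) with h0 | h0
    · exfalso
      rw [h0] at hcon
      have h1 : 0 < Sg.card := by
        by_contra h
        have : Sg.card = 0 := by omega
        rw [this] at hcon
        simp at hcon
      obtain ⟨S, hS⟩ := card_pos.1 h1
      have h3 := hSc S hS
      have h4 := card_le_univ S
      omega
    · exact h0
  have hcount : (J.card : ℕ) + 4 * ∑ j ∈ Icc 1 (s / 2), (Fintype.card α).choose (s - 2 * j) <
      G.card := by
    have hn' : (0 : ℝ) < Fintype.card α := by exact_mod_cast hn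
    have hcon' : 4 * (Fintype.card α : ℝ) * Sg.card + 16 * Fintype.card α *
        ((∑ j ∈ Icc 1 (s / 2), (Fintype.card α).choose (s - 2 * j) : ℕ) : ℝ) <
        4 * Fintype.card α * G.card + s * Sg.card := by exact_mod_cast hcon
    have h1 : (s : ℝ) * (s * Sg.card) ≤ s * (4 * Fintype.card α * (Sg.card - J.card)) := by
      nlinarith
    have h3 := le_of_mul_le_mul_left h1 hs0
    have h4 : (4 * (Fintype.card α : ℝ)) * (J.card + 4 *
        ((∑ j ∈ Icc 1 (s / 2), (Fintype.card α).choose (s - 2 * j) : ℕ) : ℝ)) <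
        (4 * (Fintype.card α : ℝ)) * G.card := by nlinarith
    have h5 := lt_of_mul_lt_mul_left h4 (by positivity)
    exact_mod_cast h5
  obtain ⟨a, b, hab, w, hw, hst⟩ := steer ((M : ℝ) + 3) M hM le_rfl
  let I : Finset (Sg ⊕ ((Σ _ : ℕ, Finset α) × Fin 4)) :=
    J.disjSum (((Icc 1 (s / 2)).sigma fun j => powersetCard (s - 2 * j) (univ : Finset α)) ×ˢ
      (univ : Finset (Fin 4)))
  have hI : I.card < G.card := by
    simp only [I, card_disjSum, card_product, card_sigma, card_powersetCard, card_univ,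
      Fintype.card_fin]
    omega
  obtain ⟨f, ⟨A0, hA0, hf0⟩, hf⟩ := exists_kernel G I (spM s a b Sg v) hI
  refine hf0 (sp_core hs1 hanti hdiam hlo hhi hab w ((M : ℝ) + 3) (by positivity) hw hst f ?_ ?_
    A0 hA0)
  · -- the spectral inequality
    set h : Finset α → ℝ := fun T => ∑ A ∈ G with T ⊆ A, f A with hh
    have hzero : ∀ T ∈ powersetCard s (univ : Finset α), T ∉ Sg → h T = 0 := by
      intro T hT hTS
      refine sum_eq_zero fun A hA => ?_
      obtain ⟨hA1, hA2⟩ := mem_filter.1 hA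
      exact absurd (sp_sh.2 ⟨(mem_powersetCard.1 hT).2, A, hA1, hA2⟩) hTS
    have hsub : Sg ⊆ powersetCard s (univ : Finset α) := fun S hS =>
      mem_powersetCard.2 ⟨subset_univ _, hSc S hS⟩
    have hYJ : ∀ k ∈ J, ∑ S : Sg, v k S * h S = 0 := by
      intro k hk
      have h1 := hf (Sum.inl k) (by
        simp only [I, inl_mem_disjSum]
        exact hk)
      simp only [spM] at h1
      rw [← h1]
      simp only [hh, sum_filter, mul_sum, sum_mul]
      rw [sum_comm]
      refine sum_congr rfl fun A _ => sum_congr rfl fun S _ => ?_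
      split_ifs <;> simp
    have h1 := hY (fun S => h S) hYJ
    have h3 : ∑ S : Sg, h S ^ 2 = ∑ T ∈ powersetCard s (univ : Finset α), h T ^ 2 := by
      rw [Finset.sum_coe_sort Sg (fun T => h T ^ 2)]
      refine sum_subset hsub fun T hT hTS => ?_
      rw [hzero T hT hTS]
      ring
    rw [h3] at h1
    refine h1.trans (le_of_eq ?_)
    have h4 : ∀ U ∈ powersetCard (s - 1) (univ : Finset α),
        ∑ T ∈ powersetCard s (univ : Finset α) with U ⊆ T, h T =
          ∑ T : Sg, if U ⊆ T then h T else 0 := by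
      intro U _
      rw [Finset.sum_coe_sort Sg (fun T => if U ⊆ T then h T else 0), sum_filter]
      symm
      refine sum_subset hsub fun T hT hTS => ?_
      rw [hzero T hT hTS]
      simp
    have h5 : ∑ U ∈ powersetCard (s - 1) (univ : Finset α),
        (∑ T ∈ powersetCard s (univ : Finset α) with U ⊆ T, h T) ^ 2 =
        ∑ U ∈ powersetCard (s - 1) (univ : Finset α), ∑ S : Sg, ∑ T : Sg,
          if U ⊆ S ∧ U ⊆ T then h S * h T else 0 := by
      refine sum_congr rfl fun U hU => ?_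
      rw [h4 U hU, sq, sum_mul_sum]
      refine sum_congr rfl fun S _ => sum_congr rfl fun T _ => ?_
      by_cases h6 : U ⊆ (S : Finset α) <;> by_cases h7 : U ⊆ (T : Finset α) <;> simp [h6, h7]
    rw [h5, sum_comm]
    refine sum_congr rfl fun S _ => ?_
    rw [sum_comm, mul_sum]
    refine sum_congr rfl fun T _ => ?_
    rw [← sum_filter, sum_const, card_common, nsmul_eq_mul]
    simp only [hAm]
    ring
  · intro j hj T hT
    refine spC_zero fun i => ?_
    have h := hf (Sum.inr (⟨j, T⟩, i)) (by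
      simp only [I, inr_mem_disjSum, mem_product, mem_sigma, mem_univ, and_true]
      exact ⟨hj, hT⟩)
    simp only [spM, ite_mul, zero_mul, ← sum_filter] at h
    rw [spC_sum]
    exact h

end Pool.Agent.OddLin
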